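import Pool.Agent.Lib.MP_fdde87_co.Ineq

/-!
The algebraic identity behind the cd-index of simplicial spheres.
-/

namespace Pool.Agent.MPfdde87

section Refl

variable {G : Type*} [AddCommGroup G]

theorem refl_pre (F : ℕ → G) (n j : ℕ) (hj : j ≤ n + 1) :
    ∑ l ∈ Finset.range j, F (n - l) = pre F (n + 1) - pre F (n + 1 - j) := by
  induction j with
  | zero => simp
  | succ j ih =>
    rw [Finset.sum_range_succ, ih (by omega)]
    have h1 : n + 1 - j = (n - j) + 1 := by omega
    have h2 : n + 1 - (j + 1) = n - j := by omega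
    rw [h1, h2, pre_succ F (n - j)]
    abel

/-- the summand in the operator `opD`. -/
def qq (n : ℕ) (F : ℕ → G) (j : ℕ) : G := pre F (n + 1 - j) - pre F j

theorem opD_eq_pre (n : ℕ) (F : ℕ → G) (i : ℕ) (hi : i ≤ n + 2) :
    opD n F i = pre (qq n F) i := by
  rw [opD, pre]
  refine Finset.sum_congr rfl fun j hj => ?_
  rw [Finset.mem_range] at hj
  rw [Finset.sum_add_distrib, refl_pre F n j (by omega), qq]
  change pre F (n + 1) - (pre F j + _) = _
  abel

theorem pre_qq_total (n : ℕ) (F : ℕ → G) : pre (qq n F) (n + 2) = 0 := by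
  unfold qq pre
  rw [Finset.sum_sub_distrib, sub_eq_zero]
  have h := Finset.sum_range_reflect (fun j => ∑ l ∈ Finset.range j, F l) (n + 2)
  rw [← h]
  refine Finset.sum_congr rfl fun j hj => ?_
  rw [Finset.mem_range] at hj
  have : n + 2 - 1 - j = n + 1 - j := by omega
  rw [this]

theorem opD_symm (n : ℕ) (F : ℕ → G) (i : ℕ) (hi : i ≤ n + 2) :
    opD n F (n + 2 - i) = opD n F i := by
  rw [opD_eq_pre n F _ (by omega), opD_eq_pre n F i hi]
  have h1 := refl_pre (qq n F) (n + 1) i hi
  have h2 : ∑ l ∈ Finset.range i, qq n F (n + 1 - l) = - pre (qq n F) i := by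
    rw [pre, ← Finset.sum_neg_distrib]
    refine Finset.sum_congr rfl fun l hl => ?_
    rw [Finset.mem_range] at hl
    unfold qq
    have : n + 1 - (n + 1 - l) = l := by omega
    rw [this]
    abel
  rw [h2] at h1
  have h3 : n + 1 + 1 = n + 2 := rfl
  rw [h3, pre_qq_total, zero_sub] at h1
  exact (neg_injective h1).symm

theorem opD_congr (n : ℕ) (F F' : ℕ → G) (h1 : pre F (n + 1) = pre F' (n + 1))
    (h2 : ∀ l ≤ n, F l + F (n - l) = F' l + F' (n - l)) (i : ℕ) (hi : i ≤ n + 2) :
    opD n F i = opD n F' i := by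
  unfold opD
  refine Finset.sum_congr rfl fun j hj => ?_
  rw [Finset.mem_range] at hj
  rw [h1]
  congr 1
  refine Finset.sum_congr rfl fun l hl => ?_
  rw [Finset.mem_range] at hl
  exact h2 l (by omega)

theorem pre_add_refl (F : ℕ → G) (n i : ℕ) (hi : i ≤ n + 1) :
    pre F i + pre F (n + 1 - i) = pre F (n + 1) + pre (fun l => F l - F (n - l)) i := by
  have h1 := refl_pre F n i hi
  have h2 : pre (fun l => F l - F (n - l)) i = pre F i - ∑ l ∈ Finset.range i, F (n - l) := by
    unfold pre
    rw [Finset.sum_sub_distrib]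
  rw [h2, h1]
  abel

end Refl

section Ring

variable {R : Type*} [Ring R]

/-- the ab-polynomials belonging to the entries of the `h`-vector. -/
def Aab (a b : R) : ℕ → ℕ → R
  | 0, i => if i = 0 then 1 else 0
  | n + 1, i => pre (Aab a b n) i * b + (pre (Aab a b n) (n + 1) - pre (Aab a b n) i) * a

/-- the cd-polynomials belonging to the entries of the `h`-vector. -/
def Phi (a b : R) : ℕ → ℕ → R
  | 0, i => if i = 0 then 1 else 0
  | 1, i => opC 0 (Phi a b 0) i * (a + b)
  | n + 2, i => opC (n + 1) (Phi a b (n + 1)) i * (a + b) +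
      opD n (Phi a b n) i * (a * b + b * a)

theorem Phi_diff (a b : R) (n l : ℕ) (hl : l ≤ n + 1) :
    Phi a b (n + 1) l - Phi a b (n + 1) (n + 1 - l) = qq n (Phi a b n) l * (a + b) := by
  cases n with
  | zero =>
    simp only [Phi, opC, qq]
    rw [← sub_mul]
    congr 1
    abel
  | succ n =>
    simp only [Phi]
    rw [opD_symm n _ l hl]
    simp only [opC, qq]
    have : n + 1 + 1 - l = n + 2 - l := rfl
    rw [this]
    noncomm_ring

theorem Phi_sum (a b : R) (n i : ℕ) (hi : i ≤ n + 2) :
    Phi a b (n + 2) i + Phi a b (n + 2) (n + 2 - i) =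
      pre (Phi a b (n + 1)) (n + 2) * (a + b) -
        opD n (Phi a b n) i * ((a - b) * (a - b)) := by
  have h1 := pre_add_refl (Phi a b (n + 1)) (n + 1) i hi
  have h2 : pre (fun l => Phi a b (n + 1) l - Phi a b (n + 1) (n + 1 - l)) i =
      opD n (Phi a b n) i * (a + b) := by
    rw [opD_eq_pre n _ i hi]
    unfold pre
    rw [Finset.sum_mul]
    refine Finset.sum_congr rfl fun l hl => ?_
    rw [Finset.mem_range] at hl
    exact Phi_diff a b n l (by omega)
  rw [h2] at h1
  simp only [Phi]
  rw [opD_symm n _ i hi]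
  simp only [opC]
  have h3 : n + 1 + 1 = n + 2 := rfl
  rw [h3] at h1 ⊢
  have h4 : (a - b) * (a - b) = (a + b) * (a + b) - ((a * b + b * a) + (a * b + b * a)) := by
    noncomm_ring
  have h5 : (pre (Phi a b (n + 1)) (n + 2) - pre (Phi a b (n + 1)) i) * (a + b) +
      (pre (Phi a b (n + 1)) (n + 2) - pre (Phi a b (n + 1)) (n + 2 - i)) * (a + b) =
      pre (Phi a b (n + 1)) (n + 2) * (a + b) - opD n (Phi a b n) i * ((a + b) * (a + b)) := by
    rw [← add_mul]
    have h6 : pre (Phi a b (n + 1)) (n + 2) - pre (Phi a b (n + 1)) i +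
        (pre (Phi a b (n + 1)) (n + 2) - pre (Phi a b (n + 1)) (n + 2 - i)) =
        pre (Phi a b (n + 1)) (n + 2) - opD n (Phi a b n) i * (a + b) := by
      have h7 : pre (Phi a b (n + 1)) (n + 2) - pre (Phi a b (n + 1)) i +
        (pre (Phi a b (n + 1)) (n + 2) - pre (Phi a b (n + 1)) (n + 2 - i)) =
        pre (Phi a b (n + 1)) (n + 2) + pre (Phi a b (n + 1)) (n + 2) -
          (pre (Phi a b (n + 1)) i + pre (Phi a b (n + 1)) (n + 2 - i)) := by abel
      rw [h7, h1]
      abel
    rw [h6, sub_mul, mul_assoc]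
  rw [h4]
  have h8 : ∀ x y z : R, x + y + (z + y) = (x + z) + (y + y) := by
    intro x y z
    abel
  have h9 : ∀ O X D : R, O * (X - (D + D)) = O * X - (O * D + O * D) := by
    intro O X D
    noncomm_ring
  rw [h8, h5, h9]
  abel

theorem Aab_diff (a b : R) (n l : ℕ) (hl : l ≤ n + 1) :
    Aab a b (n + 1) l - Aab a b (n + 1) (n + 1 - l) = qq n (Aab a b n) l * (a - b) := by
  simp only [Aab, qq]
  noncomm_ring

theorem Aab_sum (a b : R) (n i : ℕ) (hi : i ≤ n + 2) :
    Aab a b (n + 2) i + Aab a b (n + 2) (n + 2 - i) =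
      pre (Aab a b (n + 1)) (n + 2) * (a + b) -
        opD n (Aab a b n) i * ((a - b) * (a - b)) := by
  have h1 := pre_add_refl (Aab a b (n + 1)) (n + 1) i hi
  have h2 : pre (fun l => Aab a b (n + 1) l - Aab a b (n + 1) (n + 1 - l)) i =
      opD n (Aab a b n) i * (a - b) := by
    rw [opD_eq_pre n _ i hi]
    unfold pre
    rw [Finset.sum_mul]
    refine Finset.sum_congr rfl fun l hl => ?_
    rw [Finset.mem_range] at hl
    exact Aab_diff a b n l (by omega)
  rw [h2] at h1
  have h3 : n + 1 + 1 = n + 2 := rfl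
  rw [h3] at h1
  have h4 : ∀ j, Aab a b (n + 2) j = pre (Aab a b (n + 1)) j * b +
      (pre (Aab a b (n + 1)) (n + 2) - pre (Aab a b (n + 1)) j) * a := by
    intro j
    rw [Aab]
  rw [h4, h4]
  have h5 : ∀ x y t : R, x * b + (t - x) * a + (y * b + (t - y) * a) =
      (x + y) * b + (t + t - (x + y)) * a := by
    intro x y t
    noncomm_ring
  rw [h5, h1]
  noncomm_ring

theorem pre_add_pre_refl {G : Type*} [AddCommGroup G] (F : ℕ → G) (n : ℕ) :
    pre F (n + 1) + pre F (n + 1) = ∑ i ∈ Finset.range (n + 1), (F i + F (n - i)) := by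
  rw [Finset.sum_add_distrib, refl_pre F n (n + 1) le_rfl]
  simp [pre]

theorem Aab_sum_eq_Phi_sum (htf : ∀ x y : R, x + x = y + y → x = y) (a b : R) (n : ℕ) :
    ∀ i ≤ n, Aab a b n i + Aab a b n (n - i) = Phi a b n i + Phi a b n (n - i) := by
  induction n using Nat.strong_induction_on with
  | _ n ih =>
    intro i hi
    match n, ih with
    | 0, _ => simp only [Aab, Phi]
    | 1, _ =>
      simp only [Aab, Phi, opC, pre]
      have : i = 0 ∨ i = 1 := by omega
      rcases this with rfl | rfl <;> simp [add_comm]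
    | n + 2, ih =>
      have htot : ∀ m < n + 2, pre (Aab a b m) (m + 1) = pre (Phi a b m) (m + 1) := by
        intro m hm
        apply htf
        rw [pre_add_pre_refl, pre_add_pre_refl]
        refine Finset.sum_congr rfl fun i hi => ?_
        rw [Finset.mem_range] at hi
        exact ih m hm i (by omega)
      rw [Aab_sum a b n i hi, Phi_sum a b n i hi, htot (n + 1) (by omega),
        opD_congr n _ _ (htot n (by omega)) (ih n (by omega)) i hi]

theorem sum_h_Aab (htf : ∀ x y : R, x + x = y + y → x = y) (a b : R) (n : ℕ) (h : ℕ → ℤ)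
    (hs : ∀ i ≤ n, h (n - i) = h i) :
    ∑ i ∈ Finset.range (n + 1), h i • Aab a b n i = ∑ i ∈ Finset.range (n + 1), h i • Phi a b n i := by
  have key : ∀ F : ℕ → R, (∑ i ∈ Finset.range (n + 1), h i • F i) +
      (∑ i ∈ Finset.range (n + 1), h i • F i) =
      ∑ i ∈ Finset.range (n + 1), h i • (F i + F (n - i)) := by
    intro F
    simp only [smul_add]
    rw [Finset.sum_add_distrib]
    congr 1
    have h1 := Finset.sum_range_reflect (fun i => h i • F i) (n + 1)
    rw [← h1]
    refine Finset.sum_congr rfl fun i hi => ?_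
    rw [Finset.mem_range] at hi
    have h2 : n + 1 - 1 - i = n - i := by omega
    rw [h2, hs i (by omega)]
  apply htf
  rw [key, key]
  refine Finset.sum_congr rfl fun i hi => ?_
  rw [Finset.mem_range] at hi
  rw [Aab_sum_eq_Phi_sum htf a b n i (by omega)]

end Ring

end Pool.Agent.MPfdde87
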