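import Pool.Agent.Lib.MP_fdde87_co.Cone

/-!
The complex of stars (dual form) and the regularity theorem.
-/

namespace Pool.Agent.MPfdde87

variable {K V : Type*} [Field K] [DecidableEq V]

/-- acyclicity in size `s` of the family of finite sets satisfying `P`
(every cycle supported on sets of size `s` is a boundary). -/
def AcycAt (K : Type*) [Field K] (U : Finset V) (P : Finset V → Prop) (s : ℕ) : Prop :=
  ∀ c : Finset V → K, (∀ ρ, c ρ ≠ 0 → P ρ ∧ ρ.card = s) →
    (∀ ρ, ∑ v ∈ U \ ρ, c (insert v ρ) = 0) →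
    ∃ c' : Finset V → K, (∀ ρ, c' ρ ≠ 0 → P ρ ∧ ρ.card = s + 1) ∧
      ∀ ρ, ∑ v ∈ U \ ρ, c' (insert v ρ) = c ρ

theorem coneAcyc [CharP K 2] {U : Finset V} {P : Finset V → Prop} {u : V} (hu : u ∈ U)
    (hP : ∀ ρ, P ρ → P (insert u ρ)) (s : ℕ) : AcycAt K U P s := by
  intro c hc hcyc
  refine ⟨fun ρ => if u ∈ ρ then c (ρ.erase u) else 0, ?_, ?_⟩
  · intro ρ h
    simp only at h
    split_ifs at h with hur
    · obtain ⟨h1, h2⟩ := hc _ h
      refine ⟨?_, ?_⟩
      · have := hP _ h1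
        rwa [Finset.insert_erase hur] at this
      · rw [Finset.card_erase_of_mem hur] at h2
        have : 0 < ρ.card := Finset.card_pos.mpr ⟨u, hur⟩
        omega
    · exact absurd rfl h
  · intro ρ
    by_cases hur : u ∈ ρ
    · have h1 := hcyc (ρ.erase u)
      have h2 : U \ ρ.erase u = insert u (U \ ρ) := by
        ext x
        simp only [Finset.mem_sdiff, Finset.mem_erase, Finset.mem_insert, not_and]
        constructor
        · rintro ⟨hxU, hx⟩
          by_cases hxu : x = u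
          · left; exact hxu
          · right; exact ⟨hxU, hx hxu⟩
        · rintro (rfl | ⟨hxU, hx⟩)
          · exact ⟨hu, fun h => absurd rfl h⟩
          · exact ⟨hxU, fun _ => hx⟩
      rw [h2, Finset.sum_insert (by simp [hur]), Finset.insert_erase hur] at h1
      have h3 : ∑ v ∈ U \ ρ, (if u ∈ insert v ρ then c ((insert v ρ).erase u) else 0) =
          ∑ v ∈ U \ ρ, c (insert v (ρ.erase u)) := by
        refine Finset.sum_congr rfl fun v hv => ?_
        rw [if_pos (Finset.mem_insert_of_mem hur)]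
        have hvu : u ≠ v := by
          rintro rfl
          exact (Finset.mem_sdiff.mp hv).2 hur
        rw [Finset.erase_insert_of_ne hvu.symm]
      rw [h3]
      have h4 : c ρ + c ρ = 0 := CharTwo.add_self_eq_zero _
      linear_combination h1 - h4
    · rw [Finset.sum_eq_single u]
      · beta_reduce
        rw [if_pos (Finset.mem_insert_self _ _), Finset.erase_insert hur]
      · intro v _ hvu
        beta_reduce
        rw [if_neg]
        rw [Finset.mem_insert, not_or]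
        exact ⟨fun h => hvu h.symm, hur⟩
      · intro h
        exact absurd (Finset.mem_sdiff.mpr ⟨hu, hur⟩) h

/-- boundary operator. -/
def bd (U : Finset V) :
    (Finset V → Multiset V → K) →ₗ[K] (Finset V → Multiset V → K) where
  toFun G := fun ρ M => ∑ v ∈ U \ ρ, G (insert v ρ) M
  map_add' G H := by
    funext ρ M
    simp [Finset.sum_add_distrib]
  map_smul' c G := by
    funext ρ M
    simp [Finset.mul_sum]

theorem bd_apply (U : Finset V) (G : Finset V → Multiset V → K) (ρ : Finset V) (M : Multiset V) :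
    bd U G ρ M = ∑ v ∈ U \ ρ, G (insert v ρ) M := rfl

/-- contraction operators on families. -/
def thC (U : Finset V) (α : V → K) :
    (Finset V → Multiset V → K) →ₗ[K] (Finset V → Multiset V → K) where
  toFun G := fun ρ => th U α (G ρ)
  map_add' G H := by
    funext ρ
    simp
  map_smul' c G := by
    funext ρ
    simp

theorem thC_apply (U : Finset V) (α : V → K) (G : Finset V → Multiset V → K) (ρ : Finset V) :
    thC U α G ρ = th U α (G ρ) := rfl

theorem bd_thC (U : Finset V) (α : V → K) (G : Finset V → Multiset V → K) :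
    bd U (thC U α G) = thC U α (bd U G) := by
  funext ρ M
  simp only [bd_apply, thC_apply, th_apply, Finset.mul_sum]
  rw [Finset.sum_comm]

theorem bd_bd [CharP K 2] (U : Finset V) (G : Finset V → Multiset V → K) :
    bd U (bd U G) = 0 := by
  funext ρ M
  simp only [bd_apply, Pi.zero_apply]
  -- sum over ordered pairs of distinct elements
  have h1 : ∑ v ∈ U \ ρ, ∑ w ∈ U \ insert v ρ, G (insert w (insert v ρ)) M =
      ∑ p ∈ ((U \ ρ) ×ˢ (U \ ρ)).filter (fun p => p.1 ≠ p.2), G (insert p.2 (insert p.1 ρ)) M := by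
    rw [Finset.sum_filter, Finset.sum_product]
    refine Finset.sum_congr rfl fun v hv => ?_
    rw [← Finset.sum_filter]
    refine Finset.sum_congr ?_ fun _ _ => rfl
    ext w
    simp only [Finset.mem_sdiff, Finset.mem_insert, Finset.mem_filter, not_or, ne_eq]
    tauto
  rw [h1]
  refine Finset.sum_involution (fun p _ => (p.2, p.1)) ?_ ?_ ?_ ?_
  · intro p hp
    simp only
    rw [Finset.insert_comm]
    exact CharTwo.add_self_eq_zero _
  · intro p hp _ h
    rw [Finset.mem_filter] at hp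
    apply hp.2
    have := congrArg Prod.fst h
    exact this.symm
  · intro p hp
    simp only [Finset.mem_filter, Finset.mem_product, ne_eq] at hp ⊢
    exact ⟨⟨hp.1.2, hp.1.1⟩, fun h => hp.2 h.symm⟩
  · intro p hp
    rfl

/-- the modules of the star complex for the face `σ`. -/
def CS (K : Type*) [Field K] (Δ : Finset (Finset V)) (σ : Finset V) (s m : ℕ) :
    Submodule K (Finset V → Multiset V → K) where
  carrier := {G | ∀ ρ M, G ρ M ≠ 0 →
    Disjoint ρ σ ∧ ρ.card = s ∧ (ρ ∪ σ) ∪ M.toFinset ∈ Δ ∧ Multiset.card M = m}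
  zero_mem' := by
    intro ρ M h
    simp at h
  add_mem' := by
    intro F G hF hG ρ M h
    by_cases h' : F ρ M = 0
    · apply hG
      intro h''
      apply h
      simp [h', h'']
    · exact hF ρ M h'
  smul_mem' := by
    intro c F hF ρ M h
    apply hF
    intro h'
    apply h
    simp [h']

theorem mem_CS {Δ : Finset (Finset V)} {σ : Finset V} {s m : ℕ} {G : Finset V → Multiset V → K} :
    G ∈ CS K Δ σ s m ↔ ∀ ρ M, G ρ M ≠ 0 →
      Disjoint ρ σ ∧ ρ.card = s ∧ (ρ ∪ σ) ∪ M.toFinset ∈ Δ ∧ Multiset.card M = m := Iff.rfl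

/-- cycles. -/
def BS (K : Type*) [Field K] (U : Finset V) (Δ : Finset (Finset V)) (σ : Finset V) (s m : ℕ) :
    Submodule K (Finset V → Multiset V → K) :=
  CS K Δ σ s m ⊓ LinearMap.ker (bd U)

theorem mem_BS {U : Finset V} {Δ : Finset (Finset V)} {σ : Finset V} {s m : ℕ}
    {G : Finset V → Multiset V → K} :
    G ∈ BS K U Δ σ s m ↔ G ∈ CS K Δ σ s m ∧ bd U G = 0 := by
  rw [BS, Submodule.mem_inf, LinearMap.mem_ker]

variable {U : Finset V} {Δ : Finset (Finset V)} {σ : Finset V}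

theorem thC_mem_CS (hΔ : IsCx Δ) (α : V → K) {s m : ℕ} {G : Finset V → Multiset V → K}
    (hG : G ∈ CS K Δ σ s (m + 1)) : thC U α G ∈ CS K Δ σ s m := by
  intro ρ M h
  rw [thC_apply, th_apply] at h
  obtain ⟨v, hv, hne⟩ := Finset.exists_ne_zero_of_sum_ne_zero h
  obtain ⟨h1, h2, h3, h4⟩ := hG _ _ (right_ne_zero_of_mul hne)
  rw [Multiset.card_cons] at h4
  refine ⟨h1, h2, hΔ.down _ h3 _ ?_, by omega⟩
  apply Finset.union_subset_union_right
  rw [Multiset.toFinset_cons]
  exact Finset.subset_insert _ _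

theorem thC_CS_zero (α : V → K) {s : ℕ} {G : Finset V → Multiset V → K}
    (hG : G ∈ CS K Δ σ s 0) : thC U α G = 0 := by
  funext ρ M
  rw [thC_apply, th_apply]
  apply Finset.sum_eq_zero
  intro v _
  have : G ρ (v ::ₘ M) = 0 := by
    by_contra h
    have := (hG _ _ h).2.2.2
    simp at this
  rw [this, mul_zero]

theorem bd_mem_CS (hΔ : IsCx Δ) {s m : ℕ} {G : Finset V → Multiset V → K}
    (hG : G ∈ CS K Δ σ (s + 1) m) : bd U G ∈ CS K Δ σ s m := by
  intro ρ M h
  rw [bd_apply] at h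
  obtain ⟨v, hv, hne⟩ := Finset.exists_ne_zero_of_sum_ne_zero h
  obtain ⟨h1, h2, h3, h4⟩ := hG _ _ hne
  have hvρ : v ∉ ρ := (Finset.mem_sdiff.mp hv).2
  rw [Finset.card_insert_of_notMem hvρ] at h2
  refine ⟨?_, by omega, hΔ.down _ h3 _ ?_, h4⟩
  · exact Finset.disjoint_of_subset_left (Finset.subset_insert _ _) h1
  · apply Finset.union_subset_union_left
    apply Finset.union_subset_union_left
    exact Finset.subset_insert _ _

/-- the link of `σ`, as a predicate. -/
def LinkP (Δ : Finset (Finset V)) (σ : Finset V) (ρ : Finset V) : Prop :=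
  Disjoint ρ σ ∧ ρ ∪ σ ∈ Δ

theorem cech_exact [CharP K 2] (hU : ∀ τ ∈ Δ, τ ⊆ U) {s m : ℕ}
    (hac : AcycAt K U (LinkP Δ σ) s) {G : Finset V → Multiset V → K}
    (hG : G ∈ BS K U Δ σ s m) : ∃ G' ∈ CS K Δ σ (s + 1) m, bd U G' = G := by
  rw [mem_BS] at hG
  obtain ⟨hG, hcyc⟩ := hG
  have key : ∀ M : Multiset V, ∃ c' : Finset V → K,
      (∀ ρ, c' ρ ≠ 0 → Disjoint ρ σ ∧ ρ.card = s + 1 ∧ (ρ ∪ σ) ∪ M.toFinset ∈ Δ ∧
        Multiset.card M = m) ∧ ∀ ρ, ∑ v ∈ U \ ρ, c' (insert v ρ) = G ρ M := by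
    intro M
    by_cases hz : ∀ ρ, G ρ M = 0
    · refine ⟨0, by simp, ?_⟩
      intro ρ
      simp [hz ρ]
    push Not at hz
    obtain ⟨ρ₀, hρ₀⟩ := hz
    obtain ⟨-, -, h3, h4⟩ := hG _ _ hρ₀
    have hMU : M.toFinset ⊆ U := Finset.subset_union_right.trans (hU _ h3)
    -- the predicate
    set P : Finset V → Prop := fun ρ => Disjoint ρ σ ∧ (ρ ∪ σ) ∪ M.toFinset ∈ Δ with hP
    have hPac : AcycAt K U P s := by
      by_cases hsub : M.toFinset ⊆ σ
      · have : P = LinkP Δ σ := by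
          funext ρ
          simp only [hP, LinkP]
          rw [Finset.union_eq_left.mpr (hsub.trans Finset.subset_union_right)]
        rw [this]
        exact hac
      · obtain ⟨w, hw, hwσ⟩ := Finset.not_subset.mp hsub
        apply coneAcyc (hMU hw)
        rintro ρ ⟨h5, h6⟩
        refine ⟨?_, ?_⟩
        · rw [Finset.disjoint_insert_left]
          exact ⟨hwσ, h5⟩
        · rw [Finset.insert_union, Finset.insert_union, Finset.insert_eq_of_mem]
          · exact h6
          · exact Finset.mem_union_right _ hw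
    obtain ⟨c', h5, h6⟩ := hPac (fun ρ => G ρ M) (by
      intro ρ h
      obtain ⟨h1, h2, h3, h4⟩ := hG _ _ h
      exact ⟨⟨h1, h3⟩, h2⟩) (by
      intro ρ
      have := congrFun (congrFun hcyc ρ) M
      rw [bd_apply] at this
      exact this)
    refine ⟨c', ?_, h6⟩
    intro ρ h
    obtain ⟨⟨h7, h8⟩, h9⟩ := h5 ρ h
    exact ⟨h7, h9, h8, h4⟩
  choose c' hc1 hc2 using key
  refine ⟨fun ρ M => c' M ρ, ?_, ?_⟩
  · intro ρ M h
    exact hc1 M ρ h
  · funext ρ M
    rw [bd_apply]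
    exact hc2 M ρ

/-- the star of `τ`. -/
def star (Δ : Finset (Finset V)) (τ : Finset V) : Finset (Finset V) :=
  Δ.filter (fun μ => μ ∪ τ ∈ Δ)

theorem mem_star {τ μ : Finset V} : μ ∈ star Δ τ ↔ μ ∈ Δ ∧ μ ∪ τ ∈ Δ := by
  rw [star, Finset.mem_filter]

theorem mem_star' (hΔ : IsCx Δ) {τ μ : Finset V} : μ ∈ star Δ τ ↔ μ ∪ τ ∈ Δ := by
  rw [mem_star]
  exact ⟨fun h => h.2, fun h => ⟨hΔ.down _ h _ Finset.subset_union_left, h⟩⟩

theorem isCx_star (hΔ : IsCx Δ) {τ : Finset V} (hτ : τ ∈ Δ) : IsCx (star Δ τ) := by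
  constructor
  · rw [mem_star' hΔ, Finset.empty_union]
    exact hτ
  · intro s hs t hts
    rw [mem_star' hΔ] at hs ⊢
    exact hΔ.down _ hs _ (Finset.union_subset_union_left hts)

/-- full regularity of the modules `CS` from that of stars. -/
theorem regAt_CS (hΔ : IsCx Δ) (a : ℕ → V → K) {s i m : ℕ}
    (hst : ∀ ρ, Disjoint ρ σ → ρ.card = s → ρ ∪ σ ∈ Δ →
      RegAt (fun i => th U (a i)) (WS K (star Δ (ρ ∪ σ))) i m) :
    RegAt (fun i => thC U (a i)) (CS K Δ σ s) i m := by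
  intro G hG hG0
  have key : ∀ ρ : Finset V, ∃ g' : Multiset V → K,
      (∀ M, g' M ≠ 0 → Disjoint ρ σ ∧ ρ.card = s ∧ (ρ ∪ σ) ∪ M.toFinset ∈ Δ ∧
        Multiset.card M = m + 1) ∧ (∀ j < i, th U (a j) g' = 0) ∧ th U (a i) g' = G ρ := by
    intro ρ
    by_cases hz : G ρ = 0
    · exact ⟨0, by simp, by simp, by rw [map_zero, hz]⟩
    · have : ∃ M, G ρ M ≠ 0 := by
        by_contra h
        push Not at h
        exact hz (funext h)
      obtain ⟨M₀, hM₀⟩ := this
      obtain ⟨h1, h2, h3, h4⟩ := hG _ _ hM₀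
      have h5 : ρ ∪ σ ∈ Δ := hΔ.down _ h3 _ Finset.subset_union_left
      obtain ⟨g', hg', hg'0, hg'i⟩ := hst ρ h1 h2 h5 (G ρ) (by
        intro M h
        obtain ⟨h1, h2, h3, h4⟩ := hG _ _ h
        rw [mem_star' hΔ, Finset.union_comm]
        exact ⟨h3, h4⟩) (by
        intro j hj
        exact congrFun (hG0 j hj) ρ)
      refine ⟨g', ?_, hg'0, hg'i⟩
      intro M h
      obtain ⟨h6, h7⟩ := hg' M h
      rw [mem_star' hΔ, Finset.union_comm] at h6
      exact ⟨h1, h2, h6, h7⟩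
  choose g' hg1 hg2 hg3 using key
  refine ⟨g', ?_, ?_, ?_⟩
  · intro ρ M h
    exact hg1 ρ M h
  · intro j hj
    funext ρ
    exact hg2 ρ j hj
  · funext ρ
    exact hg3 ρ

/-- regularity along the chain of cycles. -/
theorem regAt_BS [CharP K 2] (hΔ : IsCx Δ) (hU : ∀ τ ∈ Δ, τ ⊆ U) (a : ℕ → V → K) (n d : ℕ)
    (hac : ∀ s < n, AcycAt K U (LinkP Δ σ) s)
    (hst : ∀ ρ : Finset V, ρ.Nonempty → Disjoint ρ σ → ρ ∪ σ ∈ Δ → ∀ i < d, ∀ m,
      RegAt (fun i => th U (a i)) (WS K (star Δ (ρ ∪ σ))) i m)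
    (t : ℕ) : ∀ s, s + t = n → ∀ i < d, ∀ m, (i < t ∨ m < t) →
      RegAt (fun i => thC U (a i)) (BS K U Δ σ s) i m := by
  induction t with
  | zero =>
    intro s _ i _ m h
    omega
  | succ t ih =>
    intro s hs i hi m him
    refine regAt_of_lift (T := fun i => thC U (a i)) (T' := fun i => thC U (a i))
      (W := CS K Δ σ (s + 1)) (Z := BS K U Δ σ (s + 1)) (W' := BS K U Δ σ s) (bd U)
      ?_ ?_ ?_ ?_ ?_ ?_ ?_ i m ?_ ?_
    · intro i j g
      funext ρ
      exact th_comm _ _ _ _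
    · intro i g
      exact bd_thC _ _ _
    · intro i m g hg
      exact thC_mem_CS hΔ _ hg
    · intro i g hg
      exact thC_CS_zero _ hg
    · intro m g
      exact mem_BS
    · intro m g' hg'
      exact cech_exact hU (hac s (by omega)) hg'
    · intro m g hg
      rw [mem_BS]
      exact ⟨bd_mem_CS hΔ hg, bd_bd U g⟩
    · apply regAt_CS hΔ
      intro ρ h1 h2 h3
      exact hst ρ (Finset.card_pos.mp (by omega)) h1 h3 i hi m
    · intro j hj m' hm'
      exact ih (s + 1) (by omega) j (by omega) m' (by omega)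

/-- surjectivity of the sum over the vertices of the link, on the joint kernels,
in degrees `m < n`. -/
theorem stress_lift [CharP K 2] (hΔ : IsCx Δ) (hU : ∀ τ ∈ Δ, τ ⊆ U) (a : ℕ → V → K) (n d : ℕ)
    (hn : 0 < n)
    (hac : ∀ s < n, AcycAt K U (LinkP Δ σ) s)
    (hst : ∀ ρ : Finset V, ρ.Nonempty → Disjoint ρ σ → ρ ∪ σ ∈ Δ → ∀ i < d, ∀ m,
      RegAt (fun i => th U (a i)) (WS K (star Δ (ρ ∪ σ))) i m)
    (m : ℕ) (hm : m < n) (G : Finset V → Multiset V → K) (hG : G ∈ BS K U Δ σ 0 m)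
    (hG0 : ∀ i < d, thC U (a i) G = 0) :
    ∃ G' ∈ CS K Δ σ 1 m, (∀ i < d, thC U (a i) G' = 0) ∧ bd U G' = G := by
  refine exists_lift (T := fun i => thC U (a i)) (T' := fun i => thC U (a i))
      (W := CS K Δ σ 1) (Z := BS K U Δ σ 1) (W' := BS K U Δ σ 0) (bd U)
      ?_ ?_ ?_ ?_ ?_ ?_ d m ?_ G hG hG0
  · intro i j g
    funext ρ
    exact th_comm _ _ _ _
  · intro i g
    exact bd_thC _ _ _
  · intro i m g hg
    exact thC_mem_CS hΔ _ hg
  · intro i g hg
    exact thC_CS_zero _ hg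
  · intro m g
    exact mem_BS
  · intro m g' hg'
    exact cech_exact hU (hac 0 hn) hg'
  · intro j hj m' hm'
    exact regAt_BS hΔ hU a n d hac hst (n - 1) 1 (by omega) j hj m' (by omega)

end Pool.Agent.MPfdde87
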