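import Pool.Agent.Lib.MP_fdde87_co.PD

/-!
Dimension counts.
-/

namespace Pool.Agent.MPfdde87

/-- backward difference. -/
def nab (f : ℕ → ℤ) : ℕ → ℤ
  | 0 => f 0
  | m + 1 => f (m + 1) - f m

/-- shift. -/
def shf (f : ℕ → ℤ) : ℕ → ℤ
  | 0 => 0
  | m + 1 => f m

/-- the number of multisets of size `m` whose support is a given set of size `k`. -/
def stars : ℕ → ℕ → ℤ
  | 0, 0 => 1
  | 0, _ + 1 => 0
  | _ + 1, 0 => 0
  | k + 1, m + 1 => stars (k + 1) m + stars k m

/-- the `h`-vector of the sequence `x` of face numbers (`x k` = number of faces of size `k`)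
of a complex with faces of size at most `d`. -/
def hvec : ℕ → (ℕ → ℤ) → ℕ → ℤ
  | 0, x, i => if i = 0 then x 0 else 0
  | d + 1, x, i =>
    if i ≤ d then (if i = 0 then hvec d x 0 else hvec d x i - hvec d x (i - 1))
    else if i = d + 1 then x (d + 1) - hvec d x d else 0

theorem nab_shf (f : ℕ → ℤ) : nab (shf f) = shf (nab f) := by
  funext m
  rcases m with _ | _ | m
  · rfl
  · simp [nab, shf]
  · simp [nab, shf]

theorem nab_stars_succ (k : ℕ) : nab (stars (k + 1)) = shf (stars k) := by
  funext m
  rcases m with _ | m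
  · simp [nab, shf, stars]
  · simp [nab, shf, stars]

theorem nab_iter_stars (j k : ℕ) : nab^[j] (stars (k + j)) = shf^[j] (stars k) := by
  induction j generalizing k with
  | zero => rfl
  | succ j ih =>
    rw [Function.iterate_succ_apply, ← Nat.add_assoc, nab_stars_succ]
    have h : ∀ (j : ℕ) (f : ℕ → ℤ), nab^[j] (shf f) = shf (nab^[j] f) := by
      intro j
      induction j with
      | zero => intro f; rfl
      | succ j ih => intro f; rw [Function.iterate_succ_apply, nab_shf, ih,
          Function.iterate_succ_apply]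
    rw [h, ih, Function.iterate_succ_apply']

theorem nab_iter_shf (j : ℕ) (f : ℕ → ℤ) : nab^[j] (shf f) = shf (nab^[j] f) := by
  induction j generalizing f with
  | zero => rfl
  | succ j ih => rw [Function.iterate_succ_apply, nab_shf, ih, Function.iterate_succ_apply]

theorem nab_iter_shf_iter (j k : ℕ) (f : ℕ → ℤ) :
    nab^[j] (shf^[k] f) = shf^[k] (nab^[j] f) := by
  induction k generalizing f with
  | zero => rfl
  | succ k ih =>
    rw [Function.iterate_succ_apply', nab_iter_shf, ih, Function.iterate_succ_apply']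

theorem shf_iter_apply (k m : ℕ) (f : ℕ → ℤ) : shf^[k] f (m + k) = f m := by
  induction k generalizing m with
  | zero => rfl
  | succ k ih =>
    rw [Function.iterate_succ_apply', ← Nat.add_assoc]
    exact ih m

theorem shf_iter_apply_lt (k m : ℕ) (f : ℕ → ℤ) (h : m < k) : shf^[k] f m = 0 := by
  induction k generalizing m with
  | zero => omega
  | succ k ih =>
    rw [Function.iterate_succ_apply']
    rcases m with _ | m
    · rfl
    · exact ih m (by omega)

theorem nab_iter_stars_zero (e m : ℕ) (h : e < m) : nab^[e] (stars 0) m = 0 := by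
  induction e generalizing m with
  | zero =>
    rcases m with _ | m
    · omega
    · rfl
  | succ e ih =>
    rw [Function.iterate_succ_apply']
    rcases m with _ | m
    · omega
    · change nab^[e] (stars 0) (m + 1) - nab^[e] (stars 0) m = 0
      rw [ih _ (by omega), ih _ (by omega), sub_zero]

theorem nab_iter_stars_top (d k : ℕ) :
    nab^[d] (stars k) (d + 1) = if k = d + 1 then 1 else 0 := by
  rcases Nat.lt_or_ge d k with h | h
  · -- k ≥ d+1
    obtain ⟨j, rfl⟩ := Nat.exists_eq_add_of_lt h
    have h1 : d + j + 1 = (j + 1) + d := by omega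
    rw [h1, nab_iter_stars, show d + 1 = 1 + d by omega, shf_iter_apply]
    rcases j with _ | j
    · simp [stars]
    · rw [if_neg (by omega)]
      simp [stars]
  · rw [if_neg (by omega)]
    obtain ⟨e, rfl⟩ := Nat.exists_eq_add_of_le h
    have h1 : nab^[k + e] (stars k) = nab^[e] (nab^[k] (stars (0 + k))) := by
      rw [← Function.iterate_add_apply, Nat.zero_add, Nat.add_comm]
    rw [h1, nab_iter_stars, nab_iter_shf_iter, show k + e + 1 = (e + 1) + k by omega,
      shf_iter_apply]
    exact nab_iter_stars_zero _ _ (by omega)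

theorem nab_sum {ι : Type*} (s : Finset ι) (f : ι → ℕ → ℤ) :
    nab (fun m => ∑ i ∈ s, f i m) = fun m => ∑ i ∈ s, nab (f i) m := by
  funext m
  rcases m with _ | m
  · rfl
  · simp [nab, Finset.sum_sub_distrib]

theorem nab_smul (c : ℤ) (f : ℕ → ℤ) : nab (fun m => c * f m) = fun m => c * nab f m := by
  funext m
  rcases m with _ | m
  · rfl
  · simp only [nab]
    ring

theorem nab_iter_sum {ι : Type*} (d : ℕ) (s : Finset ι) (c : ι → ℤ) (f : ι → ℕ → ℤ) :
    nab^[d] (fun m => ∑ i ∈ s, c i * f i m) = fun m => ∑ i ∈ s, c i * nab^[d] (f i) m := by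
  induction d generalizing f with
  | zero => rfl
  | succ d ih =>
    rw [Function.iterate_succ_apply, nab_sum]
    simp only [nab_smul]
    rw [ih]
    rfl

theorem hvec_eq_nab (x : ℕ → ℤ) (N : ℕ) (d : ℕ) (hd : d ≤ N) :
    ∀ m ≤ d, nab^[d] (fun m => ∑ k ∈ Finset.range (N + 1), x k * stars k m) m = hvec d x m := by
  induction d with
  | zero =>
    intro m hm
    have : m = 0 := by omega
    subst this
    simp only [Function.iterate_zero, id_eq, hvec, if_true]
    rw [Finset.sum_eq_single 0]
    · simp [stars]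
    · intro k _ hk
      obtain ⟨k', rfl⟩ := Nat.exists_eq_succ_of_ne_zero hk
      simp [stars]
    · simp
  | succ d ih =>
    intro m hm
    rw [Function.iterate_succ_apply']
    have ih := ih (by omega)
    rcases m with _ | m
    · simp only [nab, hvec, Nat.zero_le, if_true]
      exact ih 0 (by omega)
    · simp only [nab, hvec]
      rcases Nat.lt_or_ge m d with h | h
      · rw [if_pos (by omega), if_neg (by omega), ih _ (by omega), ih _ (by omega)]
        rfl
      · have : m = d := by omega
        subst this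
        rw [if_neg (by omega), if_pos rfl, ih m le_rfl, nab_iter_sum]
        simp only [nab_iter_stars_top]
        rw [Finset.sum_eq_single (m + 1)]
        · simp
        · intro k _ hk
          simp [hk]
        · intro h'
          rw [Finset.mem_range] at h'
          omega

section Counting

variable {V : Type*} [DecidableEq V]

/-- multisets of size `m` with elements in `U`. -/
def msets (U : Finset V) (m : ℕ) : Finset (Multiset V) :=
  (U.sym m).image (fun s : Sym V m => s.1)

theorem mem_msets {U : Finset V} {m : ℕ} {M : Multiset V} :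
    M ∈ msets U m ↔ M.toFinset ⊆ U ∧ Multiset.card M = m := by
  unfold msets
  rw [Finset.mem_image]
  constructor
  · rintro ⟨s, hs, rfl⟩
    rw [Finset.mem_sym_iff] at hs
    refine ⟨?_, s.2⟩
    intro x hx
    rw [Multiset.mem_toFinset] at hx
    exact hs x hx
  · rintro ⟨h1, h2⟩
    refine ⟨Sym.mk M h2, ?_, rfl⟩
    rw [Finset.mem_sym_iff]
    intro x hx
    exact h1 (Multiset.mem_toFinset.mpr hx)

/-- multisets with support exactly `F`. -/
theorem card_stars (m : ℕ) : ∀ (F U : Finset V), F ⊆ U →
    (((msets U m).filter (fun M => M.toFinset = F)).card : ℤ) = stars F.card m := by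
  induction m with
  | zero =>
    intro F U hFU
    rcases Finset.eq_empty_or_nonempty F with rfl | hF
    · have : (msets U 0).filter (fun M => M.toFinset = ∅) = {0} := by
        ext M
        rw [Finset.mem_filter, mem_msets, Finset.mem_singleton]
        constructor
        · rintro ⟨⟨_, h⟩, _⟩
          exact Multiset.card_eq_zero.mp h
        · rintro rfl
          simp
      rw [this]
      simp [stars]
    · have : (msets U 0).filter (fun M => M.toFinset = F) = ∅ := by
        ext M
        rw [Finset.mem_filter, mem_msets]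
        simp only [Finset.notMem_empty, iff_false, not_and]
        rintro ⟨_, h⟩ h2
        rw [Multiset.card_eq_zero.mp h] at h2
        simp at h2
        exact hF.ne_empty h2.symm
      rw [this]
      obtain ⟨k, hk⟩ := Nat.exists_eq_succ_of_ne_zero (Finset.card_pos.mpr hF).ne'
      rw [hk]
      simp [stars]
  | succ m ih =>
    intro F U hFU
    rcases Finset.eq_empty_or_nonempty F with rfl | ⟨u, hu⟩
    · have : (msets U (m + 1)).filter (fun M => M.toFinset = ∅) = ∅ := by
        ext M
        rw [Finset.mem_filter, mem_msets]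
        simp only [Finset.notMem_empty, iff_false, not_and]
        rintro ⟨_, h⟩ h2
        rw [Multiset.toFinset_eq_empty] at h2
        rw [h2] at h
        simp at h
      rw [this]
      simp [stars]
    · have h1 : F.card = (F.erase u).card + 1 := by
        rw [Finset.card_erase_of_mem hu]
        have : 0 < F.card := Finset.card_pos.mpr ⟨u, hu⟩
        omega
      have h2 := ih F U hFU
      have h3 := ih (F.erase u) U ((Finset.erase_subset _ _).trans hFU)
      rw [h1] at h2 ⊢
      rw [stars, ← h2, ← h3, ← Nat.cast_add]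
      congr 1
      rw [← Finset.card_union_of_disjoint]
      · refine Finset.card_bij (fun M _ => M.erase u) ?_ ?_ ?_
        · intro M hM
          rw [Finset.mem_filter, mem_msets] at hM
          obtain ⟨⟨h4, h5⟩, h6⟩ := hM
          have huM : u ∈ M := by
            rw [← Multiset.mem_toFinset, h6]
            exact hu
          rw [Finset.mem_union, Finset.mem_filter, Finset.mem_filter, mem_msets]
          have h7 : (M.erase u).toFinset ⊆ U := (Multiset.toFinset_subset.mpr
            (Multiset.subset_of_le (Multiset.erase_le _ _))).trans h4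
          have h8 : Multiset.card (M.erase u) = m := by
            rw [Multiset.card_erase_of_mem huM, h5]
            rfl
          by_cases hc : u ∈ M.erase u
          · left
            refine ⟨⟨h7, h8⟩, ?_⟩
            rw [← h6, ← Multiset.cons_erase huM, Multiset.toFinset_cons,
              Multiset.erase_cons_head, Finset.insert_eq_of_mem]
            rwa [Multiset.mem_toFinset]
          · right
            refine ⟨⟨h7, h8⟩, ?_⟩
            rw [← h6, ← Multiset.cons_erase huM, Multiset.toFinset_cons,
              Multiset.erase_cons_head, Finset.erase_insert]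
            rwa [Multiset.mem_toFinset]
        · intro M hM N hN h
          rw [Finset.mem_filter, mem_msets] at hM hN
          have huM : u ∈ M := by
            rw [← Multiset.mem_toFinset, hM.2]
            exact hu
          have huN : u ∈ N := by
            rw [← Multiset.mem_toFinset, hN.2]
            exact hu
          rw [← Multiset.cons_erase huM, ← Multiset.cons_erase huN, h]
        · intro N hN
          rw [Finset.mem_union, Finset.mem_filter, Finset.mem_filter, mem_msets] at hN
          refine ⟨u ::ₘ N, ?_, Multiset.erase_cons_head _ _⟩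
          rw [Finset.mem_filter, mem_msets, Multiset.toFinset_cons, Multiset.card_cons]
          rcases hN with ⟨⟨h4, h5⟩, h6⟩ | ⟨⟨h4, h5⟩, h6⟩
          · refine ⟨⟨?_, by omega⟩, ?_⟩
            · exact Finset.insert_subset (hFU hu) h4
            · rw [h6, Finset.insert_eq_of_mem hu]
          · refine ⟨⟨?_, by omega⟩, ?_⟩
            · exact Finset.insert_subset (hFU hu) h4
            · rw [h6, Finset.insert_erase hu]
      · rw [Finset.disjoint_left]
        intro M hM hM'
        rw [Finset.mem_filter] at hM hM'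
        have : u ∈ F.erase u := by
          rw [← hM'.2, hM.2]
          exact hu
        simp at this

/-- the number of faces of size `k`. -/
def fnum (Δ : Finset (Finset V)) (k : ℕ) : ℤ := ((Δ.filter (fun F => F.card = k)).card : ℤ)

theorem card_face_monomials {Δ : Finset (Finset V)} {U : Finset V} (hU : ∀ τ ∈ Δ, τ ⊆ U) {N : ℕ}
    (hN : ∀ τ ∈ Δ, τ.card ≤ N) (m : ℕ) :
    (((msets U m).filter (fun M => M.toFinset ∈ Δ)).card : ℤ) =
      ∑ k ∈ Finset.range (N + 1), fnum Δ k * stars k m := by
  have h1 : (msets U m).filter (fun M => M.toFinset ∈ Δ) =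
      Δ.biUnion (fun F => (msets U m).filter (fun M => M.toFinset = F)) := by
    ext M
    simp only [Finset.mem_filter, Finset.mem_biUnion]
    constructor
    · rintro ⟨h, h'⟩
      exact ⟨_, h', h, rfl⟩
    · rintro ⟨F, hF, h, rfl⟩
      exact ⟨h, hF⟩
  rw [h1, Finset.card_biUnion]
  · push_cast
    rw [Finset.sum_congr rfl (fun F hF => card_stars m F U (hU F hF))]
    have h2 : ∀ F ∈ Δ, F.card ∈ Finset.range (N + 1) := by
      intro F hF
      rw [Finset.mem_range]
      have := hN F hF
      omega
    rw [← Finset.sum_fiberwise_of_maps_to h2]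
    refine Finset.sum_congr rfl fun k _ => ?_
    rw [fnum, Finset.sum_congr rfl (g := fun _ => stars k m)]
    · rw [Finset.sum_const, nsmul_eq_mul]
    · intro F hF
      rw [(Finset.mem_filter.mp hF).2]
  · intro F _ F' _ hne
    rw [Function.onFun, Finset.disjoint_left]
    intro M hM hM'
    rw [Finset.mem_filter] at hM hM'
    exact hne (hM.2.symm.trans hM'.2)

end Counting

section Rank

variable {K V : Type*} [Field K] [DecidableEq V]
variable {U : Finset V} {Δ : Finset (Finset V)}

/-- joint kernels. -/
def KerS (U : Finset V) (Δ : Finset (Finset V)) (a : ℕ → V → K) (i m : ℕ) :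
    Submodule K (Multiset V → K) where
  carrier := {g | g ∈ WS K Δ m ∧ ∀ j < i, th U (a j) g = 0}
  zero_mem' := ⟨Submodule.zero_mem _, fun j _ => map_zero _⟩
  add_mem' := fun hf hg => ⟨Submodule.add_mem _ hf.1 hg.1, fun j hj => by
    rw [map_add, hf.2 j hj, hg.2 j hj, add_zero]⟩
  smul_mem' := fun c f hf => ⟨Submodule.smul_mem _ _ hf.1, fun j hj => by
    rw [map_smul, hf.2 j hj, smul_zero]⟩

theorem mem_KerS {a : ℕ → V → K} {i m : ℕ} {g : Multiset V → K} :
    g ∈ KerS U Δ a i m ↔ g ∈ WS K Δ m ∧ ∀ j < i, th U (a j) g = 0 := Iff.rfl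

/-- restriction to the finite set of face monomials. -/
def resWS (K : Type*) [Field K] (Δ : Finset (Finset V)) (U : Finset V) (m : ℕ) :
    WS K Δ m →ₗ[K] (↥((msets U m).filter (fun M => M.toFinset ∈ Δ)) → K) where
  toFun g := fun M => g.1 M.1
  map_add' _ _ := rfl
  map_smul' _ _ := rfl

theorem resWS_bij (hU : ∀ τ ∈ Δ, τ ⊆ U) (m : ℕ) : Function.Bijective (resWS K Δ U m) := by
  constructor
  · rw [injective_iff_map_eq_zero]
    intro g hg
    ext M
    by_contra hne
    obtain ⟨h1, h2⟩ := g.2 M hne
    have h3 : M ∈ (msets U m).filter (fun M => M.toFinset ∈ Δ) := by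
      rw [Finset.mem_filter, mem_msets]
      exact ⟨⟨hU _ h1, h2⟩, h1⟩
    exact hne (congrFun hg ⟨M, h3⟩)
  · intro f
    refine ⟨⟨fun M => if h : M ∈ (msets U m).filter (fun M => M.toFinset ∈ Δ) then f ⟨M, h⟩
      else 0, ?_⟩, ?_⟩
    · intro M hM
      by_cases h : M ∈ (msets U m).filter (fun M => M.toFinset ∈ Δ)
      · rw [Finset.mem_filter, mem_msets] at h
        exact ⟨h.2, h.1.2⟩
      · simp [h] at hM
    · funext M
      have := M.2
      simp only [resWS, LinearMap.coe_mk, AddHom.coe_mk]
      rw [dif_pos this]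

theorem finrank_WS (hU : ∀ τ ∈ Δ, τ ⊆ U) (m : ℕ) :
    Module.Finite K (WS K Δ m) ∧
    Module.finrank K (WS K Δ m) = ((msets U m).filter (fun M => M.toFinset ∈ Δ)).card := by
  let e := LinearEquiv.ofBijective (resWS K Δ U m) (resWS_bij hU m)
  refine ⟨Module.Finite.equiv e.symm, ?_⟩
  rw [e.finrank_eq, Module.finrank_fintype_fun_eq_card, Fintype.card_coe]

theorem finite_KerS (hU : ∀ τ ∈ Δ, τ ⊆ U) (a : ℕ → V → K) (i m : ℕ) :
    Module.Finite K (KerS U Δ a i m) := by
  have := (finrank_WS (K := K) hU m).1
  have hle : KerS U Δ a i m ≤ WS K Δ m := fun g hg => hg.1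
  exact Module.Finite.of_injective (Submodule.inclusion hle) (Submodule.inclusion_injective hle)

theorem finrank_KerS_zero (a : ℕ → V → K) (m : ℕ) : KerS U Δ a 0 m = WS K Δ m := by
  ext g
  rw [mem_KerS]
  exact ⟨fun h => h.1, fun h => ⟨h, by simp⟩⟩

theorem finrank_KerS_deg_zero (a : ℕ → V → K) (i : ℕ) : KerS U Δ a i 0 = WS K Δ 0 := by
  ext g
  rw [mem_KerS]
  exact ⟨fun h => h.1, fun h => ⟨h, fun j _ => th_WS_zero _ _ h⟩⟩

theorem finrank_KerS_succ (hΔ : IsCx Δ) (hU : ∀ τ ∈ Δ, τ ⊆ U) (a : ℕ → V → K) (i m : ℕ)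
    (hreg : RegAt (fun i => th U (a i)) (WS K Δ) i m) :
    Module.finrank K (KerS U Δ a i (m + 1)) =
      Module.finrank K (KerS U Δ a (i + 1) (m + 1)) + Module.finrank K (KerS U Δ a i m) := by
  have hfin := finite_KerS hU a i (m + 1)
  have hmaps : ∀ g ∈ KerS U Δ a i (m + 1), th U (a i) g ∈ KerS U Δ a i m := by
    intro g hg
    refine ⟨th_mem_WS hΔ _ _ hg.1, ?_⟩
    intro j hj
    rw [th_comm, hg.2 j hj, map_zero]
  let f : KerS U Δ a i (m + 1) →ₗ[K] KerS U Δ a i m := (th U (a i)).restrict hmaps
  have h1 := LinearMap.finrank_range_add_finrank_ker f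
  have h2 : LinearMap.range f = ⊤ := by
    rw [LinearMap.range_eq_top]
    rintro ⟨g, hg⟩
    obtain ⟨g', hg', hg'0, hg'i⟩ := hreg g hg.1 hg.2
    exact ⟨⟨g', hg', hg'0⟩, Subtype.ext hg'i⟩
  rw [h2, finrank_top] at h1
  have h3 : Module.finrank K (LinearMap.ker f) = Module.finrank K (KerS U Δ a (i + 1) (m + 1)) := by
    refine LinearEquiv.finrank_eq ?_
    refine LinearEquiv.ofBijective
      (⟨⟨fun g => ⟨g.1.1, ⟨g.1.2.1, ?_⟩⟩, fun _ _ => rfl⟩, fun _ _ => rfl⟩ :
        LinearMap.ker f →ₗ[K] KerS U Δ a (i + 1) (m + 1)) ⟨?_, ?_⟩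
    · intro j hj
      rcases Nat.lt_succ_iff_lt_or_eq.mp hj with h | rfl
      · exact g.1.2.2 j h
      · have := g.2
        rw [LinearMap.mem_ker] at this
        exact congrArg Subtype.val this
    · intro g g' h
      have := congrArg Subtype.val h
      exact Subtype.ext (Subtype.ext this)
    · rintro ⟨g, hg⟩
      refine ⟨⟨⟨g, hg.1, fun j hj => hg.2 j (by omega)⟩, ?_⟩, rfl⟩
      rw [LinearMap.mem_ker]
      apply Subtype.ext
      exact hg.2 i (by omega)
  omega

theorem finrank_KerS_eq (hΔ : IsCx Δ) (hU : ∀ τ ∈ Δ, τ ⊆ U) (a : ℕ → V → K) (d : ℕ)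
    (hreg : ∀ i < d, ∀ m, RegAt (fun i => th U (a i)) (WS K Δ) i m) (i : ℕ) (hi : i ≤ d) :
    (fun m => (Module.finrank K (KerS U Δ a i m) : ℤ)) =
      nab^[i] (fun m => (((msets U m).filter (fun M => M.toFinset ∈ Δ)).card : ℤ)) := by
  induction i with
  | zero =>
    funext m
    rw [finrank_KerS_zero, (finrank_WS hU m).2]
    rfl
  | succ i ih =>
    have ih := ih (by omega)
    rw [Function.iterate_succ_apply', ← ih]
    funext m
    rcases m with _ | m
    · simp only [nab]
      rw [finrank_KerS_deg_zero, finrank_KerS_deg_zero]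
    · simp only [nab]
      rw [finrank_KerS_succ hΔ hU a i m (hreg i (by omega) m)]
      push_cast
      ring

theorem finrank_stress (hΔ : IsCx Δ) (hU : ∀ τ ∈ Δ, τ ⊆ U) (a : ℕ → V → K) (d : ℕ)
    (hcard : ∀ τ ∈ Δ, τ.card ≤ d)
    (hreg : ∀ i < d, ∀ m, RegAt (fun i => th U (a i)) (WS K Δ) i m) (m : ℕ) (hm : m ≤ d) :
    (Module.finrank K (KerS U Δ a d m) : ℤ) = hvec d (fnum Δ) m := by
  have h1 := congrFun (finrank_KerS_eq hΔ hU a d hreg d le_rfl) m
  beta_reduce at h1
  rw [h1, ← hvec_eq_nab (fnum Δ) d d le_rfl m hm]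
  have h2 : (fun m => (((msets U m).filter (fun M => M.toFinset ∈ Δ)).card : ℤ)) =
      fun m => ∑ k ∈ Finset.range (d + 1), fnum Δ k * stars k m :=
    funext fun m => card_face_monomials hU hcard m
  rw [h2]

end Rank

end Pool.Agent.MPfdde87
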