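import Pool.Agent.Lib.MP_fdde87_co.Words
import Pool.Agent.Lib.MP_fdde87_co.Dim

/-!
The ab-index of a simplicial complex in terms of its `h`-vector.
-/

namespace Pool.Agent.MPfdde87

/-- the ab-polynomial with given flag numbers, by recursion on the rank. -/
noncomputable def PsiR : ℕ → (Finset ℕ → ℤ) → NC
  | 0, f => ((f ∅ : ℤ) : NC)
  | d + 1, f => PsiR d f * (va - vb) + PsiR d (fun S => f (insert d S)) * vb

theorem uS_succ (d : ℕ) (S : Finset ℕ) :
    uS (d + 1) S = uS d S * (if d ∈ S then vb else va) := by
  simp [uS, List.range_succ]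

theorem uS_congr (d : ℕ) (S T : Finset ℕ) (h : ∀ i < d, (i ∈ S ↔ i ∈ T)) : uS d S = uS d T := by
  induction d with
  | zero => simp [uS]
  | succ d ih =>
    rw [uS_succ, uS_succ, ih (fun i hi => h i (by omega))]
    have := h d (by omega)
    simp only [this]

/-- alternating sums. -/
def altS (f : Finset ℕ → ℤ) (S : Finset ℕ) : ℤ :=
  ∑ T ∈ S.powerset, (-1 : ℤ) ^ (S \ T).card * f T

theorem altS_insert (f : Finset ℕ → ℤ) (S : Finset ℕ) (d : ℕ) (hd : d ∉ S) :
    altS f (insert d S) = altS (fun S => f (insert d S)) S - altS f S := by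
  unfold altS
  rw [Finset.sum_powerset_insert hd, sub_eq_add_neg, add_comm, ← Finset.sum_neg_distrib]
  congr 1
  · refine Finset.sum_congr rfl fun T hT => ?_
    rw [Finset.mem_powerset] at hT
    rw [Finset.insert_sdiff_insert, Finset.sdiff_insert_of_notMem hd]
  · refine Finset.sum_congr rfl fun T hT => ?_
    rw [Finset.mem_powerset] at hT
    have hdT : d ∉ T := fun h => hd (hT h)
    rw [Finset.insert_sdiff_of_notMem _ hdT, Finset.card_insert_of_notMem (by
      rw [Finset.mem_sdiff]
      exact fun h => hd h.1), pow_succ]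
    ring

theorem PsiR_eq (d : ℕ) : ∀ f : Finset ℕ → ℤ,
    ∑ S ∈ (Finset.range d).powerset, altS f S • uS d S = PsiR d f := by
  induction d with
  | zero =>
    intro f
    simp [altS, uS, PsiR]
  | succ d ih =>
    intro f
    rw [Finset.range_add_one, Finset.sum_powerset_insert Finset.notMem_range_self]
    have h1 : ∀ S ∈ (Finset.range d).powerset, altS f S • uS (d + 1) S =
        (altS f S • uS d S) * va := by
      intro S hS
      rw [Finset.mem_powerset] at hS
      have hdS : d ∉ S := fun h => Finset.notMem_range_self (hS h)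
      rw [uS_succ, if_neg hdS, smul_mul_assoc]
    have h2 : ∀ S ∈ (Finset.range d).powerset,
        altS f (insert d S) • uS (d + 1) (insert d S) =
        (altS (fun S => f (insert d S)) S • uS d S) * vb - (altS f S • uS d S) * vb := by
      intro S hS
      rw [Finset.mem_powerset] at hS
      have hdS : d ∉ S := fun h => Finset.notMem_range_self (hS h)
      rw [uS_succ, if_pos (Finset.mem_insert_self _ _), altS_insert f S d hdS,
        uS_congr d (insert d S) S (by
          intro i hi
          rw [Finset.mem_insert]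
          constructor
          · rintro (h | h)
            · omega
            · exact h
          · exact Or.inr), sub_smul, smul_mul_assoc, smul_mul_assoc]
    rw [Finset.sum_congr rfl h1, Finset.sum_congr rfl h2, ← Finset.sum_mul,
      Finset.sum_sub_distrib, ← Finset.sum_mul, ← Finset.sum_mul, ih, ih, PsiR, mul_sub]
    abel

theorem PsiR_congr (d : ℕ) : ∀ f g : Finset ℕ → ℤ, (∀ S ⊆ Finset.range d, f S = g S) →
    PsiR d f = PsiR d g := by
  induction d with
  | zero =>
    intro f g h
    rw [PsiR, PsiR, h ∅ (Finset.empty_subset _)]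
  | succ d ih =>
    intro f g h
    rw [PsiR, PsiR, ih f g, ih (fun S => f (insert d S)) (fun S => g (insert d S))]
    · intro S hS
      apply h
      rw [Finset.range_add_one]
      exact Finset.insert_subset_insert _ hS
    · intro S hS
      apply h
      rw [Finset.range_add_one]
      exact hS.trans (Finset.subset_insert _ _)

theorem PsiR_sum {ι : Type*} (s : Finset ι) (d : ℕ) : ∀ f : ι → Finset ℕ → ℤ,
    PsiR d (fun S => ∑ i ∈ s, f i S) = ∑ i ∈ s, PsiR d (f i) := by
  induction d with
  | zero =>
    intro f
    simp only [PsiR]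
    rw [Int.cast_sum]
  | succ d ih =>
    intro f
    simp only [PsiR]
    rw [ih, ih (fun i S => f i (insert d S)), Finset.sum_mul, Finset.sum_mul,
      ← Finset.sum_add_distrib]

section Flags

variable {V : Type*} [DecidableEq V]

theorem mem_chains {Δ : Finset (Finset V)} {S : Finset ℕ} {C : Finset (Finset V)} :
    C ∈ chains Δ S ↔ (∀ F ∈ C, F ≠ ∅ ∧ F ∈ Δ) ∧ (∀ F ∈ C, ∀ G ∈ C, F ⊆ G ∨ G ⊆ F) ∧
      C.image (fun F => F.card - 1) = S := by
  unfold chains
  rw [Finset.mem_filter, Finset.mem_powerset]
  constructor
  · rintro ⟨h1, h2⟩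
    refine ⟨fun F hF => ?_, h2⟩
    have := h1 hF
    rw [Finset.mem_erase] at this
    exact this
  · rintro ⟨h1, h2⟩
    refine ⟨fun F hF => ?_, h2⟩
    rw [Finset.mem_erase]
    exact h1 F hF

theorem flagF_empty (Δ : Finset (Finset V)) : flagF Δ ∅ = 1 := by
  have : chains Δ ∅ = {∅} := by
    ext C
    rw [mem_chains, Finset.mem_singleton]
    constructor
    · rintro ⟨_, _, h⟩
      rwa [Finset.image_eq_empty] at h
    · rintro rfl
      simp
  rw [flagF, this]
  simp

theorem flagF_insert {Δ : Finset (Finset V)} (hΔ : ∀ s ∈ Δ, ∀ t, t ⊆ s → t ∈ Δ) (d : ℕ)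
    (S : Finset ℕ) (hS : S ⊆ Finset.range d) :
    flagF Δ (insert d S) = ∑ F ∈ Δ.filter (fun F => F.card = d + 1), flagF F.ssubsets S := by
  have hdS : ∀ s ∈ S, s < d := fun s hs => Finset.mem_range.mp (hS hs)
  have h1 : chains Δ (insert d S) = (Δ.filter (fun F => F.card = d + 1)).biUnion
      (fun F => (chains F.ssubsets S).image (fun C => insert F C)) := by
    ext C
    simp only [Finset.mem_biUnion, Finset.mem_filter, Finset.mem_image]
    constructor
    · intro hC
      rw [mem_chains] at hC
      obtain ⟨hC1, hC2, hC3⟩ := hC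
      have hd : d ∈ C.image (fun F => F.card - 1) := by
        rw [hC3]
        exact Finset.mem_insert_self _ _
      obtain ⟨F, hF, hFd⟩ := Finset.mem_image.mp hd
      have hFne := (hC1 F hF).1
      have hFpos : 0 < F.card := Finset.card_pos.mpr (Finset.nonempty_iff_ne_empty.mpr hFne)
      have hFcard : F.card = d + 1 := by
        omega
      have hlt : ∀ G ∈ C.erase F, G ⊂ F := by
        intro G hG
        rw [Finset.mem_erase] at hG
        have hGcard : G.card - 1 ∈ insert d S := by
          rw [← hC3]
          exact Finset.mem_image_of_mem _ hG.2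
        rw [Finset.mem_insert] at hGcard
        have hGle : G.card ≤ F.card := by
          rcases hGcard with h | h
          · omega
          · have := hdS _ h
            omega
        rcases hC2 F hF G hG.2 with h | h
        · exact absurd (Finset.eq_of_subset_of_card_le h hGle).symm hG.1
        · exact Finset.ssubset_iff_subset_ne.mpr ⟨h, hG.1⟩
      refine ⟨F, ⟨(hC1 F hF).2, hFcard⟩, C.erase F, ?_, Finset.insert_erase hF⟩
      rw [mem_chains]
      refine ⟨?_, ?_, ?_⟩
      · intro G hG
        refine ⟨(hC1 G (Finset.mem_of_mem_erase hG)).1, ?_⟩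
        rw [Finset.mem_ssubsets]
        exact hlt G hG
      · intro G hG H hH
        exact hC2 G (Finset.mem_of_mem_erase hG) H (Finset.mem_of_mem_erase hH)
      · ext s
        rw [Finset.mem_image]
        constructor
        · rintro ⟨G, hG, hGs⟩
          have h2 := hlt G hG
          have h3 := Finset.card_lt_card h2
          have h4 := (hC1 G (Finset.mem_of_mem_erase hG)).1
          have h5 : 0 < G.card := Finset.card_pos.mpr (Finset.nonempty_iff_ne_empty.mpr h4)
          have h6 : s ∈ insert d S := by
            rw [← hC3, ← hGs]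
            exact Finset.mem_image_of_mem _ (Finset.mem_of_mem_erase hG)
          rw [Finset.mem_insert] at h6
          rcases h6 with h6 | h6
          · omega
          · exact h6
        · intro hs
          have h6 : s ∈ C.image (fun F => F.card - 1) := by
            rw [hC3]
            exact Finset.mem_insert_of_mem hs
          obtain ⟨G, hG, hGs⟩ := Finset.mem_image.mp h6
          refine ⟨G, ?_, hGs⟩
          rw [Finset.mem_erase]
          refine ⟨?_, hG⟩
          rintro rfl
          have := hdS s hs
          omega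
    · rintro ⟨F, ⟨hF, hFcard⟩, C', hC', rfl⟩
      rw [mem_chains] at hC' ⊢
      obtain ⟨h1, h2, h3⟩ := hC'
      refine ⟨?_, ?_, ?_⟩
      · intro G hG
        rw [Finset.mem_insert] at hG
        rcases hG with rfl | hG
        · refine ⟨?_, hF⟩
          rintro rfl
          simp at hFcard
        · have h4 := h1 G hG
          rw [Finset.mem_ssubsets] at h4
          exact ⟨h4.1, hΔ F hF G h4.2.subset⟩
      · intro G hG H hH
        rw [Finset.mem_insert] at hG hH
        rcases hG with rfl | hG
        · rcases hH with rfl | hH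
          · exact Or.inl (Finset.Subset.refl _)
          · have h4 := (h1 H hH).2
            rw [Finset.mem_ssubsets] at h4
            exact Or.inr h4.subset
        · rcases hH with rfl | hH
          · have h4 := (h1 G hG).2
            rw [Finset.mem_ssubsets] at h4
            exact Or.inl h4.subset
          · exact h2 G hG H hH
      · rw [Finset.image_insert, h3, hFcard]
        rfl
  rw [flagF, h1, Finset.card_biUnion]
  · rw [Nat.cast_sum]
    refine Finset.sum_congr rfl fun F hF => ?_
    rw [flagF, Finset.card_image_of_injOn]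
    intro C hC C' hC' h
    rw [Finset.mem_coe, mem_chains] at hC hC'
    have hFC : F ∉ C := by
      intro h
      have := (hC.1 F h).2
      rw [Finset.mem_ssubsets] at this
      exact this.ne rfl
    have hFC' : F ∉ C' := by
      intro h
      have := (hC'.1 F h).2
      rw [Finset.mem_ssubsets] at this
      exact this.ne rfl
    simp only at h
    rw [← Finset.erase_insert hFC, h, Finset.erase_insert hFC']
  · intro F hF F' hF' hne
    rw [Function.onFun, Finset.disjoint_left]
    intro C hC hC'
    rw [Finset.mem_image] at hC hC'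
    obtain ⟨C1, hC1, rfl⟩ := hC
    obtain ⟨C2, hC2, h⟩ := hC'
    have h2 : F' ∈ insert F C1 := by
      rw [← h]
      exact Finset.mem_insert_self _ _
    rw [Finset.mem_insert] at h2
    rcases h2 with h2 | h2
    · exact hne h2.symm
    · rw [mem_chains] at hC1
      have h3 := (hC1.1 F' h2).2
      rw [Finset.mem_ssubsets] at h3
      have h4 := Finset.card_lt_card h3
      rw [Finset.mem_coe, Finset.mem_filter] at hF hF'
      omega

end Flags

theorem hvec_congr (d : ℕ) (x y : ℕ → ℤ) (h : ∀ k ≤ d, x k = y k) : ∀ i, hvec d x i = hvec d y i := by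
  induction d with
  | zero =>
    intro i
    simp only [hvec]
    rw [h 0 le_rfl]
  | succ d ih =>
    intro i
    simp only [hvec]
    rw [ih (fun k hk => h k (by omega)), ih (fun k hk => h k (by omega)),
      ih (fun k hk => h k (by omega)), ih (fun k hk => h k (by omega)), h (d + 1) le_rfl]

theorem hvec_choose (d : ℕ) : ∀ k i, i ≤ d →
    hvec d (fun j => ((d + 1 + k).choose j : ℤ)) i = ((k + i).choose i : ℤ) := by
  induction d with
  | zero =>
    intro k i hi
    have : i = 0 := by omega
    subst this
    simp [hvec]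
  | succ d ih =>
    intro k i hi
    have h1 : ∀ i ≤ d, hvec d (fun j => ((d + 1 + 1 + k).choose j : ℤ)) i =
        ((k + 1 + i).choose i : ℤ) := by
      intro i hi
      rw [← ih (k + 1) i hi]
      apply hvec_congr
      intro j _
      have : d + 1 + 1 + k = d + 1 + (k + 1) := by omega
      rw [this]
    simp only [hvec]
    rcases Nat.lt_or_ge d i with h | h
    · have : i = d + 1 := by omega
      subst this
      rw [if_neg (by omega), if_pos rfl, h1 d le_rfl]
      have h2 : d + 1 + 1 + k = (k + 1 + d) + 1 := by omega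
      have h3 : k + (d + 1) = k + 1 + d := by omega
      rw [h2, h3, Nat.choose_succ_succ]
      push_cast
      ring
    · rw [if_pos h]
      rcases Nat.eq_zero_or_pos i with h0 | h0
      · subst h0
        rw [if_pos rfl, h1 0 (by omega)]
        simp
      · rw [if_neg (by omega), h1 i h, h1 (i - 1) (by omega)]
        obtain ⟨i', rfl⟩ : ∃ i', i = i' + 1 := ⟨i - 1, by omega⟩
        have h2 : k + 1 + (i' + 1) = (k + 1 + i') + 1 := by omega
        have h3 : k + (i' + 1) = k + 1 + i' := by omega
        have h4 : i' + 1 - 1 = i' := by omega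
        rw [h2, h3, h4, Nat.choose_succ_succ]
        push_cast
        ring

theorem hvec_sum_succ (d : ℕ) (x : ℕ → ℤ) (B : ℕ → NC) :
    ∑ i ∈ Finset.range (d + 2), hvec (d + 1) x i • B i =
      ∑ i ∈ Finset.range (d + 1), hvec d x i • (B i - B (i + 1)) + x (d + 1) • B (d + 1) := by
  rw [Finset.sum_range_succ]
  have h1 : hvec (d + 1) x (d + 1) = x (d + 1) - hvec d x d := by
    simp only [hvec]
    rw [if_neg (by omega), if_pos trivial]
  have h2 : ∑ i ∈ Finset.range (d + 1), hvec (d + 1) x i • B i =
      hvec d x 0 • B 0 + ∑ i ∈ Finset.range d, (hvec d x (i + 1) - hvec d x i) • B (i + 1) := by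
    rw [Finset.sum_range_succ', add_comm]
    congr 1
    refine Finset.sum_congr rfl fun i hi => ?_
    rw [Finset.mem_range] at hi
    simp only [hvec]
    rw [if_pos (by omega), if_neg (by omega)]
    rfl
  have h3 : ∑ i ∈ Finset.range (d + 1), hvec d x i • (B i - B (i + 1)) =
      (hvec d x 0 • B 0 + ∑ i ∈ Finset.range d, hvec d x (i + 1) • B (i + 1)) -
        (∑ i ∈ Finset.range d, hvec d x i • B (i + 1) + hvec d x d • B (d + 1)) := by
    simp only [smul_sub]
    rw [Finset.sum_sub_distrib]
    congr 1
    · rw [Finset.sum_range_succ', add_comm]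
    · rw [Finset.sum_range_succ]
  rw [h1, h2, h3]
  simp only [sub_smul]
  rw [Finset.sum_sub_distrib]
  abel

theorem hvec_Aab_succ (d : ℕ) (x : ℕ → ℤ) :
    ∑ i ∈ Finset.range (d + 2), hvec (d + 1) x i • Aab va vb (d + 1) i =
      (∑ i ∈ Finset.range (d + 1), hvec d x i • Aab va vb d i) * (va - vb) +
        x (d + 1) • (pre (Aab va vb d) (d + 1) * vb) := by
  rw [hvec_sum_succ]
  congr 1
  · rw [Finset.sum_mul]
    refine Finset.sum_congr rfl fun i _ => ?_
    rw [smul_mul_assoc]
    congr 1
    simp only [Aab]
    rw [pre_succ _ i]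
    noncomm_ring
  · congr 1
    simp only [Aab]
    rw [sub_self, zero_mul, add_zero]

section Flags

variable {V : Type*} [DecidableEq V]

theorem fnum_ssubsets (F : Finset V) (d k : ℕ) (hF : F.card = d + 1) (hk : k ≤ d) :
    fnum F.ssubsets k = ((d + 1).choose k : ℤ) := by
  rw [fnum, ← hF, ← Finset.card_powersetCard]
  congr 2
  ext G
  rw [Finset.mem_filter, Finset.mem_ssubsets, Finset.mem_powersetCard]
  constructor
  · rintro ⟨h1, h2⟩
    exact ⟨h1.subset, h2⟩
  · rintro ⟨h1, h2⟩
    refine ⟨Finset.ssubset_iff_subset_ne.mpr ⟨h1, ?_⟩, h2⟩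
    rintro rfl
    omega

/-- the ab-index in terms of the `h`-vector. -/
theorem PsiR_flagF (d : ℕ) : ∀ Δ : Finset (Finset V), ∅ ∈ Δ → (∀ s ∈ Δ, ∀ t, t ⊆ s → t ∈ Δ) →
    PsiR d (flagF Δ) = ∑ i ∈ Finset.range (d + 1), hvec d (fnum Δ) i • Aab va vb d i := by
  induction d with
  | zero =>
    intro Δ h0 hΔ
    rw [PsiR, flagF_empty, Finset.sum_range_one]
    have h1 : fnum Δ 0 = 1 := by
      rw [fnum]
      have : Δ.filter (fun F => F.card = 0) = {∅} := by
        ext F
        rw [Finset.mem_filter, Finset.card_eq_zero, Finset.mem_singleton]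
        constructor
        · exact fun h => h.2
        · rintro rfl
          exact ⟨h0, rfl⟩
      rw [this]
      simp
    simp [hvec, Aab, h1]
  | succ d ih =>
    intro Δ h0 hΔ
    rw [PsiR, hvec_Aab_succ, ih Δ h0 hΔ]
    congr 1
    have h1 : PsiR d (fun S => flagF Δ (insert d S)) =
        ∑ F ∈ Δ.filter (fun F => F.card = d + 1), PsiR d (flagF F.ssubsets) := by
      rw [← PsiR_sum]
      apply PsiR_congr
      intro S hS
      exact flagF_insert hΔ d S hS
    have h2 : ∀ F ∈ Δ.filter (fun F => F.card = d + 1), PsiR d (flagF F.ssubsets) =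
        pre (Aab va vb d) (d + 1) := by
      intro F hF
      rw [Finset.mem_filter] at hF
      rw [ih F.ssubsets (by
        rw [Finset.mem_ssubsets]
        refine Finset.ssubset_iff_subset_ne.mpr ⟨Finset.empty_subset _, ?_⟩
        rintro rfl
        simp at hF) (by
        intro s hs t ht
        rw [Finset.mem_ssubsets] at hs ⊢
        exact lt_of_le_of_lt ht hs)]
      rw [pre]
      refine Finset.sum_congr rfl fun i hi => ?_
      rw [Finset.mem_range] at hi
      have h3 : hvec d (fnum F.ssubsets) i = 1 := by
        rw [hvec_congr d (fnum F.ssubsets) (fun j => ((d + 1 + 0).choose j : ℤ)) (by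
          intro k hk
          exact fnum_ssubsets F d k hF.2 hk), hvec_choose d 0 i (by omega)]
        simp
      rw [h3, one_smul]
    rw [h1, Finset.sum_congr rfl h2, Finset.sum_const, fnum, natCast_zsmul, smul_mul_assoc]

theorem abIndex_eq (d : ℕ) (Δ : Finset (Finset V)) (h0 : ∅ ∈ Δ)
    (hΔ : ∀ s ∈ Δ, ∀ t, t ⊆ s → t ∈ Δ) :
    abIndex d Δ = ∑ i ∈ Finset.range (d + 1), hvec d (fnum Δ) i • Aab va vb d i := by
  rw [← PsiR_flagF d Δ h0 hΔ, ← PsiR_eq]
  rfl

end Flags

end Pool.Agent.MPfdde87
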