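import Pool.Agent.Lib.MP_fdde87_co.Reg

/-!
The cone lemma: regularity for a cone is inherited from the base.
-/

namespace Pool.Agent.MPfdde87

variable {K V : Type*} [Field K] [DecidableEq V]

/-- coordinates after elimination of the vertex `v`. -/
def proj (a : ℕ → V → K) (v : V) : ℕ → V → K :=
  fun i w => a (i + 1) w - a (i + 1) v / a 0 v * a 0 w

/-- the inductive general position condition. -/
def Good : ℕ → Finset V → (ℕ → V → K) → Prop
  | 0, _, _ => True
  | d + 1, U, a => ∀ v ∈ U, a 0 v ≠ 0 ∧ Good d (U.erase v) (proj a v)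

/-- assemble a function on multisets from its slices in the direction `v`. -/
def sl (v : V) (H : ℕ → Multiset V → K) : Multiset V → K :=
  fun M => H (M.count v) (M.filter (· ≠ v))

/-- slices of a function on multisets in the direction `v`. -/
def gs (v : V) (g : Multiset V → K) (k : ℕ) : Multiset V → K :=
  fun M' => if v ∈ M' then 0 else g (M' + Multiset.replicate k v)

theorem filter_add_replicate (v : V) (M : Multiset V) :
    M.filter (· ≠ v) + Multiset.replicate (M.count v) v = M := by
  rw [← Multiset.filter_eq']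
  have := Multiset.filter_add_not (fun x => x = v) M
  rw [add_comm] at this
  exact this

theorem sl_gs (v : V) (g : Multiset V → K) : sl v (gs v g) = g := by
  funext M
  unfold sl gs
  rw [if_neg (by simp), filter_add_replicate]

theorem th_sl {U : Finset V} {v : V} (hv : v ∈ U) (α : V → K) (H : ℕ → Multiset V → K)
    (M : Multiset V) :
    th U α (sl v H) M = th (U.erase v) α (H (M.count v)) (M.filter (· ≠ v)) +
      α v * H (M.count v + 1) (M.filter (· ≠ v)) := by
  rw [th_apply, th_apply, ← Finset.add_sum_erase _ _ hv, add_comm]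
  congr 1
  · refine Finset.sum_congr rfl fun w hw => ?_
    have hwv : w ≠ v := Finset.ne_of_mem_erase hw
    unfold sl
    rw [Multiset.count_cons_of_ne hwv.symm, Multiset.filter_cons_of_pos (p := fun x => x ≠ v) _ hwv]
  · unfold sl
    rw [Multiset.count_cons_self, Multiset.filter_cons_of_neg (p := fun x => x ≠ v) _ (by simp)]

theorem count_add_replicate {v : V} {M' : Multiset V} (h : v ∉ M') (k : ℕ) :
    (M' + Multiset.replicate k v).count v = k := by
  rw [Multiset.count_add, Multiset.count_eq_zero_of_notMem h, Multiset.count_replicate_self,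
    zero_add]

theorem filter_add_replicate' {v : V} {M' : Multiset V} (h : v ∉ M') (k : ℕ) :
    (M' + Multiset.replicate k v).filter (· ≠ v) = M' := by
  rw [Multiset.filter_add]
  have h1 : (Multiset.replicate k v).filter (· ≠ v) = 0 := by
    rw [Multiset.filter_eq_nil]
    intro a ha
    simp [Multiset.eq_of_mem_replicate ha]
  rw [h1, add_zero, Multiset.filter_eq_self]
  intro a ha hav
  exact h (hav ▸ ha)

theorem sl_apply_of_notMem {v : V} (H : ℕ → Multiset V → K) {M' : Multiset V} (h : v ∉ M')
    (k : ℕ) : sl v H (M' + Multiset.replicate k v) = H k M' := by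
  unfold sl
  rw [count_add_replicate h, filter_add_replicate' h]

section

variable {U : Finset V} {v : V} {Γ Λ : Finset (Finset V)}

/-- support condition for slices: degree `m` in total. -/
def SliceSupp (v : V) (Λ : Finset (Finset V)) (m : ℕ) (H : ℕ → Multiset V → K) : Prop :=
  ∀ k M', H k M' ≠ 0 → M'.toFinset ∈ Λ ∧ Multiset.card M' + k = m

theorem sl_mem_WS (hΓ : IsCx Γ) (hcone : ∀ τ ∈ Γ, insert v τ ∈ Γ)
    (hΛ : ∀ τ, τ ∈ Λ ↔ τ ∈ Γ ∧ v ∉ τ) {m : ℕ} {H : ℕ → Multiset V → K}
    (hH : SliceSupp v Λ m H) : sl v H ∈ WS K Γ m := by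
  intro M hM
  obtain ⟨h1, h2⟩ := hH _ _ hM
  rw [hΛ] at h1
  constructor
  · refine hΓ.down _ (hcone _ h1.1) _ ?_
    intro x hx
    rw [Multiset.mem_toFinset] at hx
    by_cases hxv : x = v
    · simp [hxv]
    · rw [Finset.mem_insert]
      right
      rw [Multiset.mem_toFinset, Multiset.mem_filter]
      exact ⟨hx, hxv⟩
  · conv_lhs => rw [← filter_add_replicate v M]
    rw [Multiset.card_add, Multiset.card_replicate]
    exact h2

theorem sliceSupp_gs (hΓ : IsCx Γ) (hΛ : ∀ τ, τ ∈ Λ ↔ τ ∈ Γ ∧ v ∉ τ) {m : ℕ}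
    {g : Multiset V → K} (hg : g ∈ WS K Γ m) : SliceSupp v Λ m (gs v g) := by
  intro k M' h
  unfold gs at h
  split_ifs at h with hv
  · exact absurd rfl h
  · obtain ⟨h1, h2⟩ := hg _ h
    rw [Multiset.card_add, Multiset.card_replicate] at h2
    refine ⟨?_, h2⟩
    rw [hΛ]
    refine ⟨hΓ.down _ h1 _ ?_, ?_⟩
    · rw [Multiset.toFinset_add]
      exact Finset.subset_union_left
    · rwa [Multiset.mem_toFinset]

theorem th_slice_supp (hΓ : IsCx Γ) (hΛ : ∀ τ, τ ∈ Λ ↔ τ ∈ Γ ∧ v ∉ τ) {n : ℕ}
    {h : Multiset V → K} (U' : Finset V) (α : V → K)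
    (hh : ∀ M', h M' ≠ 0 → M'.toFinset ∈ Λ ∧ Multiset.card M' = n) (M' : Multiset V)
    (hne : th U' α h M' ≠ 0) : M'.toFinset ∈ Λ ∧ Multiset.card M' + 1 = n := by
  rw [th_apply] at hne
  obtain ⟨w, hw, hne⟩ := Finset.exists_ne_zero_of_sum_ne_zero hne
  obtain ⟨h1, h2⟩ := hh _ (right_ne_zero_of_mul hne)
  rw [Multiset.card_cons] at h2
  refine ⟨?_, h2⟩
  rw [hΛ] at h1 ⊢
  rw [Multiset.toFinset_cons] at h1
  refine ⟨hΓ.down _ h1.1 _ (Finset.subset_insert _ _), fun hv => h1.2 (Finset.mem_insert_of_mem hv)⟩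

/-- The recursion used to invert the first form. -/
def auxS (U' : Finset V) (α : V → K) (c : K) (G : ℕ → Multiset V → K) : ℕ → Multiset V → K
  | 0 => 0
  | k + 1 => c⁻¹ • (G k - th U' α (auxS U' α c G k))

theorem auxS_supp (hΓ : IsCx Γ) (hΛ : ∀ τ, τ ∈ Λ ↔ τ ∈ Γ ∧ v ∉ τ) {m : ℕ}
    (U' : Finset V) (α : V → K) (c : K) {G : ℕ → Multiset V → K} (hG : SliceSupp v Λ m G) :
    SliceSupp v Λ (m + 1) (auxS U' α c G) := by
  intro k
  induction k with
  | zero =>
    intro M' h
    simp [auxS] at h
  | succ k ih =>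
    intro M' h
    simp only [auxS, Pi.smul_apply, Pi.sub_apply, smul_eq_mul] at h
    have h' := right_ne_zero_of_mul h
    by_cases hGk : G k M' = 0
    · have h2 : th U' α (auxS U' α c G k) M' ≠ 0 := by
        intro h3
        apply h'
        rw [hGk, h3, sub_zero]
      obtain ⟨w, hw, hne⟩ := Finset.exists_ne_zero_of_sum_ne_zero (by rwa [th_apply] at h2)
      obtain ⟨h4, h5⟩ := ih _ (right_ne_zero_of_mul hne)
      rw [Multiset.card_cons] at h5
      rw [hΛ, Multiset.toFinset_cons] at h4
      refine ⟨?_, by omega⟩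
      rw [hΛ]
      exact ⟨hΓ.down _ h4.1 _ (Finset.subset_insert _ _),
        fun hv => h4.2 (Finset.mem_insert_of_mem hv)⟩
    · obtain ⟨h4, h5⟩ := hG _ _ hGk
      exact ⟨h4, by omega⟩

theorem cone_reg (hΓ : IsCx Γ) (hvU : v ∈ U) (a : ℕ → V → K)
    (hcone : ∀ τ ∈ Γ, insert v τ ∈ Γ)
    (hΛ : ∀ τ, τ ∈ Λ ↔ τ ∈ Γ ∧ v ∉ τ) (h0 : a 0 v ≠ 0) (d : ℕ)
    (IH : ∀ i < d, ∀ m, RegAt (fun i => th (U.erase v) (proj a v i)) (WS K Λ) i m) :
    ∀ i < d + 1, ∀ m, RegAt (fun i => th U (a i)) (WS K Γ) i m := by
  intro i hi m g hg hg0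
  cases i with
  | zero =>
    refine ⟨sl v (auxS (U.erase v) (a 0) (a 0 v) (gs v g)), ?_, by simp, ?_⟩
    · exact sl_mem_WS hΓ hcone hΛ (auxS_supp hΓ hΛ _ _ _ (sliceSupp_gs hΓ hΛ hg))
    · funext M
      rw [th_sl hvU]
      simp only [auxS, Pi.smul_apply, Pi.sub_apply, smul_eq_mul]
      rw [← mul_assoc, mul_inv_cancel₀ h0, one_mul]
      have : sl v (gs v g) M = g M := by rw [sl_gs]
      unfold sl at this
      rw [← this]
      ring
  | succ i' =>
    set N : (Multiset V → K) →ₗ[K] (Multiset V → K) := (-(a 0 v)⁻¹) • th (U.erase v) (a 0) with hN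
    have hNapp : ∀ x, N x = (-(a 0 v)⁻¹) • th (U.erase v) (a 0) x := fun x => rfl
    -- vanishing of slices at multisets containing v
    have hgsv : ∀ k M', v ∈ M' → gs v g k M' = 0 := by
      intro k M' h
      simp [gs, h]
    have hthv : ∀ (α : V → K) (k : ℕ) (M' : Multiset V), v ∈ M' →
        th (U.erase v) α (gs v g k) M' = 0 := by
      intro α k M' h
      rw [th_apply]
      apply Finset.sum_eq_zero
      intro w _
      rw [hgsv k _ (Multiset.mem_cons_of_mem h), mul_zero]
    have hslice : ∀ (α : V → K) (k : ℕ) (M' : Multiset V), v ∉ M' → th U α g = 0 →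
        th (U.erase v) α (gs v g k) M' + α v * gs v g (k + 1) M' = 0 := by
      intro α k M' hM' hz
      have h1 : th U α (sl v (gs v g)) (M' + Multiset.replicate k v) = 0 := by
        rw [sl_gs, hz]; rfl
      rw [th_sl hvU, count_add_replicate hM', filter_add_replicate' hM'] at h1
      exact h1
    have hrec : ∀ k, gs v g (k + 1) = N (gs v g k) := by
      intro k
      funext M'
      rw [hNapp, Pi.smul_apply, smul_eq_mul]
      by_cases hM' : v ∈ M'
      · rw [hgsv _ _ hM', hthv _ _ _ hM', mul_zero]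
      · have := hslice (a 0) k M' hM' (hg0 0 (by omega))
        have h2 : th (U.erase v) (a 0) (gs v g k) M' = - (a 0 v * gs v g (k + 1) M') := by
          linear_combination this
        rw [h2]
        field_simp
    have hpow : ∀ k, gs v g k = (N ^ k) (gs v g 0) := by
      intro k
      induction k with
      | zero => simp
      | succ k ih =>
        rw [hrec, ih, pow_succ', Module.End.mul_apply]
    have hproj : ∀ (j : ℕ) (x : Multiset V → K),
        th (U.erase v) (proj a v j) x = th (U.erase v) (a (j + 1)) x + a (j + 1) v • N x := by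
      intro j x
      funext M
      rw [hNapp, Pi.add_apply, Pi.smul_apply, Pi.smul_apply, th_apply, th_apply, th_apply]
      simp only [proj, smul_eq_mul, Finset.mul_sum]
      rw [← Finset.sum_add_distrib]
      refine Finset.sum_congr rfl fun w _ => ?_
      field_simp
      ring
    have hNcomm : ∀ (α : V → K) (x : Multiset V → K), th (U.erase v) α (N x) =
        N (th (U.erase v) α x) := by
      intro α x
      rw [hNapp, hNapp, map_smul, th_comm]
    have hNpow : ∀ (α : V → K) (k : ℕ) (x : Multiset V → K), th (U.erase v) α ((N ^ k) x) =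
        (N ^ k) (th (U.erase v) α x) := by
      intro α k x
      induction k with
      | zero => simp
      | succ k ih =>
        rw [pow_succ', Module.End.mul_apply, Module.End.mul_apply, hNcomm, ih]
    have hg0' : ∀ j < i', th (U.erase v) (proj a v j) (gs v g 0) = 0 := by
      intro j hj
      rw [hproj]
      funext M'
      rw [Pi.add_apply, Pi.smul_apply, smul_eq_mul, ← hrec]
      by_cases hM' : v ∈ M'
      · rw [hgsv _ _ hM', hthv _ _ _ hM', mul_zero, add_zero]; rfl
      · exact hslice (a (j + 1)) 0 M' hM' (hg0 (j + 1) (by omega))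
    have hgs0 : gs v g 0 ∈ WS K Λ m := by
      intro M' h
      have := sliceSupp_gs hΓ hΛ hg 0 M' h
      simpa using this
    obtain ⟨h, hh, hh0, hhi⟩ := IH i' (by omega) m (gs v g 0) hgs0 hg0'
    have hsupp : SliceSupp v Λ (m + 1) (fun k => (N ^ k) h) := by
      intro k
      induction k with
      | zero =>
        intro M' hM'
        have := hh M' (by simpa using hM')
        simpa using this
      | succ k ih =>
        intro M' hM'
        simp only [pow_succ', Module.End.mul_apply] at hM'
        rw [hNapp, Pi.smul_apply, smul_eq_mul] at hM'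
        have h2 := right_ne_zero_of_mul hM'
        rw [th_apply] at h2
        obtain ⟨w, hw, hne⟩ := Finset.exists_ne_zero_of_sum_ne_zero h2
        obtain ⟨h4, h5⟩ := ih _ (right_ne_zero_of_mul hne)
        rw [Multiset.card_cons] at h5
        rw [hΛ, Multiset.toFinset_cons] at h4
        refine ⟨?_, by omega⟩
        rw [hΛ]
        exact ⟨hΓ.down _ h4.1 _ (Finset.subset_insert _ _),
          fun hv => h4.2 (Finset.mem_insert_of_mem hv)⟩
    refine ⟨sl v (fun k => (N ^ k) h), sl_mem_WS hΓ hcone hΛ hsupp, ?_, ?_⟩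
    · intro j hj
      funext M
      rw [th_sl hvU]
      simp only [pow_succ', Module.End.mul_apply]
      cases j with
      | zero =>
        rw [hNapp, Pi.smul_apply, smul_eq_mul]
        field_simp
        simp
      | succ j' =>
        have h2 := congrFun (hproj j' ((N ^ (M.count v)) h)) (M.filter (· ≠ v))
        rw [hNpow, hh0 j' (by omega), map_zero, Pi.add_apply, Pi.smul_apply, smul_eq_mul] at h2
        rw [← h2]
        rfl
    · funext M
      rw [th_sl hvU]
      simp only [pow_succ', Module.End.mul_apply]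
      have h2 := congrFun (hproj i' ((N ^ (M.count v)) h)) (M.filter (· ≠ v))
      rw [hNpow, hhi, ← hpow, Pi.add_apply, Pi.smul_apply, smul_eq_mul] at h2
      rw [← h2]
      have : sl v (gs v g) M = g M := by rw [sl_gs]
      exact this

end

end Pool.Agent.MPfdde87
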