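import Mathlib

/-!
Definitions used in the statement: flag vectors, the cd-index, homology spheres.
-/

namespace Pool.Agent.MPfdde87

/-- The letters of cd-words. -/
inductive Letter : Type
  | c : Letter
  | d : Letter
  deriving DecidableEq

/-- The degrees of the letters: `deg c = 1` and `deg d = 2`. -/
def Letter.deg : Letter → ℕ
  | .c => 1
  | .d => 2

/-- The degree of a cd-word. -/
def degW (w : List Letter) : ℕ := (w.map Letter.deg).sum

/-- Noncommutative polynomials with integer coefficients in two variables. -/
abbrev NC : Type := FreeAlgebra ℤ Bool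

/-- The variable `a`. -/
noncomputable def va : NC := FreeAlgebra.ι ℤ false

/-- The variable `b`. -/
noncomputable def vb : NC := FreeAlgebra.ι ℤ true

/-- The letters as polynomials in `a` and `b`: `c = a + b` and `d = a b + b a`. -/
noncomputable def Letter.poly : Letter → NC
  | .c => va + vb
  | .d => va * vb + vb * va

/-- A cd-word as a polynomial in `a` and `b`. -/
noncomputable def polyW (w : List Letter) : NC := (w.map Letter.poly).prod

section Flags

variable {V : Type*} [DecidableEq V]

/-- The chains of nonempty members of the complex `Δ` whose set of dimensions is exactly `S`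
(the dimension of a face is its number of vertices minus one). -/
def chains (Δ : Finset (Finset V)) (S : Finset ℕ) : Finset (Finset (Finset V)) :=
  (Δ.erase ∅).powerset.filter fun C =>
    (∀ F ∈ C, ∀ G ∈ C, F ⊆ G ∨ G ⊆ F) ∧ C.image (fun F => F.card - 1) = S

/-- The flag `f`-vector. -/
def flagF (Δ : Finset (Finset V)) (S : Finset ℕ) : ℤ := ((chains Δ S).card : ℤ)

/-- The flag `h`-vector. -/
def flagH (Δ : Finset (Finset V)) (S : Finset ℕ) : ℤ :=
  ∑ T ∈ S.powerset, (-1 : ℤ) ^ (S \ T).card * flagF Δ T

/-- The monomial `u_S = u_0 u_1 ⋯ u_{d-1}` with `u_i = b` if `i ∈ S` and `u_i = a` otherwise. -/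
noncomputable def uS (d : ℕ) (S : Finset ℕ) : NC :=
  ((List.range d).map fun i => if i ∈ S then vb else va).prod

/-- The ab-index (of the face poset with a top element adjoined, of rank `d + 1`). -/
noncomputable def abIndex (d : ℕ) (Δ : Finset (Finset V)) : NC :=
  ∑ S ∈ (Finset.range d).powerset, flagH Δ S • uS d S

/-- `φ` is the family of coefficients of the cd-index: the ab-index equals `∑_w φ_w w`, and every
word `w` occurring has degree `d`. -/
structure IsCDIndex (d : ℕ) (Δ : Finset (Finset V)) (φ : List Letter →₀ ℤ) : Prop where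
  homogeneous : ∀ w, φ w ≠ 0 → degW w = d
  sum_eq : abIndex d Δ = φ.sum fun w n => n • polyW w

end Flags

/-- The boundary complex of the `d`-simplex: all proper subsets of a set with `d + 1` elements. -/
def simplexBoundary (d : ℕ) : Finset (Finset (Fin (d + 1))) :=
  (Finset.univ : Finset (Fin (d + 1))).ssubsets

section Spheres

variable {V : Type*} [Fintype V] [DecidableEq V]

/-- `c` is a chain with coefficients in the field with two elements, supported on the faces with
`s` vertices (that is, of dimension `s - 1`) of the link of `σ` in `Δ`. -/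
def IsLinkChain (Δ : Finset (Finset V)) (σ : Finset V) (s : ℕ) (c : Finset V → ZMod 2) : Prop :=
  ∀ ρ, c ρ ≠ 0 → Disjoint ρ σ ∧ ρ ∪ σ ∈ Δ ∧ ρ.card = s

/-- The boundary of a chain: the coefficient at `ρ` is the sum of the coefficients at the sets
obtained from `ρ` by adding one vertex. -/
def bdry (c : Finset V → ZMod 2) : Finset V → ZMod 2 := fun ρ => ∑ v ∈ ρᶜ, c (insert v ρ)

/-- `Δ` is a simplicial complex of dimension at most `d - 1` which is a homology sphere of
dimension `d - 1` over the field with two elements: for every face `σ` (including the empty one)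
the reduced simplicial homology of the link of `σ` is that of a sphere of
dimension `d - 1 - |σ|`. -/
structure IsHomologySphere (d : ℕ) (Δ : Finset (Finset V)) : Prop where
  empty_mem : ∅ ∈ Δ
  down_closed : ∀ σ ∈ Δ, ∀ τ, τ ⊆ σ → τ ∈ Δ
  card_le : ∀ σ ∈ Δ, σ.card ≤ d
  acyclic : ∀ σ ∈ Δ, ∀ s, s + σ.card < d → ∀ z, IsLinkChain Δ σ s z → bdry z = 0 →
    ∃ y, IsLinkChain Δ σ (s + 1) y ∧ bdry y = z
  top_cycle : ∀ σ ∈ Δ, ∃! z, IsLinkChain Δ σ (d - σ.card) z ∧ bdry z = 0 ∧ z ≠ 0

end Spheres

end Pool.Agent.MPfdde87
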