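import Mathlib

/-!
Iterated derivations in characteristic two.
-/

namespace Pool.Agent.MPfdde87

section Der

variable {K : Type*} [Field K]

/-- iterated derivations (the index `0` is applied first). -/
def appD : (n : ℕ) → (Fin n → Derivation ℤ K K) → K → K
  | 0, _, x => x
  | n + 1, D, x => appD n (fun k => D k.succ) (D 0 x)

theorem appD_zero_arg (n : ℕ) : ∀ (D : Fin n → Derivation ℤ K K), appD n D 0 = 0 := by
  induction n with
  | zero => intro D; rfl
  | succ n ih => intro D; rw [appD, map_zero, ih]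

theorem appD_add (n : ℕ) : ∀ (D : Fin n → Derivation ℤ K K) (x y : K),
    appD n D (x + y) = appD n D x + appD n D y := by
  induction n with
  | zero => intro D x y; rfl
  | succ n ih => intro D x y; rw [appD, map_add, ih]; rfl

theorem appD_sum {ι : Type*} (n : ℕ) (D : Fin n → Derivation ℤ K K) (s : Finset ι) (f : ι → K) :
    appD n D (∑ i ∈ s, f i) = ∑ i ∈ s, appD n D (f i) := by
  classical
  induction s using Finset.induction_on with
  | empty => rw [Finset.sum_empty, Finset.sum_empty, appD_zero_arg]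
  | insert i s hi ih => rw [Finset.sum_insert hi, Finset.sum_insert hi, appD_add, ih]

theorem appD_const_mul (n : ℕ) : ∀ (D : Fin n → Derivation ℤ K K) (c x : K),
    (∀ k, D k c = 0) → appD n D (c * x) = c * appD n D x := by
  induction n with
  | zero => intro D c x _; rfl
  | succ n ih =>
    intro D c x hc
    rw [appD, Derivation.leibniz, hc 0, smul_zero, add_zero, smul_eq_mul,
      ih _ _ _ (fun k => hc k.succ)]
    rfl

theorem appD_comm (n : ℕ) : ∀ (D : Fin n → Derivation ℤ K K) (E : Derivation ℤ K K) (x : K),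
    (∀ k y, E (D k y) = D k (E y)) → E (appD n D x) = appD n D (E x) := by
  induction n with
  | zero => intro D E x _; rfl
  | succ n ih =>
    intro D E x h
    rw [appD, ih _ _ _ (fun k y => h k.succ y), h 0]
    rfl

theorem appD_eq_zero (n : ℕ) : ∀ (D : Fin n → Derivation ℤ K K) (x : K),
    (∀ k l y, D k (D l y) = D l (D k y)) → ∀ k, D k x = 0 → appD n D x = 0 := by
  induction n with
  | zero => intro D x _ k; exact k.elim0
  | succ n ih =>
    intro D x h k hk
    rw [appD]
    rcases Fin.eq_zero_or_eq_succ k with rfl | ⟨j, rfl⟩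
    · rw [hk, appD_zero_arg]
    · apply ih _ _ (fun k l y => h k.succ l.succ y) j
      rw [h, hk, map_zero]

theorem der_sq [CharP K 2] (D : Derivation ℤ K K) (x : K) : D (x ^ 2) = 0 := by
  rw [sq, Derivation.leibniz]
  exact CharTwo.add_self_eq_zero _

theorem der_prod {ι : Type*} [DecidableEq ι] (D : Derivation ℤ K K) (s : Finset ι) (f : ι → K) :
    D (∏ i ∈ s, f i) = ∑ i ∈ s, D (f i) * ∏ j ∈ s.erase i, f j := by
  induction s using Finset.induction_on with
  | empty => rw [Finset.prod_empty, Finset.sum_empty, Derivation.map_one_eq_zero]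
  | insert i s hi ih =>
    rw [Finset.prod_insert hi, Finset.sum_insert hi, Derivation.leibniz, ih,
      Finset.erase_insert hi, smul_eq_mul, smul_eq_mul, add_comm, mul_comm (D (f i)),
      Finset.mul_sum]
    congr 1
    refine Finset.sum_congr rfl fun j hj => ?_
    have hij : j ≠ i := fun h => hi (h ▸ hj)
    rw [Finset.erase_insert_of_ne hij.symm, Finset.prod_insert (by
      rw [Finset.mem_erase, not_and_or]
      exact Or.inr hi)]
    ring

theorem der_prod_fin (D : Derivation ℤ K K) (n : ℕ) (f : Fin (n + 1) → K) :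
    D (∏ i, f i) = ∑ j, D (f j) * ∏ i, f (j.succAbove i) := by
  rw [der_prod]
  refine Finset.sum_congr rfl fun j _ => ?_
  congr 1
  have h : Finset.univ.erase j = Finset.univ.image (Fin.succAbove j) := by
    rw [Fin.image_succAbove_univ]
    ext x
    simp
  rw [h, Finset.prod_image]
  intro a _ b _ hab
  exact Fin.succAbove_right_injective hab

theorem neg_one_pow_char_two [CharP K 2] (n : ℕ) : (-1 : K) ^ n = 1 := by
  rw [CharTwo.neg_eq, one_pow]

theorem appD_prod [CharP K 2] (n : ℕ) : ∀ (D : Fin n → Derivation ℤ K K) (y : Fin n → K)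
    (B : Matrix (Fin n) (Fin n) K), (∀ k j, D k (y j) = B j k) → (∀ k j l, D k (B j l) = 0) →
    appD n D (∏ j, y j) = B.det := by
  induction n with
  | zero =>
    intro D y B _ _
    rw [Matrix.det_fin_zero]
    rfl
  | succ n ih =>
    intro D y B h1 h2
    rw [appD, der_prod_fin, appD_sum, Matrix.det_succ_column_zero]
    refine Finset.sum_congr rfl fun j _ => ?_
    rw [h1, appD_const_mul _ _ _ _ (fun k => h2 _ _ _), neg_one_pow_char_two, one_mul]
    congr 1
    exact ih (fun k => D k.succ) (fun i => y (j.succAbove i))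
      (B.submatrix j.succAbove Fin.succ) (fun k i => h1 _ _) (fun k i l => h2 _ _ _)

theorem good_mul {D1 D2 : Derivation ℤ K K} {s G H : K} (h1 : D1 G = s * D2 G)
    (h2 : D1 H = s * D2 H) : D1 (G * H) = s * D2 (G * H) := by
  rw [Derivation.leibniz, Derivation.leibniz, h1, h2]
  simp only [smul_eq_mul]
  ring

theorem good_zpow {D1 D2 : Derivation ℤ K K} {s G : K} (h1 : D1 G = s * D2 G) (n : ℤ) :
    D1 (G ^ n) = s * D2 (G ^ n) := by
  rw [Derivation.leibniz_zpow, Derivation.leibniz_zpow, h1]
  simp only [smul_eq_mul, zsmul_eq_mul]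
  ring

theorem good_prod {ι : Type*} {D1 D2 : Derivation ℤ K K} {s : K} (t : Finset ι) (f : ι → K)
    (h : ∀ i ∈ t, D1 (f i) = s * D2 (f i)) : D1 (∏ i ∈ t, f i) = s * D2 (∏ i ∈ t, f i) := by
  classical
  induction t using Finset.induction_on with
  | empty =>
    rw [Finset.prod_empty, Derivation.map_one_eq_zero, Derivation.map_one_eq_zero, mul_zero]
  | insert i t hi ih =>
    rw [Finset.prod_insert hi]
    exact good_mul (h i (Finset.mem_insert_self _ _))
      (ih fun j hj => h j (Finset.mem_insert_of_mem hj))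

theorem iter_formula (n : ℕ) : ∀ (Da Dc : Fin n → Derivation ℤ K K) (y : Fin n → K) (δ G : K),
    (∀ k, Da k δ = δ * Dc k (y k)) → (∀ k, Dc k δ = 0) →
    (∀ k l, Da k (y l) = y k * Dc k (y l)) → (∀ k, Da k G = y k * Dc k G) →
    (∀ k l x, Da k (Dc l x) = Dc l (Da k x)) → (∀ k l x, Dc k (Dc l x) = Dc l (Dc k x)) →
    appD n Da (δ * G) = appD n Dc (δ * ((∏ k, y k) * G)) := by
  induction n with
  | zero =>
    intro Da Dc y δ G _ _ _ _ _ _
    simp [appD]
  | succ n ih =>
    intro Da Dc y δ G h1 h2 h3 h4 h5 h6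
    have h7 : Da 0 (δ * G) = Dc 0 (δ * (y 0 * G)) := by
      rw [Derivation.leibniz, h1, h4, Derivation.leibniz, h2, Derivation.leibniz]
      simp only [smul_eq_mul]
      ring
    rw [appD, h7, ← appD_comm _ _ _ _ (fun k y => (h5 k.succ 0 y).symm),
      ih (fun k => Da k.succ) (fun k => Dc k.succ) (fun k => y k.succ) δ (y 0 * G)
        (fun k => h1 _) (fun k => h2 _) (fun k l => h3 _ _)
        (fun k => good_mul (h3 _ _) (h4 _)) (fun k l x => h5 _ _ _) (fun k l x => h6 _ _ _),
      appD_comm _ _ _ _ (fun k y => h6 _ _ _), appD, Fin.prod_univ_succ]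
    congr 3
    ring

end Der

section Mat

variable {K : Type*} [Field K] {n : Type*} [Fintype n] [DecidableEq n]

theorem der_mul_map (D : Derivation ℤ K K) (M N : Matrix n n K) :
    (M * N).map D = M.map D * N + M * N.map D := by
  ext i j
  rw [Matrix.map_apply, Matrix.mul_apply, map_sum, Matrix.add_apply, Matrix.mul_apply,
    Matrix.mul_apply, ← Finset.sum_add_distrib]
  refine Finset.sum_congr rfl fun k _ => ?_
  rw [Derivation.leibniz, Matrix.map_apply, Matrix.map_apply, smul_eq_mul, smul_eq_mul]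
  ring

theorem der_inv_map (D : Derivation ℤ K K) (A : Matrix n n K) (hA : A.det ≠ 0) :
    (A⁻¹).map D = - (A⁻¹ * A.map D * A⁻¹) := by
  have hu : IsUnit A.det := isUnit_iff_ne_zero.mpr hA
  have h1 : (A⁻¹ * A).map D = 0 := by
    rw [Matrix.nonsing_inv_mul _ hu]
    ext i j
    rw [Matrix.map_apply, Matrix.one_apply]
    split_ifs
    · rw [Derivation.map_one_eq_zero]
      rfl
    · rw [map_zero]
      rfl
  rw [der_mul_map] at h1
  have h2 : (A⁻¹).map D * A = - (A⁻¹ * A.map D) := eq_neg_of_add_eq_zero_left h1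
  calc (A⁻¹).map D = (A⁻¹).map D * (A * A⁻¹) := by
        rw [Matrix.mul_nonsing_inv _ hu, mul_one]
    _ = (A⁻¹).map D * A * A⁻¹ := by rw [mul_assoc]
    _ = - (A⁻¹ * A.map D * A⁻¹) := by rw [h2, neg_mul]

theorem der_inv_zero (D : Derivation ℤ K K) (A : Matrix n n K) (hA : A.det ≠ 0)
    (h : ∀ i j, D (A i j) = 0) (i j : n) : D (A⁻¹ i j) = 0 := by
  have h1 : A.map D = 0 := by
    ext i j
    exact h i j
  have h2 := der_inv_map D A hA
  rw [h1, mul_zero, zero_mul, neg_zero] at h2
  exact congrFun (congrFun h2 i) j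

theorem der_inv_single (D : Derivation ℤ K K) (A : Matrix n n K) (hA : A.det ≠ 0) (k l : n)
    (h : ∀ i j, D (A i j) = if i = k ∧ j = l then 1 else 0) (i j : n) :
    D (A⁻¹ i j) = - (A⁻¹ i k * A⁻¹ l j) := by
  have h2 := congrFun (congrFun (der_inv_map D A hA) i) j
  rw [Matrix.map_apply] at h2
  rw [h2, Matrix.neg_apply, Matrix.mul_apply]
  congr 1
  rw [Finset.sum_eq_single l]
  · congr 1
    rw [Matrix.mul_apply, Finset.sum_eq_single k]
    · rw [Matrix.map_apply, h, if_pos ⟨rfl, rfl⟩, mul_one]
    · intro b _ hb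
      rw [Matrix.map_apply, h, if_neg (fun h => hb h.1), mul_zero]
    · simp
  · intro b _ hb
    rw [Matrix.mul_apply, Finset.sum_eq_zero, zero_mul]
    intro c _
    rw [Matrix.map_apply, h, if_neg (fun h => hb h.2), mul_zero]
  · simp

theorem der_det_zero (D : Derivation ℤ K K) (A : Matrix n n K)
    (h : ∀ i j, D (A i j) = 0) : D A.det = 0 := by
  rw [Matrix.det_apply, map_sum]
  apply Finset.sum_eq_zero
  intro σ _
  have h1 : D (∏ i, A (σ i) i) = 0 := by
    rw [der_prod]
    apply Finset.sum_eq_zero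
    intro i _
    rw [h, zero_mul]
  rcases Int.units_eq_one_or (Equiv.Perm.sign σ) with h2 | h2
  · rw [h2, one_smul, h1]
  · rw [h2, Units.neg_smul, one_smul, map_neg, h1, neg_zero]

theorem adjugate_apply_col (A : Matrix n n K) (i k : n) :
    A.adjugate i k = (A.updateCol i (Pi.single k 1)).det := by
  have h1 : A.adjugate i k = A.transpose.adjugate k i := by
    rw [← Matrix.adjugate_transpose, Matrix.transpose_apply]
  rw [h1, Matrix.adjugate_apply, ← Matrix.det_transpose, Matrix.updateRow_transpose,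
    Matrix.transpose_transpose]

theorem der_det_single (D : Derivation ℤ K K) (A : Matrix n n K) (k l : n)
    (h : ∀ i j, D (A i j) = if i = k ∧ j = l then 1 else 0) :
    D A.det = A.adjugate l k := by
  have h0 : ∀ i, D (A.adjugate l i) = 0 := by
    intro i
    rw [adjugate_apply_col]
    apply der_det_zero
    intro a b
    rw [Matrix.updateCol_apply]
    split_ifs with hb
    · rw [Pi.single_apply]
      split_ifs
      · exact Derivation.map_one_eq_zero _
      · exact map_zero _
    · rw [h, if_neg (fun h => hb h.2)]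
  rw [Matrix.det_eq_sum_mul_adjugate_col A l, map_sum, Finset.sum_eq_single k]
  · rw [Derivation.leibniz, h0, smul_zero, zero_add, h, if_pos ⟨rfl, rfl⟩, smul_eq_mul, mul_one]
  · intro b _ hb
    rw [Derivation.leibniz, h0, smul_zero, zero_add, h, if_neg (fun h => hb h.1), smul_zero]
  · simp

theorem inv_apply_eq (A : Matrix n n K) (i j : n) : A⁻¹ i j = (A.det)⁻¹ * A.adjugate i j := by
  rw [Matrix.inv_def, Matrix.smul_apply, Ring.inverse_eq_inv', smul_eq_mul]

theorem der_detinv_zero (D : Derivation ℤ K K) (A : Matrix n n K)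
    (h : ∀ i j, D (A i j) = 0) : D (A.det)⁻¹ = 0 := by
  rw [Derivation.leibniz_inv, der_det_zero D A h, smul_zero]

theorem der_detinv_single (D : Derivation ℤ K K) (A : Matrix n n K) (hA : A.det ≠ 0) (k l : n)
    (h : ∀ i j, D (A i j) = if i = k ∧ j = l then 1 else 0) :
    D (A.det)⁻¹ = - ((A.det)⁻¹ * A⁻¹ l k) := by
  rw [Derivation.leibniz_inv, der_det_single D A k l h, inv_apply_eq, smul_eq_mul]
  ring

end Mat

end Pool.Agent.MPfdde87
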