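import Pool.Agent.Lib.MP_fdde87_co.Fld
import Pool.Agent.Lib.MP_fdde87_co.DerAbs

/-!
Explicit data attached to a facet: Cramer's rule and its derivatives.
-/

namespace Pool.Agent.MPfdde87

variable {V : Type*}

/-- index set of the variables. -/
abbrev Ix (V : Type*) : Type _ := (ℕ × Option V) ⊕ V

/-- the coordinates; the index `none` is an additional generic vector. -/
noncomputable def co (k : ℕ) (o : Option V) : RF (Ix V) := xv (Sum.inl (k, o))

/-- the coefficients of a generic linear form. -/
noncomputable def tv (v : V) : RF (Ix V) := xv (Sum.inr v)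

/-- derivative with respect to a coordinate. -/
noncomputable def Dco (k : ℕ) (o : Option V) : Derivation ℤ (RF (Ix V)) (RF (Ix V)) :=
  dv (Sum.inl (k, o))

/-- derivative with respect to a coefficient of the linear form. -/
noncomputable def Dtv (v : V) : Derivation ℤ (RF (Ix V)) (RF (Ix V)) := dv (Sum.inr v)

theorem Dco_co [DecidableEq V] (k k' : ℕ) (o o' : Option V) :
    Dco k o (co k' o') = if k' = k ∧ o' = o then 1 else 0 := by
  unfold Dco co
  split_ifs with h
  · rw [h.1, h.2, dv_xv_self]
  · apply dv_xv_of_ne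
    intro h'
    apply h
    have := Sum.inl_injective h'
    exact ⟨congrArg Prod.fst this, congrArg Prod.snd this⟩

theorem Dtv_co (v : V) (k : ℕ) (o : Option V) : Dtv v (co k o) = 0 := by
  unfold Dtv co
  apply dv_xv_of_ne
  simp

theorem Dco_tv (v : V) (k : ℕ) (o : Option V) : Dco k o (tv v) = 0 := by
  unfold Dco tv
  apply dv_xv_of_ne
  simp

theorem Dtv_tv [DecidableEq V] (u v : V) : Dtv u (tv v) = if v = u then 1 else 0 := by
  unfold Dtv tv
  split_ifs with h
  · rw [h, dv_xv_self]
  · apply dv_xv_of_ne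
    intro h'
    exact h (Sum.inr_injective h')

/-- the matrix with the given columns. -/
noncomputable def mg {d : ℕ} (g : Fin d → Option V) : Matrix (Fin d) (Fin d) (RF (Ix V)) :=
  Matrix.of fun k j => co (k : ℕ) (g j)

theorem mg_apply {d : ℕ} (g : Fin d → Option V) (k j : Fin d) : mg g k j = co (k : ℕ) (g j) := rfl

theorem det_mg_ne_zero {d : ℕ} {g : Fin d → Option V} (hg : Function.Injective g) :
    (mg g).det ≠ 0 := by
  unfold mg co
  apply det_xv_ne_zero (fun (k j : Fin d) => (Sum.inl ((k : ℕ), g j) : Ix V))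
  intro i j l h
  have := Sum.inl_injective h
  have h1 : (i : ℕ) = l := congrArg Prod.fst this
  have h2 : g j = g l := congrArg Prod.snd this
  exact ⟨Fin.ext h1, hg h2⟩

theorem det_mg_perm {d : ℕ} {g g' : Fin d → Option V} (hg : Function.Injective g)
    (hg' : Function.Injective g') (h : Set.range g = Set.range g') :
    (mg g).det = (mg g').det := by
  have h1 : ∀ j, ∃ i, g i = g' j := by
    intro j
    have : g' j ∈ Set.range g := by
      rw [h]
      exact ⟨j, rfl⟩
    exact this
  choose π hπ using h1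
  have hinj : Function.Injective π := by
    intro a b hab
    apply hg'
    rw [← hπ, ← hπ, hab]
  let p : Equiv.Perm (Fin d) := Equiv.ofBijective π (Finite.injective_iff_bijective.mp hinj)
  have h2 : mg g' = (mg g).submatrix id p := by
    ext i j
    rw [Matrix.submatrix_apply, mg_apply, mg_apply]
    have : g (p j) = g' j := hπ j
    rw [this]
    rfl
  rw [h2, Matrix.det_permute']
  rcases Int.units_eq_one_or (Equiv.Perm.sign p) with h3 | h3
  · rw [h3]
    simp
  · rw [h3]
    simp [CharTwo.neg_eq]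

open Classical in
/-- the determinant attached to a ridge. -/
noncomputable def Rr (d : ℕ) (σ : Finset V) : RF (Ix V) :=
  if h : ∃ g : Fin d → Option V, Function.Injective g ∧
    Set.range g = insert none (some '' (σ : Set V)) then (mg (Classical.choose h)).det else 0

theorem Rr_eq {d : ℕ} {σ : Finset V} {g : Fin d → Option V} (hg : Function.Injective g)
    (hr : Set.range g = insert none (some '' (σ : Set V))) : Rr d σ = (mg g).det := by
  have h : ∃ g : Fin d → Option V, Function.Injective g ∧
    Set.range g = insert none (some '' (σ : Set V)) := ⟨g, hg, hr⟩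
  unfold Rr
  rw [dif_pos h]
  have := Classical.choose_spec h
  exact det_mg_perm this.1 hg (this.2.trans hr.symm)

variable [DecidableEq V]

theorem facet_data (d : ℕ) (F : Finset V) (hF : F.card = d) :
    ∃ (δ : RF (Ix V)) (Y : V → RF (Ix V)),
      δ ≠ 0 ∧ (∀ v ∈ F, Y v ≠ 0) ∧
      (∀ k < d, ∑ v ∈ F, co k (some v) * Y v = co k none) ∧
      (∀ k < d, ∀ u ∈ F, ∀ v ∈ F, Dco k (some u) (Y v) = Y u * Dco k none (Y v)) ∧
      (∀ k < d, ∀ u ∈ F, Dco k (some u) δ = δ * Dco k none (Y u)) ∧
      (∀ k, ∀ u ∉ F, Dco k (some u) δ = 0 ∧ ∀ v ∈ F, Dco k (some u) (Y v) = 0) ∧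
      (∀ k, Dco k none δ = 0) ∧
      (∀ u, Dtv u δ = 0 ∧ ∀ v ∈ F, Dtv u (Y v) = 0) ∧
      appD d (fun k : Fin d => Dco (k : ℕ) none) (∏ v ∈ F, Y v) = δ ∧
      (∀ v ∈ F, Rr d (F.erase v) = Y v * δ⁻¹) := by
  classical
  let e : Fin d → V := fun j => ((F.equivFinOfCardEq hF).symm j).1
  have he : Function.Injective e :=
    Subtype.val_injective.comp (F.equivFinOfCardEq hF).symm.injective
  have heF : ∀ j, e j ∈ F := fun j => ((F.equivFinOfCardEq hF).symm j).2
  have hFe : ∀ v ∈ F, ∃ j, e j = v := by
    intro v hv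
    refine ⟨F.equivFinOfCardEq hF ⟨v, hv⟩, ?_⟩
    simp [e]
  have himg : F = Finset.univ.image e := by
    ext v
    rw [Finset.mem_image]
    constructor
    · intro hv
      obtain ⟨j, hj⟩ := hFe v hv
      exact ⟨j, Finset.mem_univ _, hj⟩
    · rintro ⟨j, _, rfl⟩
      exact heF j
  set A : Matrix (Fin d) (Fin d) (RF (Ix V)) := mg (fun j => some (e j)) with hA
  have hsome : Function.Injective (fun j => some (e j)) := (Option.some_injective V).comp he
  have hdet : A.det ≠ 0 := det_mg_ne_zero hsome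
  have hu : IsUnit A.det := isUnit_iff_ne_zero.mpr hdet
  set c : Fin d → RF (Ix V) := fun k => co (k : ℕ) none with hc
  set y : Fin d → RF (Ix V) := A⁻¹.mulVec c with hy
  have hyapp : ∀ j, y j = ∑ b, A⁻¹ j b * c b := fun j => rfl
  -- columns for Cramer's rule
  have hcol : ∀ j, A.updateCol j c = mg (fun l => if l = j then none else some (e l)) := by
    intro j
    ext a b
    rw [Matrix.updateCol_apply, mg_apply]
    split_ifs with h
    · rfl
    · rfl
  have hginj : ∀ j : Fin d, Function.Injective (fun l => if l = j then none else some (e l)) := by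
    intro j a b hab
    simp only at hab
    split_ifs at hab with h1 h2 h2
    · rw [h1, h2]
    · exact he (Option.some_injective V hab)
  have hcramer : ∀ j, y j = (A.det)⁻¹ *
      (mg (fun l => if l = j then none else some (e l))).det := by
    intro j
    rw [← hcol, ← Matrix.cramer_apply, Matrix.cramer_eq_adjugate_mulVec, hyapp]
    have : A.adjugate.mulVec c j = ∑ b, A.adjugate j b * c b := rfl
    rw [this, Finset.mul_sum]
    refine Finset.sum_congr rfl fun b _ => ?_
    rw [inv_apply_eq]
    ring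
  have hyne : ∀ j, y j ≠ 0 := by
    intro j
    rw [hcramer]
    exact mul_ne_zero (inv_ne_zero hdet) (det_mg_ne_zero (hginj j))
  -- derivatives
  have hzero : ∀ D : Derivation ℤ (RF (Ix V)) (RF (Ix V)), (∀ i j, D (A i j) = 0) →
      (∀ i, D (c i) = 0) → D (A.det)⁻¹ = 0 ∧ ∀ j, D (y j) = 0 := by
    intro D h1 h2
    refine ⟨der_detinv_zero D A h1, ?_⟩
    intro j
    rw [hyapp, map_sum]
    apply Finset.sum_eq_zero
    intro b _
    rw [Derivation.leibniz, der_inv_zero D A hdet h1, h2, smul_zero, smul_zero, add_zero]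
  have hDcA : ∀ (k : ℕ) (i j : Fin d), Dco k none (A i j) = 0 := by
    intro k i j
    rw [hA, mg_apply, Dco_co, if_neg]
    simp
  have hDcc : ∀ (k i : Fin d), Dco (k : ℕ) none (c i) = if i = k then 1 else 0 := by
    intro k i
    rw [hc, Dco_co]
    simp [Fin.ext_iff]
  have hDcy : ∀ k j : Fin d, Dco (k : ℕ) none (y j) = A⁻¹ j k := by
    intro k j
    rw [hyapp, map_sum, Finset.sum_eq_single k]
    · rw [Derivation.leibniz, der_inv_zero _ A hdet (hDcA k), smul_zero, add_zero, hDcc,
        if_pos rfl, smul_eq_mul, mul_one]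
    · intro b _ hb
      rw [Derivation.leibniz, der_inv_zero _ A hdet (hDcA k), smul_zero, add_zero, hDcc,
        if_neg hb, smul_zero]
    · simp
  have hDaA : ∀ (k l i j : Fin d), Dco (k : ℕ) (some (e l)) (A i j) =
      if i = k ∧ j = l then 1 else 0 := by
    intro k l i j
    rw [hA, mg_apply, Dco_co]
    simp only [Option.some_inj, he.eq_iff, Fin.ext_iff]
  have hDac : ∀ (k : ℕ) (v : V) (i : Fin d), Dco k (some v) (c i) = 0 := by
    intro k v i
    rw [hc, Dco_co, if_neg]
    simp
  have hDay : ∀ k l j : Fin d, Dco (k : ℕ) (some (e l)) (y j) = y l * A⁻¹ j k := by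
    intro k l j
    rw [hyapp j, map_sum, hyapp l, Finset.sum_mul]
    refine Finset.sum_congr rfl fun b _ => ?_
    rw [Derivation.leibniz, hDac, smul_zero, zero_add,
      der_inv_single _ A hdet k l (hDaA k l), CharTwo.neg_eq, smul_eq_mul]
    ring
  set Y : V → RF (Ix V) := Function.extend e y (fun _ => 0) with hY
  have hYe : ∀ j, Y (e j) = y j := fun j => he.extend_apply y _ j
  refine ⟨(A.det)⁻¹, Y, inv_ne_zero hdet, ?_, ?_, ?_, ?_, ?_, ?_, ?_, ?_, ?_⟩
  · intro v hv
    obtain ⟨j, rfl⟩ := hFe v hv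
    rw [hYe]
    exact hyne j
  · intro k hk
    have h1 : ∑ v ∈ F, co k (some v) * Y v = ∑ j, co k (some (e j)) * y j := by
      conv_lhs => rw [himg]
      rw [Finset.sum_image (fun a _ b _ hab => he hab)]
      refine Finset.sum_congr rfl fun j _ => ?_
      rw [hYe]
    have h2 : A.mulVec y = c := by
      rw [hy, Matrix.mulVec_mulVec, Matrix.mul_nonsing_inv _ hu, Matrix.one_mulVec]
    have h3 := congrFun h2 ⟨k, hk⟩
    rw [h1]
    exact h3
  · intro k hk u hu' v hv
    obtain ⟨j, rfl⟩ := hFe v hv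
    obtain ⟨l, rfl⟩ := hFe u hu'
    rw [hYe, hYe]
    have h1 := hDay ⟨k, hk⟩ l j
    have h2 := hDcy ⟨k, hk⟩ j
    simp only at h1 h2
    rw [h1, h2]
  · intro k hk u hu'
    obtain ⟨l, rfl⟩ := hFe u hu'
    have h1 := der_detinv_single _ A hdet ⟨k, hk⟩ l (hDaA ⟨k, hk⟩ l)
    have h2 := hDcy ⟨k, hk⟩ l
    simp only at h1 h2
    rw [h1, hYe, h2, CharTwo.neg_eq]
  · intro k u hu'
    have := hzero (Dco k (some u)) (by
      intro i j
      rw [hA, mg_apply, Dco_co, if_neg]
      rintro ⟨_, h⟩
      exact hu' (Option.some_injective V h ▸ heF j)) (hDac k u)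
    refine ⟨this.1, ?_⟩
    intro v hv
    obtain ⟨j, rfl⟩ := hFe v hv
    rw [hYe]
    exact this.2 j
  · intro k
    exact der_detinv_zero _ A (hDcA k)
  · intro u
    have := hzero (Dtv u) (by
      intro i j
      rw [hA, mg_apply, Dtv_co]) (by
      intro i
      rw [hc, Dtv_co])
    refine ⟨this.1, ?_⟩
    intro v hv
    obtain ⟨j, rfl⟩ := hFe v hv
    rw [hYe]
    exact this.2 j
  · have h1 : ∏ v ∈ F, Y v = ∏ j, y j := by
      conv_lhs => rw [himg]
      rw [Finset.prod_image (fun a _ b _ hab => he hab)]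
      exact Finset.prod_congr rfl fun j _ => hYe j
    rw [h1, appD_prod d (fun k : Fin d => Dco (k : ℕ) none) y A⁻¹ hDcy
      (fun k j l => der_inv_zero _ A hdet (hDcA k) j l), Matrix.det_nonsing_inv,
      Ring.inverse_eq_inv']
  · intro v hv
    obtain ⟨j, rfl⟩ := hFe v hv
    rw [Rr_eq (hginj j), hYe, hcramer, inv_inv]
    · field_simp
    · ext o
      rw [Set.mem_range, Set.mem_insert_iff]
      constructor
      · rintro ⟨l, hl⟩
        by_cases hlj : l = j
        · rw [if_pos hlj] at hl
          exact Or.inl hl.symm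
        · rw [if_neg hlj] at hl
          refine Or.inr ⟨e l, ?_, hl⟩
          rw [Finset.mem_coe, Finset.mem_erase]
          exact ⟨fun h => hlj (he h), heF l⟩
      · rintro (rfl | ⟨v, hv', rfl⟩)
        · exact ⟨j, if_pos rfl⟩
        · rw [Finset.mem_coe, Finset.mem_erase] at hv'
          obtain ⟨l, rfl⟩ := hFe v hv'.2
          exact ⟨l, if_neg (fun h => hv'.1 (congrArg e h))⟩

end Pool.Agent.MPfdde87
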