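import Mathlib

/-!
The field of rational functions over the field with two elements, with its commuting derivations.
-/

namespace Pool.Agent.MPfdde87

open MvPolynomial

/-- polynomials over the field with two elements. -/
abbrev PR (ι : Type*) : Type _ := MvPolynomial ι (ZMod 2)

/-- the field of rational functions. -/
def RF (ι : Type*) : Type _ := FractionRing (PR ι)

variable {ι : Type*}

noncomputable instance instFieldRF : Field (RF ι) := inferInstanceAs (Field (FractionRing (PR ι)))

noncomputable instance instAlgRF : Algebra (PR ι) (RF ι) :=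
  inferInstanceAs (Algebra (PR ι) (FractionRing (PR ι)))

instance instFracRF : IsFractionRing (PR ι) (RF ι) :=
  inferInstanceAs (IsFractionRing (PR ι) (FractionRing (PR ι)))

instance charP_RF : CharP (RF ι) 2 :=
  charP_of_injective_algebraMap (IsFractionRing.injective (PR ι) (RF ι)) 2

/-- the variables. -/
noncomputable def xv (i : ι) : RF ι := algebraMap (PR ι) (RF ι) (X i)

/-- a pair as a dual number. -/
def dpair (x y : RF ι) : TrivSqZeroExt (RF ι) (RF ι) := (x, y)

theorem dpair_fst (x y : RF ι) : (dpair x y).fst = x := rfl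

theorem dpair_snd (x y : RF ι) : (dpair x y).snd = y := rfl

/-- the ring homomorphism to the dual numbers attached to a derivation. -/
noncomputable def dualHom (D : Derivation (ZMod 2) (PR ι) (PR ι)) :
    PR ι →+* TrivSqZeroExt (RF ι) (RF ι) where
  toFun r := dpair (algebraMap _ _ r) (algebraMap _ _ (D r))
  map_one' := by
    apply TrivSqZeroExt.ext
    · rw [dpair_fst, map_one, TrivSqZeroExt.fst_one]
    · rw [dpair_snd, TrivSqZeroExt.snd_one, Derivation.map_one_eq_zero, map_zero]
  map_zero' := by
    apply TrivSqZeroExt.ext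
    · rw [dpair_fst, map_zero, TrivSqZeroExt.fst_zero]
    · rw [dpair_snd, TrivSqZeroExt.snd_zero, map_zero, map_zero]
  map_add' a b := by
    apply TrivSqZeroExt.ext
    · rw [dpair_fst, map_add, TrivSqZeroExt.fst_add, dpair_fst, dpair_fst]
    · rw [dpair_snd, TrivSqZeroExt.snd_add, map_add, map_add, dpair_snd, dpair_snd]
  map_mul' a b := by
    apply TrivSqZeroExt.ext
    · rw [dpair_fst, map_mul, TrivSqZeroExt.fst_mul, dpair_fst, dpair_fst]
    · rw [dpair_snd, TrivSqZeroExt.snd_mul, dpair_fst, dpair_fst, dpair_snd, dpair_snd,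
        Derivation.leibniz, map_add, smul_eq_mul, smul_eq_mul, map_mul, map_mul, smul_eq_mul,
        op_smul_eq_mul]
      ring

theorem dualHom_fst (D : Derivation (ZMod 2) (PR ι) (PR ι)) (r : PR ι) :
    (dualHom D r).fst = algebraMap _ (RF ι) r := rfl

theorem dualHom_snd (D : Derivation (ZMod 2) (PR ι) (PR ι)) (r : PR ι) :
    (dualHom D r).snd = algebraMap _ (RF ι) (D r) := rfl

theorem dualHom_unit (D : Derivation (ZMod 2) (PR ι) (PR ι)) (r : nonZeroDivisors (PR ι)) :
    IsUnit (dualHom D r) := by
  rw [TrivSqZeroExt.isUnit_iff_isUnit_fst, dualHom_fst]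
  exact IsLocalization.map_units (RF ι) r

/-- the lifted homomorphism. -/
noncomputable def dualLift (D : Derivation (ZMod 2) (PR ι) (PR ι)) :
    RF ι →+* TrivSqZeroExt (RF ι) (RF ι) :=
  IsLocalization.lift (dualHom_unit D)

theorem dualLift_algebraMap (D : Derivation (ZMod 2) (PR ι) (PR ι)) (r : PR ι) :
    dualLift D (algebraMap _ (RF ι) r) = dualHom D r :=
  IsLocalization.lift_eq _ _

theorem dualLift_fst (D : Derivation (ZMod 2) (PR ι) (PR ι)) (x : RF ι) :
    (dualLift D x).fst = x := by
  have h : ((TrivSqZeroExt.fstHom (RF ι) (RF ι) (RF ι)).toRingHom.comp (dualLift D)) =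
      RingHom.id (RF ι) := by
    apply IsLocalization.ringHom_ext (nonZeroDivisors (PR ι))
    apply RingHom.ext
    intro r
    simp only [RingHom.comp_apply, dualLift_algebraMap]
    change (dualHom D _).fst = _
    rw [dualHom_fst]
    rfl
  exact congrArg (fun f : RF ι →+* RF ι => f x) h

/-- the extension of a derivation to the field of rational functions. -/
noncomputable def extD (D : Derivation (ZMod 2) (PR ι) (PR ι)) : Derivation ℤ (RF ι) (RF ι) :=
  Derivation.mk' (AddMonoidHom.toIntLinearMap
    { toFun := fun x => (dualLift D x).snd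
      map_zero' := by simp
      map_add' := by
        intro x y
        simp }) (by
    intro x y
    change (dualLift D (x * y)).snd = x • (dualLift D y).snd + y • (dualLift D x).snd
    rw [map_mul, TrivSqZeroExt.snd_mul, dualLift_fst, dualLift_fst]
    simp [mul_comm])

theorem extD_algebraMap (D : Derivation (ZMod 2) (PR ι) (PR ι)) (r : PR ι) :
    extD D (algebraMap _ (RF ι) r) = algebraMap _ (RF ι) (D r) := by
  change (dualLift D _).snd = _
  rw [dualLift_algebraMap, dualHom_snd]

/-- partial derivatives on the field of rational functions. -/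
noncomputable def dv (i : ι) : Derivation ℤ (RF ι) (RF ι) := by
  classical exact extD (pderiv i)

theorem dv_xv_self (i : ι) : dv i (xv i) = 1 := by
  classical
  unfold dv xv
  rw [extD_algebraMap, pderiv_X_self, map_one]

theorem dv_xv_of_ne {i j : ι} (h : j ≠ i) : dv i (xv j) = 0 := by
  classical
  unfold dv xv
  rw [extD_algebraMap, pderiv_X_of_ne h, map_zero]

theorem der_eq_zero (E : Derivation ℤ (RF ι) (RF ι)) (h : ∀ i, E (xv i) = 0) : E = 0 := by
  have h1 : ∀ r : PR ι, E (algebraMap _ (RF ι) r) = 0 := by
    intro r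
    induction r using MvPolynomial.induction_on with
    | C z =>
      have : ∃ n : ℕ, (n : ZMod 2) = z := ⟨z.val, by simp⟩
      obtain ⟨n, rfl⟩ := this
      have h2 : (algebraMap (PR ι) (RF ι)) (C (n : ZMod 2)) = (n : RF ι) := by
        simp
      rw [h2]
      exact Derivation.map_natCast E n
    | add p q hp hq =>
      rw [map_add, map_add, hp, hq, add_zero]
    | mul_X p i hp =>
      rw [map_mul, Derivation.leibniz, hp, smul_zero, add_zero]
      have := h i
      unfold xv at this
      rw [this, smul_zero]
  ext x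
  obtain ⟨r, s, hs, rfl⟩ := IsFractionRing.div_surjective (A := PR ι) x
  have hs0 : algebraMap (PR ι) (RF ι) s ≠ 0 :=
    IsFractionRing.to_map_ne_zero_of_mem_nonZeroDivisors hs
  have h2 : E (algebraMap (PR ι) (RF ι) s *
      (algebraMap (PR ι) (RF ι) r / algebraMap (PR ι) (RF ι) s)) = 0 := by
    rw [mul_div_cancel₀ _ hs0]
    exact h1 r
  rw [Derivation.leibniz, h1 s, smul_zero, add_zero, smul_eq_mul, mul_eq_zero] at h2
  exact h2.resolve_left hs0

theorem dv_comm (i j : ι) (x : RF ι) : dv i (dv j x) = dv j (dv i x) := by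
  classical
  have h : ⁅dv i, dv j⁆ = (0 : Derivation ℤ (RF ι) (RF ι)) := by
    apply der_eq_zero
    intro k
    rw [Derivation.commutator_apply]
    have h1 : ∀ i j : ι, dv i (dv j (xv k)) = 0 := by
      intro i j
      by_cases h : k = j
      · subst h
        rw [dv_xv_self]
        exact Derivation.map_one_eq_zero _
      · rw [dv_xv_of_ne h, map_zero]
    rw [h1, h1, sub_zero]
  have h2 := congrArg (fun E : Derivation ℤ (RF ι) (RF ι) => E x) h
  simp only [Derivation.commutator_apply, Derivation.coe_zero, Pi.zero_apply] at h2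
  exact sub_eq_zero.mp h2

theorem det_xv_ne_zero {k : ℕ} (f : Fin k → Fin k → ι)
    (hf : ∀ i j l, f i j = f l l → i = l ∧ j = l) :
    (Matrix.of (fun i j => (xv (f i j) : RF ι))).det ≠ 0 := by
  classical
  have h1 : (Matrix.of (fun i j => (xv (f i j) : RF ι))).det =
      algebraMap (PR ι) (RF ι)
        ((Matrix.of (fun i j => (X (f i j) : PR ι))).det) := by
    rw [RingHom.map_det]
    rfl
  rw [h1]
  intro h2
  rw [FaithfulSMul.algebraMap_eq_zero_iff] at h2
  have h3 : MvPolynomial.eval (fun x => if ∃ l, x = f l l then (1 : ZMod 2) else 0)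
      ((Matrix.of (fun i j => (X (f i j) : PR ι))).det) = 0 := by
    rw [h2, map_zero]
  rw [RingHom.map_det] at h3
  have h4 : (MvPolynomial.eval (fun x => if ∃ l, x = f l l then (1 : ZMod 2) else 0)).mapMatrix
      (Matrix.of (fun i j => (X (f i j) : PR ι))) = 1 := by
    ext i j
    rw [RingHom.mapMatrix_apply, Matrix.map_apply, Matrix.of_apply, MvPolynomial.eval_X,
      Matrix.one_apply]
    by_cases h : i = j
    · subst h
      rw [if_pos ⟨i, rfl⟩, if_pos rfl]
    · rw [if_neg, if_neg h]
      rintro ⟨l, hl⟩
      obtain ⟨h5, h6⟩ := hf i j l hl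
      exact h (h5.trans h6.symm)
  rw [h4, Matrix.det_one] at h3
  exact one_ne_zero h3

end Pool.Agent.MPfdde87
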