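import Mathlib

/-!
The coefficient inequality for weights with monotonicity or symmetry and unimodality.
-/

namespace Pool.Agent.MPfdde87

section Ops

variable {G : Type*} [AddCommGroup G]

/-- initial sums. -/
def pre (p : ℕ → G) (j : ℕ) : G := ∑ l ∈ Finset.range j, p l

/-- the operator on coefficient vectors belonging to the letter `c`. -/
def opC (e : ℕ) (p : ℕ → G) (i : ℕ) : G := pre p (e + 1) - pre p i

/-- the operator on coefficient vectors belonging to the letter `d`. -/
def opD (e : ℕ) (p : ℕ → G) (i : ℕ) : G :=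
  ∑ j ∈ Finset.range i, (pre p (e + 1) - ∑ l ∈ Finset.range j, (p l + p (e - l)))

theorem pre_zero (p : ℕ → G) : pre p 0 = 0 := Finset.sum_range_zero _

theorem pre_succ (p : ℕ → G) (j : ℕ) : pre p (j + 1) = pre p j + p j := Finset.sum_range_succ _ _

end Ops

/-- the kernel of the operator `opD`. -/
def kap (E i x : ℤ) : ℤ := min (min i (E - i)) (min x (E - x))

theorem pre_eq_sum_ite (p : ℕ → ℤ) (e j : ℕ) (hj : j ≤ e + 1) :
    pre p j = ∑ m ∈ Finset.range (e + 1), (if m < j then 1 else 0) * p m := by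
  have h1 : ∑ m ∈ Finset.range (e + 1), (if m < j then (1 : ℤ) else 0) * p m =
      ∑ m ∈ (Finset.range (e + 1)).filter (fun m => m < j), p m := by
    rw [Finset.sum_filter]
    refine Finset.sum_congr rfl fun m _ => ?_
    split_ifs <;> simp
  rw [h1, pre]
  refine Finset.sum_congr ?_ fun _ _ => rfl
  ext m
  simp only [Finset.mem_range, Finset.mem_filter]
  omega

theorem sum_refl_eq_sum_ite (p : ℕ → ℤ) (e j : ℕ) (hj : j ≤ e + 1) :
    ∑ l ∈ Finset.range j, p (e - l) =
      ∑ m ∈ Finset.range (e + 1), (if e - m < j then 1 else 0) * p m := by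
  have h1 : ∑ m ∈ Finset.range (e + 1), (if e - m < j then (1 : ℤ) else 0) * p m =
      ∑ m ∈ (Finset.range (e + 1)).filter (fun m => e - m < j), p m := by
    rw [Finset.sum_filter]
    refine Finset.sum_congr rfl fun m _ => ?_
    split_ifs <;> simp
  rw [h1]
  refine Finset.sum_bij (fun l _ => e - l) ?_ ?_ ?_ ?_
  · intro l hl
    simp only [Finset.mem_range, Finset.mem_filter] at hl ⊢
    omega
  · intro a ha b hb hab
    simp only [Finset.mem_range] at ha hb
    omega
  · intro b hb
    simp only [Finset.mem_range, Finset.mem_filter] at hb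
    refine ⟨e - b, ?_, ?_⟩
    · simp only [Finset.mem_range]
      omega
    · omega
  · intro a _
    rfl

theorem opD_kernel (e : ℕ) (p : ℕ → ℤ) : ∀ i ≤ e + 2,
    opD e p i = ∑ m ∈ Finset.range (e + 1), kap (e + 2) i (m + 1) * p m := by
  intro i
  induction i with
  | zero =>
    intro _
    rw [opD, Finset.sum_range_zero, Finset.sum_eq_zero]
    intro m hm
    rw [Finset.mem_range] at hm
    have : kap (e + 2) (0 : ℕ) (m + 1) = 0 := by
      unfold kap
      omega
    rw [this, zero_mul]
  | succ i ih =>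
    intro hi
    have ih := ih (by omega)
    rw [opD] at ih ⊢
    rw [Finset.sum_range_succ, ih, Finset.sum_add_distrib]
    have h1 := pre_eq_sum_ite p e (e + 1) le_rfl
    have h2 := pre_eq_sum_ite p e i (by omega)
    have h3 := sum_refl_eq_sum_ite p e i (by omega)
    rw [pre] at h2
    rw [h1, h2, h3, ← Finset.sum_add_distrib, ← Finset.sum_sub_distrib, ← Finset.sum_add_distrib]
    refine Finset.sum_congr rfl fun m hm => ?_
    rw [Finset.mem_range] at hm
    have h4 : kap (e + 2) ((i + 1 : ℕ) : ℤ) (m + 1) = kap (e + 2) i (m + 1) +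
        ((if m < e + 1 then 1 else 0) - ((if m < i then 1 else 0) +
          (if e - m < i then 1 else 0))) := by
      unfold kap
      split_ifs <;> omega
    rw [h4]
    ring

theorem opC_kernel (e : ℕ) (p : ℕ → ℤ) (i : ℕ) (hi : i ≤ e + 1) :
    opC e p i = ∑ m ∈ Finset.range (e + 1), (if i ≤ m then 1 else 0) * p m := by
  rw [opC, pre_eq_sum_ite p e (e + 1) le_rfl, pre_eq_sum_ite p e i hi, ← Finset.sum_sub_distrib]
  refine Finset.sum_congr rfl fun m hm => ?_
  rw [Finset.mem_range] at hm
  rw [← sub_mul]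
  congr 1
  split_ifs <;> omega

theorem opCC_kernel (e : ℕ) (p : ℕ → ℤ) (i : ℕ) (hi : i ≤ e + 2) :
    opC (e + 1) (opC e p) i = ∑ m ∈ Finset.range (e + 1), max 0 ((m : ℤ) + 1 - i) * p m := by
  have h1 : ∀ j ≤ e + 2, pre (opC e p) j = ∑ m ∈ Finset.range (e + 1),
      min (j : ℤ) (m + 1) * p m := by
    intro j
    induction j with
    | zero =>
      intro _
      rw [pre_zero, Finset.sum_eq_zero]
      intro m _
      have : min ((0 : ℕ) : ℤ) (m + 1) = 0 := by omega
      rw [this, zero_mul]
    | succ j ih =>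
      intro hj
      rw [pre_succ, ih (by omega), opC_kernel e p j (by omega), ← Finset.sum_add_distrib]
      refine Finset.sum_congr rfl fun m hm => ?_
      rw [← add_mul]
      congr 1
      split_ifs <;> omega
  rw [opC, h1 _ le_rfl, h1 _ hi, ← Finset.sum_sub_distrib]
  refine Finset.sum_congr rfl fun m hm => ?_
  rw [Finset.mem_range] at hm
  rw [← sub_mul]
  congr 1
  omega

/-- the pairing of weights and coefficient vectors. -/
def pr (n : ℕ) (W p : ℕ → ℤ) : ℤ := ∑ i ∈ Finset.range (n + 1), W i * p i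

/-- transpose of `opC`. -/
def tC (W : ℕ → ℤ) (l : ℕ) : ℤ := pre W (l + 1)

/-- transpose of `opD`. -/
def tD (e : ℕ) (W : ℕ → ℤ) (m : ℕ) : ℤ :=
  ∑ i ∈ Finset.range (e + 3), kap (e + 2) i (m + 1) * W i

theorem pr_opC (e : ℕ) (W p : ℕ → ℤ) : pr (e + 1) W (opC e p) = pr e (tC W) p := by
  have h1 : pr (e + 1) W (opC e p) = ∑ i ∈ Finset.range (e + 2), ∑ m ∈ Finset.range (e + 1),
      W i * ((if i ≤ m then 1 else 0) * p m) := by
    refine Finset.sum_congr rfl fun i hi => ?_
    rw [Finset.mem_range] at hi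
    rw [opC_kernel e p i (by omega), Finset.mul_sum]
  rw [h1, Finset.sum_comm, pr]
  refine Finset.sum_congr rfl fun m hm => ?_
  rw [Finset.mem_range] at hm
  have h2 : tC W m = ∑ i ∈ Finset.range (e + 2), (if i ≤ m then 1 else 0) * W i := by
    rw [tC, pre_eq_sum_ite W (e + 1) (m + 1) (by omega)]
    refine Finset.sum_congr rfl fun i _ => ?_
    congr 1
    split_ifs <;> omega
  rw [h2, Finset.sum_mul]
  refine Finset.sum_congr rfl fun i _ => ?_
  ring

theorem pr_opD (e : ℕ) (W p : ℕ → ℤ) : pr (e + 2) W (opD e p) = pr e (tD e W) p := by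
  have h1 : pr (e + 2) W (opD e p) = ∑ i ∈ Finset.range (e + 3), ∑ m ∈ Finset.range (e + 1),
      W i * (kap (e + 2) i (m + 1) * p m) := by
    refine Finset.sum_congr rfl fun i hi => ?_
    rw [Finset.mem_range] at hi
    rw [opD_kernel e p i (by omega), Finset.mul_sum]
  rw [h1, Finset.sum_comm, pr]
  refine Finset.sum_congr rfl fun m hm => ?_
  rw [tD, Finset.sum_mul]
  refine Finset.sum_congr rfl fun i _ => ?_
  ring

/-- nonnegativity on `[0,n]`. -/
def Nn (n : ℕ) (W : ℕ → ℤ) : Prop := ∀ i ≤ n, 0 ≤ W i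

/-- monotonicity on `[0,n]`. -/
def Mo (n : ℕ) (W : ℕ → ℤ) : Prop := ∀ i j, i ≤ j → j ≤ n → W i ≤ W j

/-- antitonicity on `[0,n]`. -/
def An (n : ℕ) (W : ℕ → ℤ) : Prop := ∀ i j, i ≤ j → j ≤ n → W j ≤ W i

/-- symmetry and unimodality on `[0,n]`. -/
def SU (n : ℕ) (W : ℕ → ℤ) : Prop := ∀ i j, i ≤ n → j ≤ n → min i (n - i) ≤ min j (n - j) →
  W i ≤ W j

theorem Nn_tC {e : ℕ} {W : ℕ → ℤ} (h : Nn (e + 1) W) : Nn e (tC W) := by
  intro l hl
  unfold tC pre
  apply Finset.sum_nonneg
  intro i hi
  rw [Finset.mem_range] at hi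
  exact h i (by omega)

theorem Mo_tC {e : ℕ} {W : ℕ → ℤ} (h : Nn (e + 1) W) : Mo e (tC W) := by
  intro i j hij hj
  unfold tC pre
  apply Finset.sum_le_sum_of_subset_of_nonneg
  · intro x hx
    rw [Finset.mem_range] at hx ⊢
    omega
  · intro x hx _
    rw [Finset.mem_range] at hx
    exact h x (by omega)

theorem Nn_tD {e : ℕ} {W : ℕ → ℤ} (h : Nn (e + 2) W) : Nn e (tD e W) := by
  intro m hm
  apply Finset.sum_nonneg
  intro i hi
  rw [Finset.mem_range] at hi
  apply mul_nonneg
  · unfold kap
    omega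
  · exact h i (by omega)

theorem SU_tD {e : ℕ} {W : ℕ → ℤ} (h : Nn (e + 2) W) : SU e (tD e W) := by
  intro m m' hm hm' hmm
  apply Finset.sum_le_sum
  intro i hi
  rw [Finset.mem_range] at hi
  apply mul_le_mul_of_nonneg_right
  · unfold kap
    omega
  · exact h i (by omega)

theorem Nn_opC {e : ℕ} {p : ℕ → ℤ} (h : Nn e p) : Nn (e + 1) (opC e p) := by
  intro i hi
  rw [opC_kernel e p i hi]
  apply Finset.sum_nonneg
  intro m hm
  rw [Finset.mem_range] at hm
  apply mul_nonneg
  · split_ifs <;> omega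
  · exact h m (by omega)

theorem An_opC {e : ℕ} {p : ℕ → ℤ} (h : Nn e p) : An (e + 1) (opC e p) := by
  intro i j hij hj
  rw [opC_kernel e p i (by omega), opC_kernel e p j hj]
  apply Finset.sum_le_sum
  intro m hm
  rw [Finset.mem_range] at hm
  apply mul_le_mul_of_nonneg_right
  · split_ifs <;> omega
  · exact h m (by omega)

theorem Nn_opD {e : ℕ} {p : ℕ → ℤ} (h : Nn e p) : Nn (e + 2) (opD e p) := by
  intro i hi
  rw [opD_kernel e p i hi]
  apply Finset.sum_nonneg
  intro m hm
  rw [Finset.mem_range] at hm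
  apply mul_nonneg
  · unfold kap
    omega
  · exact h m (by omega)

theorem SU_opD {e : ℕ} {p : ℕ → ℤ} (h : Nn e p) : SU (e + 2) (opD e p) := by
  intro i j hi hj hij
  rw [opD_kernel e p i hi, opD_kernel e p j hj]
  apply Finset.sum_le_sum
  intro m hm
  rw [Finset.mem_range] at hm
  apply mul_le_mul_of_nonneg_right
  · unfold kap
    omega
  · exact h m (by omega)

/-- the crossing lemma. -/
theorem crossing (s : Finset ℕ) (f g : ℕ → ℤ) (hf : ∀ m ∈ s, 0 ≤ f m)
    (hfg : ∀ m ∈ s, ∀ m' ∈ s, 0 ≤ g m → g m' < 0 → f m' ≤ f m) (hg : 0 ≤ ∑ m ∈ s, g m) :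
    0 ≤ ∑ m ∈ s, f m * g m := by
  have key : ∃ t, 0 ≤ t ∧ ∀ m ∈ s, 0 ≤ (f m - t) * g m := by
    by_cases hneg : ∃ m ∈ s, g m < 0
    · obtain ⟨m₀, hm₀, hmax⟩ := Finset.exists_max_image (s.filter (fun m => g m < 0)) f (by
        obtain ⟨m, hm, h⟩ := hneg
        exact ⟨m, Finset.mem_filter.mpr ⟨hm, h⟩⟩)
      rw [Finset.mem_filter] at hm₀
      refine ⟨f m₀, hf m₀ hm₀.1, ?_⟩
      intro m hm
      by_cases hgm : 0 ≤ g m
      · apply mul_nonneg _ hgm
        have := hfg m hm m₀ hm₀.1 hgm hm₀.2
        omega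
      · push Not at hgm
        apply mul_nonneg_of_nonpos_of_nonpos _ hgm.le
        have := hmax m (Finset.mem_filter.mpr ⟨hm, hgm⟩)
        omega
    · push Not at hneg
      refine ⟨0, le_rfl, ?_⟩
      intro m hm
      apply mul_nonneg
      · rw [sub_zero]
        exact hf m hm
      · exact hneg m hm
  obtain ⟨t, ht, h⟩ := key
  have h1 : 0 ≤ ∑ m ∈ s, (f m - t) * g m := Finset.sum_nonneg h
  have h2 : ∑ m ∈ s, (f m - t) * g m = ∑ m ∈ s, f m * g m - t * ∑ m ∈ s, g m := by
    rw [Finset.mul_sum, ← Finset.sum_sub_distrib]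
    refine Finset.sum_congr rfl fun m _ => ?_
    ring
  rw [h2] at h1
  have h3 : 0 ≤ t * ∑ m ∈ s, g m := mul_nonneg ht hg
  omega

/-- discrete concavity on `[0,n]`. -/
def Cv (n : ℕ) (R : ℕ → ℤ) : Prop :=
  ∀ m, m + 2 ≤ n → R (m + 1 + 1) + R m ≤ 2 * R (m + 1)

theorem Cv_diff {n : ℕ} {R : ℕ → ℤ} (h : Cv n R) (k k' : ℕ) (hk : k ≤ k') (hk' : k' + 1 ≤ n) :
    R (k' + 1) - R k' ≤ R (k + 1) - R k := by
  induction k', hk using Nat.le_induction with
  | base => exact le_rfl
  | succ k' _ ih =>
    have h1 := ih (by omega)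
    have h2 := h k' (by omega)
    omega

theorem Cv_neg {n : ℕ} {R : ℕ → ℤ} (h : Cv n R) (h0 : 0 ≤ R 0) (m : ℕ) (hm : m + 1 ≤ n)
    (hneg : R m < 0) : R (m + 1) < R m := by
  induction m with
  | zero => omega
  | succ m ih =>
    have h2 := h m (by omega)
    by_cases h3 : R m < 0
    · have := ih (by omega) h3
      omega
    · omega

theorem Cv_neg_of_le {n : ℕ} {R : ℕ → ℤ} (h : Cv n R) (h0 : 0 ≤ R 0) (m m' : ℕ) (hm : m ≤ m')
    (hm' : m' ≤ n) (hneg : R m < 0) : R m' < 0 := by
  induction m', hm using Nat.le_induction with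
  | base => exact hneg
  | succ k _ ih =>
    have h1 := ih (by omega)
    have h2 := Cv_neg h h0 k hm' h1
    omega

theorem SU_of_Cv {n : ℕ} {S : ℕ → ℤ} (h : Cv n S) (hs : ∀ i ≤ n, S (n - i) = S i) : SU n S := by
  have h1 : ∀ k, 2 * k + 1 ≤ n → S k ≤ S (k + 1) := by
    intro k hk
    have h2 := Cv_diff h k (n - 1 - k) (by omega) (by omega)
    have h3 := hs k (by omega)
    have h4 := hs (k + 1) (by omega)
    have h5 : n - 1 - k + 1 = n - k := by omega
    have h6 : n - 1 - k = n - (k + 1) := by omega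
    rw [h5, h6] at h2
    omega
  have h2 : ∀ i j, i ≤ j → 2 * j ≤ n → S i ≤ S j := by
    intro i j hij
    induction j, hij using Nat.le_induction with
    | base => intro _; exact le_rfl
    | succ k _ ih =>
      intro hk
      have := h1 k (by omega)
      have := ih (by omega)
      omega
  have h3 : ∀ i ≤ n, S i = S (min i (n - i)) := by
    intro i hi
    rcases le_total i (n - i) with h4 | h4
    · rw [min_eq_left h4]
    · rw [min_eq_right h4, hs i hi]
  intro i j hi hj hij
  rw [h3 i hi, h3 j hj]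
  apply h2 _ _ hij
  omega

theorem sum_eta (E : ℤ) (n : ℕ) : ∑ i ∈ Finset.range (n + 1), (E - i) * (3 * i - E + 1) =
    - ((n + 1) * (E - n) * (E - n - 1)) := by
  induction n with
  | zero =>
    rw [Finset.sum_range_one]
    push_cast
    ring
  | succ n ih =>
    rw [Finset.sum_range_succ, ih]
    push_cast
    ring

theorem sum_kap (e i : ℕ) (hi : i ≤ e + 2) :
    ∑ m ∈ Finset.range (e + 1), kap (e + 2) i (m + 1) = (i : ℤ) * (e + 2 - i) := by
  have h1 := opD_kernel e (fun _ => 1) i hi
  simp only [mul_one] at h1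
  rw [← h1]
  clear h1
  have h2 : ∀ j, pre (fun _ => (1 : ℤ)) j = j := by
    intro j
    simp [pre]
  have h3 : ∀ i : ℕ, opD e (fun _ => (1 : ℤ)) i = (i : ℤ) * (e + 2 - i) := by
    intro i
    rw [opD]
    simp only [h2]
    induction i with
    | zero => simp
    | succ i ih =>
      rw [Finset.sum_range_succ, ih]
      simp only [Finset.sum_const, Finset.card_range, nsmul_eq_mul]
      push_cast
      ring
  exact h3 i

theorem sum_max (e i : ℕ) (hi : i ≤ e + 2) :
    2 * ∑ m ∈ Finset.range (e + 1), max 0 ((m : ℤ) + 1 - i) =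
      ((e : ℤ) + 2 - i) * (e + 1 - i) := by
  have key : ∀ n : ℕ, i ≤ n + 1 → 2 * ∑ m ∈ Finset.range n, max 0 ((m : ℤ) + 1 - i) =
      ((n : ℤ) + 1 - i) * (n - i) := by
    intro n hn
    induction n with
    | zero =>
      have : i = 0 ∨ i = 1 := by omega
      rcases this with rfl | rfl <;> simp
    | succ n ih =>
      rcases Nat.lt_or_ge n i with h | h
      · have h1 : ∑ m ∈ Finset.range (n + 1), max 0 ((m : ℤ) + 1 - i) = 0 := by
          apply Finset.sum_eq_zero
          intro m hm
          rw [Finset.mem_range] at hm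
          omega
        rw [h1]
        have : (i : ℤ) = n + 1 ∨ (i : ℤ) = n + 2 := by omega
        rcases this with h2 | h2
        · rw [h2]
          push_cast
          ring
        · rw [h2]
          push_cast
          ring
      · rw [Finset.sum_range_succ, mul_add, ih (by omega)]
        have : max 0 ((n : ℤ) + 1 - i) = n + 1 - i := by omega
        rw [this]
        push_cast
        ring
  have := key (e + 1) (by omega)
  rw [this]
  push_cast
  ring

/-- twice the total kernel. -/
theorem two_eta (e i : ℕ) (hi : i ≤ e + 2) :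
    2 * ∑ m ∈ Finset.range (e + 1), (kap (e + 2) i (m + 1) - max 0 ((m : ℤ) + 1 - i)) =
      ((e : ℤ) + 2 - i) * (3 * i - (e + 2) + 1) := by
  rw [Finset.sum_sub_distrib, mul_sub, sum_max e i hi, sum_kap e i hi]
  ring

theorem SU_symm {n : ℕ} {W : ℕ → ℤ} (h : SU n W) (i : ℕ) (hi : i ≤ n) : W (n - i) = W i := by
  apply le_antisymm
  · apply h <;> omega
  · apply h <;> omega

theorem sum_W_eta (e : ℕ) (W : ℕ → ℤ) (hW0 : Nn (e + 2) W)
    (hW : Mo (e + 2) W ∨ SU (e + 2) W) :
    0 ≤ ∑ i ∈ Finset.range (e + 3), W i * (((e : ℤ) + 2 - i) * (3 * i - (e + 2) + 1)) := by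
  have hf : ∀ m ∈ Finset.range (e + 3), 0 ≤ W m := by
    intro m hm
    rw [Finset.mem_range] at hm
    exact hW0 m (by omega)
  have h0 : ∑ i ∈ Finset.range (e + 3), ((e : ℤ) + 2 - i) * (3 * i - (e + 2) + 1) = 0 := by
    have := sum_eta ((e : ℤ) + 2) (e + 2)
    rw [this]
    push_cast
    ring
  rcases hW with hW | hW
  · apply crossing _ _ _ hf _ h0.ge
    intro m hm m' hm' hg hg'
    rw [Finset.mem_range] at hm hm'
    apply hW m' m _ (by omega)
    by_contra hlt
    push Not at hlt
    have h1 : 3 * (m' : ℤ) - (e + 2) + 1 < 0 := by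
      by_contra h
      push Not at h
      have : (0 : ℤ) ≤ (e : ℤ) + 2 - m' := by omega
      have := mul_nonneg this h
      omega
    have h2 : 3 * (m : ℤ) - (e + 2) + 1 < 0 := by omega
    have h3 : (0 : ℤ) < (e : ℤ) + 2 - m := by omega
    have := mul_neg_of_pos_of_neg h3 h2
    omega
  · -- symmetrize
    set η : ℕ → ℤ := fun i => ((e : ℤ) + 2 - i) * (3 * i - (e + 2) + 1) with hη
    have h1 : ∑ i ∈ Finset.range (e + 3), W i * η i =
        ∑ i ∈ Finset.range (e + 3), W i * η (e + 2 - i) := by
      have h2 := Finset.sum_range_reflect (fun i => W i * η i) (e + 3)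
      rw [← h2]
      refine Finset.sum_congr rfl fun i hi => ?_
      rw [Finset.mem_range] at hi
      have h3 : e + 3 - 1 - i = e + 2 - i := by omega
      rw [h3, SU_symm hW i (by omega)]
    have h2 : 0 ≤ ∑ i ∈ Finset.range (e + 3), W i * (η i + η (e + 2 - i)) := by
      apply crossing _ _ _ hf
      · intro m hm m' hm' hg hg'
        rw [Finset.mem_range] at hm hm'
        have hT : ∀ i : ℕ, i ≤ e + 2 → η i + η (e + 2 - i) =
            6 * ((i : ℤ) * (e + 2 - i)) - (e + 2) * (e + 1) := by
          intro i hi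
          simp only [hη]
          have : ((e + 2 - i : ℕ) : ℤ) = (e : ℤ) + 2 - i := by omega
          rw [this]
          ring
        rw [hT m (by omega)] at hg
        rw [hT m' (by omega)] at hg'
        apply hW m' m (by omega) (by omega)
        by_contra hlt
        push Not at hlt
        have h5 : ∀ i : ℕ, i ≤ e + 2 → (i : ℤ) * (e + 2 - i) =
            (min i (e + 2 - i) : ℕ) * ((e : ℤ) + 2 - (min i (e + 2 - i) : ℕ)) := by
          intro i hi
          rcases le_total i (e + 2 - i) with h | h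
          · rw [min_eq_left h]
          · rw [min_eq_right h]
            have : ((e + 2 - i : ℕ) : ℤ) = (e : ℤ) + 2 - i := by omega
            rw [this]
            ring
        rw [h5 m (by omega)] at hg
        rw [h5 m' (by omega)] at hg'
        set x := min m (e + 2 - m) with hx
        set y := min m' (e + 2 - m') with hy
        have h6 : (x : ℤ) < y := by omega
        have h7 : (x : ℤ) + y ≤ e + 2 := by omega
        have h8 : 0 ≤ ((y : ℤ) - x) * (e + 2 - x - y) := by
          apply mul_nonneg <;> omega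
        nlinarith
      · have h3 : ∑ i ∈ Finset.range (e + 3), η (e + 2 - i) =
            ∑ i ∈ Finset.range (e + 3), η i := by
          have h2 := Finset.sum_range_reflect (fun i => η i) (e + 3)
          rw [← h2]
          refine Finset.sum_congr rfl fun i hi => ?_
          rw [Finset.mem_range] at hi
          have h3 : e + 3 - 1 - i = e + 2 - i := by omega
          rw [h3]
        rw [Finset.sum_add_distrib, h3, h0]
        norm_num
    simp only [mul_add] at h2
    rw [Finset.sum_add_distrib, ← h1] at h2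
    change 0 ≤ ∑ i ∈ Finset.range (e + 3), W i * η i
    omega

theorem base (e : ℕ) (W : ℕ → ℤ) (hW0 : Nn (e + 2) W) (hW : Mo (e + 2) W ∨ SU (e + 2) W)
    (p : ℕ → ℤ) (hp0 : Nn e p) (hp : An e p ∨ SU e p) :
    pr (e + 2) W (opC (e + 1) (opC e p)) ≤ pr (e + 2) W (opD e p) := by
  set R : ℕ → ℤ := fun m => ∑ i ∈ Finset.range (e + 3),
    W i * (kap (e + 2) i (m + 1) - max 0 ((m : ℤ) + 1 - i)) with hR
  have h1 : pr (e + 2) W (opD e p) - pr (e + 2) W (opC (e + 1) (opC e p)) =
      ∑ m ∈ Finset.range (e + 1), p m * R m := by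
    have h2 : ∑ m ∈ Finset.range (e + 1), p m * R m =
        ∑ i ∈ Finset.range (e + 3), ∑ m ∈ Finset.range (e + 1),
          W i * (kap (e + 2) i (m + 1) - max 0 ((m : ℤ) + 1 - i)) * p m := by
      rw [Finset.sum_comm]
      refine Finset.sum_congr rfl fun m _ => ?_
      rw [hR, Finset.mul_sum]
      refine Finset.sum_congr rfl fun i _ => ?_
      ring
    rw [h2, pr, pr, ← Finset.sum_sub_distrib]
    refine Finset.sum_congr rfl fun i hi => ?_
    rw [Finset.mem_range] at hi
    rw [opD_kernel e p i (by omega), opCC_kernel e p i (by omega), Finset.mul_sum,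
      Finset.mul_sum, ← Finset.sum_sub_distrib]
    refine Finset.sum_congr rfl fun m _ => ?_
    ring
  have hcv : Cv e R := by
    intro m hm
    simp only [hR]
    rw [← Finset.sum_add_distrib, Finset.mul_sum]
    apply Finset.sum_le_sum
    intro i hi
    rw [Finset.mem_range] at hi
    rw [← mul_add, mul_left_comm]
    apply mul_le_mul_of_nonneg_left _ (hW0 i (by omega))
    unfold kap
    push_cast
    omega
  have hR0 : 0 ≤ R 0 := by
    simp only [hR]
    rw [Finset.sum_range_succ', Finset.sum_range_succ']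
    have h2 : 0 ≤ ∑ k ∈ Finset.range (e + 1), W (k + 1 + 1) *
        (kap (e + 2) ((k + 1 + 1 : ℕ) : ℤ) (((0 : ℕ) : ℤ) + 1) -
          max 0 (((0 : ℕ) : ℤ) + 1 - ((k + 1 + 1 : ℕ) : ℤ))) := by
      apply Finset.sum_nonneg
      intro k hk
      rw [Finset.mem_range] at hk
      apply mul_nonneg (hW0 _ (by omega))
      unfold kap
      push_cast
      omega
    have h3 : W 0 ≤ W (0 + 1) := by
      rcases hW with h | h
      · exact h 0 (0 + 1) (by omega) (by omega)
      · apply h <;> omega
    have h4 : kap ((e : ℤ) + 2) ((0 + 1 : ℕ) : ℤ) (((0 : ℕ) : ℤ) + 1) -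
          max 0 (((0 : ℕ) : ℤ) + 1 - ((0 + 1 : ℕ) : ℤ)) = 1 := by
      unfold kap
      push_cast
      omega
    have h5 : kap ((e : ℤ) + 2) ((0 : ℕ) : ℤ) (((0 : ℕ) : ℤ) + 1) -
          max 0 (((0 : ℕ) : ℤ) + 1 - ((0 : ℕ) : ℤ)) = -1 := by
      unfold kap
      push_cast
      omega
    rw [h4, h5]
    linarith
  have hRsum : 0 ≤ ∑ m ∈ Finset.range (e + 1), R m := by
    have h2 : 2 * ∑ m ∈ Finset.range (e + 1), R m =
        ∑ i ∈ Finset.range (e + 3), W i * (((e : ℤ) + 2 - i) * (3 * i - (e + 2) + 1)) := by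
      simp only [hR]
      rw [Finset.sum_comm, Finset.mul_sum]
      refine Finset.sum_congr rfl fun i hi => ?_
      rw [Finset.mem_range] at hi
      rw [← two_eta e i (by omega), ← Finset.mul_sum]
      ring
    have h3 := sum_W_eta e W hW0 hW
    rw [← h2] at h3
    omega
  have hf : ∀ m ∈ Finset.range (e + 1), 0 ≤ p m := by
    intro m hm
    rw [Finset.mem_range] at hm
    exact hp0 m (by omega)
  have hfin : 0 ≤ ∑ m ∈ Finset.range (e + 1), p m * R m := by
    rcases hp with hp | hp
    · apply crossing _ _ _ hf _ hRsum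
      intro m hm m' hm' hg hg'
      rw [Finset.mem_range] at hm hm'
      apply hp m m' _ (by omega)
      by_contra hlt
      push Not at hlt
      have := Cv_neg_of_le hcv hR0 m' m (by omega) (by omega) hg'
      omega
    · have h2 : ∑ m ∈ Finset.range (e + 1), p m * R m =
          ∑ m ∈ Finset.range (e + 1), p m * R (e - m) := by
        have h3 := Finset.sum_range_reflect (fun m => p m * R m) (e + 1)
        rw [← h3]
        refine Finset.sum_congr rfl fun m hm => ?_
        rw [Finset.mem_range] at hm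
        have h4 : e + 1 - 1 - m = e - m := by omega
        rw [h4, SU_symm hp m (by omega)]
      have hScv : Cv e (fun m => R m + R (e - m)) := by
        intro m hm
        have h3 := hcv m hm
        have h4 := hcv (e - (m + 2)) (by omega)
        have h5 : e - (m + 2) + 1 + 1 = e - m := by omega
        have h6 : e - (m + 2) + 1 = e - (m + 1) := by omega
        have h7 : e - (m + 1 + 1) = e - (m + 2) := rfl
        rw [h5, h6] at h4
        simp only
        rw [h7]
        omega
      have hSU := SU_of_Cv hScv (by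
        intro i hi
        have : e - (e - i) = i := by omega
        simp only [this]
        ring)
      have h3 : 0 ≤ ∑ m ∈ Finset.range (e + 1), p m * (R m + R (e - m)) := by
        apply crossing _ _ _ hf
        · intro m hm m' hm' hg hg'
          rw [Finset.mem_range] at hm hm'
          apply hp m' m (by omega) (by omega)
          by_contra hlt
          push Not at hlt
          have := hSU m m' (by omega) (by omega) hlt.le
          simp only at this
          omega
        · have h4 : ∑ m ∈ Finset.range (e + 1), R (e - m) = ∑ m ∈ Finset.range (e + 1), R m := by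
            have h3 := Finset.sum_range_reflect R (e + 1)
            rw [← h3]
            refine Finset.sum_congr rfl fun m hm => ?_
            rw [Finset.mem_range] at hm
            have h4 : e + 1 - 1 - m = e - m := by omega
            rw [h4]
          rw [Finset.sum_add_distrib, h4]
          omega
      simp only [mul_add] at h3
      rw [Finset.sum_add_distrib, ← h2] at h3
      omega
  rw [← h1] at hfin
  omega

end Pool.Agent.MPfdde87
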