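import Pool.Agent.Lib.MP_fdde87_co.Unimod
import Pool.Agent.Lib.MP_fdde87_co.Defs

/-!
From homology spheres over the field with two elements to the general hypotheses.
-/

namespace Pool.Agent.MPfdde87

theorem acyc_transfer (K : Type*) {V : Type*} [Field K] [CharP K 2] [DecidableEq V] {U : Finset V}
    {P : Finset V → Prop} (hP : ∀ ρ, P ρ → ρ ⊆ U) {s : ℕ} (h : AcycAt (ZMod 2) U P s) :
    AcycAt K U P s := by
  classical
  let _ : Algebra (ZMod 2) K := ZMod.algebra K 2
  let b := Module.Basis.ofVectorSpace (ZMod 2) K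
  intro c hc hcyc
  have h1 : ∀ i, ∃ c' : Finset V → ZMod 2, (∀ ρ, c' ρ ≠ 0 → P ρ ∧ ρ.card = s + 1) ∧
      ∀ ρ, ∑ v ∈ U \ ρ, c' (insert v ρ) = b.repr (c ρ) i := by
    intro i
    apply h (fun ρ => b.repr (c ρ) i)
    · intro ρ hρ
      apply hc
      intro h0
      apply hρ
      rw [h0, map_zero]
      rfl
    · intro ρ
      have h2 := congrArg (fun x => b.repr x i) (hcyc ρ)
      simp only [map_sum, map_zero, Finsupp.coe_zero, Pi.zero_apply, Finsupp.coe_finsetSum,
        Finset.sum_apply] at h2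
      exact h2
  choose c' hc'1 hc'2 using h1
  let I := U.powerset.biUnion (fun ρ => (b.repr (c ρ)).support)
  refine ⟨fun ρ => ∑ i ∈ I, c' i ρ • b i, ?_, ?_⟩
  · intro ρ hρ
    obtain ⟨i, _, hi⟩ := Finset.exists_ne_zero_of_sum_ne_zero hρ
    apply hc'1 i
    intro h0
    apply hi
    rw [h0, zero_smul]
  · intro ρ
    simp only
    rw [Finset.sum_comm]
    have h2 : ∀ i ∈ I, ∑ v ∈ U \ ρ, c' i (insert v ρ) • b i = (b.repr (c ρ) i) • b i := by
      intro i _
      rw [← Finset.sum_smul, hc'2]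
    rw [Finset.sum_congr rfl h2]
    by_cases hρU : ρ ⊆ U
    · have h3 : (b.repr (c ρ)).support ⊆ I := by
        intro i hi
        exact Finset.mem_biUnion.mpr ⟨ρ, Finset.mem_powerset.mpr hρU, hi⟩
      have h4 := b.linearCombination_repr (c ρ)
      rw [Finsupp.linearCombination_apply, Finsupp.sum_of_support_subset _ h3] at h4
      · exact h4
      · intro i _
        rw [zero_smul]
    · have h3 : c ρ = 0 := by
        by_contra hne
        exact hρU (hP ρ (hc ρ hne).1)
      rw [h3, map_zero]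
      simp

section Sphere

variable {V : Type*} [Fintype V] [DecidableEq V] {d : ℕ} {Δ : Finset (Finset V)}

theorem sphere_isCx (h : IsHomologySphere d Δ) : IsCx Δ :=
  ⟨h.empty_mem, h.down_closed⟩

theorem sphere_CMAc (K : Type*) [Field K] [CharP K 2] (h : IsHomologySphere d Δ) :
    CMAc K Finset.univ Δ d := by
  intro σ hσ s hs
  apply acyc_transfer K (fun ρ _ => Finset.subset_univ ρ)
  intro z hz hz0
  obtain ⟨y, hy1, hy2⟩ := h.acyclic σ hσ s hs z (fun ρ hρ => ⟨(hz ρ hρ).1.1, (hz ρ hρ).1.2,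
    (hz ρ hρ).2⟩) (by
      funext ρ
      exact hz0 ρ)
  refine ⟨y, fun ρ hρ => ⟨⟨(hy1 ρ hρ).1, (hy1 ρ hρ).2.1⟩, (hy1 ρ hρ).2.2⟩, ?_⟩
  intro ρ
  exact congrFun hy2 ρ

theorem sphere_ridge (h : IsHomologySphere d Δ) : ∀ σ ∈ Δ, σ.card + 1 = d →
    ∃ v w, v ≠ w ∧ v ∉ σ ∧ w ∉ σ ∧ insert v σ ∈ Δ ∧
      insert w σ ∈ Δ ∧ ∀ x, x ∉ σ → insert x σ ∈ Δ → x = v ∨ x = w := by
  intro σ hσ hσd
  have hd : d - σ.card = 1 := by omega
  obtain ⟨z, ⟨hz1, hz2, hz3⟩, huniq⟩ := h.top_cycle σ hσ
  rw [hd] at hz1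
  -- cycles given by pairs
  have hpair : ∀ x y, x ≠ y → x ∉ σ → y ∉ σ → insert x σ ∈ Δ → insert y σ ∈ Δ →
      IsLinkChain Δ σ (d - σ.card) (fun ρ => if ρ = {x} ∨ ρ = {y} then 1 else 0) ∧
        bdry (fun ρ : Finset V => if ρ = {x} ∨ ρ = {y} then (1 : ZMod 2) else 0) = 0 ∧
        (fun ρ : Finset V => if ρ = {x} ∨ ρ = {y} then (1 : ZMod 2) else 0) ≠ 0 := by
    intro x y hxy hx hy hxσ hyσ
    rw [hd]
    refine ⟨?_, ?_, ?_⟩
    · intro ρ hρ
      have h1 : ρ = {x} ∨ ρ = {y} := by
        by_contra hne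
        apply hρ
        simp only [hne, if_false]
      rcases h1 with rfl | rfl
      · refine ⟨Finset.disjoint_singleton_left.mpr hx, ?_, Finset.card_singleton _⟩
        rw [← Finset.insert_eq]
        exact hxσ
      · refine ⟨Finset.disjoint_singleton_left.mpr hy, ?_, Finset.card_singleton _⟩
        rw [← Finset.insert_eq]
        exact hyσ
    · funext ρ
      unfold bdry
      by_cases hρ : ρ = ∅
      · subst hρ
        simp only [insert_empty_eq, Finset.singleton_inj, Pi.zero_apply, Finset.compl_empty]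
        have h2 : ∀ v : V, (if v = x ∨ v = y then (1 : ZMod 2) else 0) =
            (if v = x then 1 else 0) + (if v = y then 1 else 0) := by
          intro v
          by_cases h3 : v = x
          · have h4 : v ≠ y := fun h5 => hxy (h3.symm.trans h5)
            simp [h3, hxy]
          · simp [h3]
        simp only [h2]
        rw [Finset.sum_add_distrib]
        simp only [Finset.sum_ite_eq', Finset.mem_univ, if_true]
        decide
      · apply Finset.sum_eq_zero
        intro v hv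
        simp only
        rw [if_neg]
        rintro (h1 | h1)
        · have h2 : insert v ρ ⊆ {x} := by rw [h1]
          have h3 := Finset.insert_subset_iff.mp h2
          rcases Finset.subset_singleton_iff.mp h3.2 with h4 | h4
          · exact hρ h4
          · rw [Finset.mem_compl, h4] at hv
            exact hv h3.1
        · have h2 : insert v ρ ⊆ {y} := by rw [h1]
          have h3 := Finset.insert_subset_iff.mp h2
          rcases Finset.subset_singleton_iff.mp h3.2 with h4 | h4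
          · exact hρ h4
          · rw [Finset.mem_compl, h4] at hv
            exact hv h3.1
    · intro h0
      have := congrFun h0 {x}
      simp at this
  -- two vertices in the support of the cycle
  have hz2' := congrFun hz2 ∅
  unfold bdry at hz2'
  simp only [insert_empty_eq, Pi.zero_apply, Finset.compl_empty] at hz2'
  obtain ⟨ρ₀, hρ₀⟩ : ∃ ρ, z ρ ≠ 0 := by
    by_contra hne
    push Not at hne
    exact hz3 (funext hne)
  obtain ⟨h1, h2, h3⟩ := hz1 ρ₀ hρ₀
  obtain ⟨v, rfl⟩ := Finset.card_eq_one.mp h3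
  have hv : v ∉ σ := Finset.disjoint_singleton_left.mp h1
  have hvσ : insert v σ ∈ Δ := by
    rw [Finset.insert_eq]
    exact h2
  obtain ⟨w, hwv, hzw⟩ : ∃ w, w ≠ v ∧ z {w} ≠ 0 := by
    by_contra hne
    push Not at hne
    rw [Finset.sum_eq_single v (fun w _ hw => hne w hw) (fun h => absurd (Finset.mem_univ _) h)]
      at hz2'
    exact hρ₀ hz2'
  obtain ⟨h4, h5, -⟩ := hz1 {w} hzw
  have hw : w ∉ σ := Finset.disjoint_singleton_left.mp h4
  have hwσ : insert w σ ∈ Δ := by
    rw [Finset.insert_eq]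
    exact h5
  refine ⟨v, w, hwv.symm, hv, hw, hvσ, hwσ, ?_⟩
  intro x hx hxσ
  by_contra hne
  push Not at hne
  have h6 := huniq _ (hpair v w hwv.symm hv hw hvσ hwσ)
  have h7 := huniq _ (hpair v x hne.1.symm hv hx hvσ hxσ)
  have h8 := congrFun (h6.trans h7.symm) {w}
  simp only [Finset.singleton_inj] at h8
  simp [hwv, hne.2.symm] at h8

/-- symmetry and unimodality of the `h`-vector of a homology sphere. -/
theorem sphere_h (h : IsHomologySphere d Δ) :
    (∀ m n, n + m = d → hvec d (fnum Δ) m = hvec d (fnum Δ) n) ∧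
    (∀ m, 2 * m + 1 ≤ d → hvec d (fnum Δ) m ≤ hvec d (fnum Δ) (m + 1)) :=
  gthm (sphere_isCx h) (fun τ _ => Finset.subset_univ τ) (sphere_CMAc (RF (Ix V)) h) h.card_le
    (sphere_ridge h)

end Sphere

end Pool.Agent.MPfdde87
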