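import Pool.Agent.Lib.MP_fdde87_co.Chain
import Pool.Agent.Lib.MP_fdde87_co.Transfer

/-!
The inequality for the coefficients of the cd-index of a homology sphere.
-/

namespace Pool.Agent.MPfdde87

/-- the coefficients of the cd-index in terms of the `h`-vector. -/
noncomputable def phiOf (d : ℕ) (h : ℕ → ℤ) : List Letter →₀ ℤ :=
  Finsupp.onFinset (cdWords d) (fun w => if degW w = d then pr d h (pw w.reverse) else 0) (by
    intro w hw
    rw [mem_cdWords]
    by_contra hne
    rw [if_neg hne] at hw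
    exact hw rfl)

theorem phiOf_apply (d : ℕ) (h : ℕ → ℤ) (w : List Letter) (hw : degW w = d) :
    phiOf d h w = pr d h (pw w.reverse) := by
  rw [phiOf, Finsupp.onFinset_apply, if_pos hw]

section General

variable {V : Type*} [DecidableEq V]

theorem sum_eq_cdWords {d : ℕ} (φ : List Letter →₀ ℤ) (h : ∀ w, φ w ≠ 0 → degW w = d) :
    (φ.sum fun w n => n • polyW w) = ∑ w ∈ cdWords d, φ w • polyW w := by
  rw [Finsupp.sum_of_support_subset (s := cdWords d)]
  · intro w hw
    rw [mem_cdWords]
    exact h w (Finsupp.mem_support_iff.mp hw)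
  · intro w _
    rw [zero_smul]

theorem isCDIndex_phiOf (d : ℕ) (Δ : Finset (Finset V)) (h0 : ∅ ∈ Δ)
    (hΔ : ∀ s ∈ Δ, ∀ t, t ⊆ s → t ∈ Δ)
    (hs : ∀ i ≤ d, hvec d (fnum Δ) (d - i) = hvec d (fnum Δ) i) :
    IsCDIndex d Δ (phiOf d (hvec d (fnum Δ))) := by
  have hhom : ∀ w, phiOf d (hvec d (fnum Δ)) w ≠ 0 → degW w = d := by
    intro w hw
    by_contra hne
    apply hw
    rw [phiOf, Finsupp.onFinset_apply, if_neg hne]
  refine ⟨hhom, ?_⟩
  rw [sum_eq_cdWords _ hhom, abIndex_eq d Δ h0 hΔ, sum_h_Aab NC_two va vb d _ hs]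
  simp only [Phi_eq_sum, Finset.smul_sum]
  rw [Finset.sum_comm]
  refine Finset.sum_congr rfl fun w hw => ?_
  rw [phiOf_apply _ _ _ ((mem_cdWords _ _).mp hw), pr, Finset.sum_smul]
  refine Finset.sum_congr rfl fun i _ => ?_
  rw [smul_smul]

theorem isCDIndex_unique (d : ℕ) (Δ : Finset (Finset V)) (φ ψ : List Letter →₀ ℤ)
    (hφ : IsCDIndex d Δ φ) (hψ : IsCDIndex d Δ ψ) : φ = ψ := by
  ext w
  by_cases hw : degW w = d
  · have h1 : ∑ w ∈ cdWords d, (φ w - ψ w) • polyW w = 0 := by
      simp only [sub_smul]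
      rw [Finset.sum_sub_distrib, ← sum_eq_cdWords φ hφ.homogeneous,
        ← sum_eq_cdWords ψ hψ.homogeneous, ← hφ.sum_eq, ← hψ.sum_eq, sub_self]
    have h2 := cd_unique d (fun w => φ w - ψ w) (by rw [h1, map_zero]) w ((mem_cdWords _ _).mpr hw)
    exact sub_eq_zero.mp h2
  · have h1 : φ w = 0 := by
      by_contra hne
      exact hw (hφ.homogeneous w hne)
    have h2 : ψ w = 0 := by
      by_contra hne
      exact hw (hψ.homogeneous w hne)
    rw [h1, h2]

end General

theorem hvec_zero (d : ℕ) (x : ℕ → ℤ) : hvec d x 0 = x 0 := by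
  induction d with
  | zero => simp [hvec]
  | succ d ih => simp [hvec, ih]

theorem simplexBoundary_empty (d : ℕ) : ∅ ∈ simplexBoundary d := by
  rw [simplexBoundary, Finset.mem_ssubsets]
  refine Finset.ssubset_iff_subset_ne.mpr ⟨Finset.empty_subset _, ?_⟩
  intro h
  have := congrArg Finset.card h
  simp at this

theorem simplexBoundary_down (d : ℕ) : ∀ s ∈ simplexBoundary d, ∀ t, t ⊆ s →
    t ∈ simplexBoundary d := by
  intro s hs t ht
  rw [simplexBoundary, Finset.mem_ssubsets] at hs ⊢
  exact lt_of_le_of_lt ht hs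

theorem simplexBoundary_hvec (d : ℕ) : ∀ i ≤ d, hvec d (fnum (simplexBoundary d)) i = 1 := by
  intro i hi
  rw [hvec_congr d (fnum (simplexBoundary d)) (fun j => ((d + 1 + 0).choose j : ℤ)) (by
    intro k hk
    exact fnum_ssubsets Finset.univ d k (by simp) hk), hvec_choose d 0 i hi]
  simp

theorem simplexBoundary_symm (d : ℕ) : ∀ i ≤ d, hvec d (fnum (simplexBoundary d)) (d - i) =
    hvec d (fnum (simplexBoundary d)) i := by
  intro i hi
  rw [simplexBoundary_hvec d i hi, simplexBoundary_hvec d (d - i) (by omega)]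

section Sphere

variable {V : Type*} [Fintype V] [DecidableEq V] {d : ℕ} {Δ : Finset (Finset V)}

theorem sphere_symm (h : IsHomologySphere d Δ) : ∀ i ≤ d, hvec d (fnum Δ) (d - i) =
    hvec d (fnum Δ) i := by
  intro i hi
  exact (sphere_h h).1 (d - i) i (by omega)

theorem sphere_h_zero (h : IsHomologySphere d Δ) : hvec d (fnum Δ) 0 = 1 := by
  rw [hvec_zero, fnum]
  have : Δ.filter (fun F => F.card = 0) = {∅} := by
    ext F
    rw [Finset.mem_filter, Finset.card_eq_zero, Finset.mem_singleton]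
    constructor
    · exact fun h => h.2
    · rintro rfl
      exact ⟨h.empty_mem, rfl⟩
  rw [this]
  simp

theorem sphere_SU (h : IsHomologySphere d Δ) : SU d (hvec d (fnum Δ)) := by
  have h1 := (sphere_h h).2
  have h2 : ∀ i j, i ≤ j → 2 * j ≤ d → hvec d (fnum Δ) i ≤ hvec d (fnum Δ) j := by
    intro i j hij
    induction j, hij using Nat.le_induction with
    | base => intro _; exact le_rfl
    | succ k _ ih =>
      intro hk
      exact (ih (by omega)).trans (h1 k (by omega))
  have h3 : ∀ i ≤ d, hvec d (fnum Δ) i = hvec d (fnum Δ) (min i (d - i)) := by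
    intro i hi
    rcases le_total i (d - i) with h4 | h4
    · rw [min_eq_left h4]
    · rw [min_eq_right h4, sphere_symm h i hi]
  intro i j hi hj hij
  rw [h3 i hi, h3 j hj]
  exact h2 _ _ hij (by omega)

theorem sphere_inequality (h : IsHomologySphere d Δ) (φ ψ : List Letter →₀ ℤ)
    (hφ : IsCDIndex d Δ φ) (hψ : IsCDIndex d (simplexBoundary d) ψ) (u v : List Letter)
    (huv : degW u + degW v + 2 = d) :
    ψ (u ++ [.d] ++ v) - ψ (u ++ [.c, .c] ++ v) ≤ φ (u ++ [.d] ++ v) - φ (u ++ [.c, .c] ++ v) := by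
  have hφ' := isCDIndex_unique d Δ φ _ hφ
    (isCDIndex_phiOf d Δ h.empty_mem h.down_closed (sphere_symm h))
  have hψ' := isCDIndex_unique d (simplexBoundary d) ψ _ hψ
    (isCDIndex_phiOf d _ (simplexBoundary_empty d) (simplexBoundary_down d)
      (simplexBoundary_symm d))
  have hd1 : degW (u ++ [.d] ++ v) = d := by
    rw [degW_append, degW_append, degW_cons, degW_nil]
    simp only [Letter.deg]
    omega
  have hd2 : degW (u ++ [.c, .c] ++ v) = d := by
    rw [degW_append, degW_append, degW_cons, degW_cons, degW_nil]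
    simp only [Letter.deg]
    omega
  rw [hφ', hψ', phiOf_apply _ _ _ hd1, phiOf_apply _ _ _ hd2, phiOf_apply _ _ _ hd1,
    phiOf_apply _ _ _ hd2]
  have hr1 : (u ++ [Letter.d] ++ v).reverse = v.reverse ++ .d :: u.reverse := by simp
  have hr2 : (u ++ [Letter.c, Letter.c] ++ v).reverse = v.reverse ++ .c :: .c :: u.reverse := by
    simp
  rw [hr1, hr2]
  set W : ℕ → ℤ := fun i => hvec d (fnum Δ) i - 1 with hW
  have hpr : ∀ p : ℕ → ℤ, pr d W p = pr d (hvec d (fnum Δ)) p -
      pr d (hvec d (fnum (simplexBoundary d))) p := by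
    intro p
    rw [pr, pr, pr, ← Finset.sum_sub_distrib]
    refine Finset.sum_congr rfl fun i hi => ?_
    rw [Finset.mem_range] at hi
    rw [simplexBoundary_hvec d i (by omega), hW]
    ring
  have hSU := sphere_SU h
  have hW0 : Nn d W := by
    intro i hi
    have h1 := hSU 0 i (by omega) hi (by omega)
    rw [sphere_h_zero h] at h1
    rw [hW]
    simp only
    omega
  have hWSU : SU d W := by
    intro i j hi hj hij
    have := hSU i j hi hj hij
    rw [hW]
    simp only
    omega
  have key := pw_compare u.reverse v.reverse d W (by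
    rw [degW_reverse, degW_reverse]
    omega) hW0 (Or.inr hWSU)
  rw [hpr, hpr] at key
  omega

end Sphere

end Pool.Agent.MPfdde87
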