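import Pool.Agent.Lib.MP_fdde87_co.Facet
import Pool.Agent.Lib.MP_fdde87_co.Dim

/-!
The fundamental stress of a closed pseudomanifold and its differential identity.
-/

namespace Pool.Agent.MPfdde87

section Minors

variable {K V : Type*} [Field K] [DecidableEq V]

theorem det_proj {k : ℕ} (a : ℕ → V → K) (v : V) (hv : a 0 v ≠ 0) (e : Fin k → V) :
    (Matrix.of fun (i j : Fin (k + 1)) => a i ((Fin.cons v e : Fin (k + 1) → V) j)).det =
      a 0 v * (Matrix.of fun (i j : Fin k) => proj a v i (e j)).det := by
  set M : Matrix (Fin (k + 1)) (Fin (k + 1)) K :=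
    Matrix.of fun (i j : Fin (k + 1)) => a i ((Fin.cons v e : Fin (k + 1) → V) j) with hM
  set c : Fin (k + 1) → K := fun i => if i = 0 then 0 else a i v / a 0 v with hc
  set N : Matrix (Fin (k + 1)) (Fin (k + 1)) K :=
    Matrix.of fun i j => M i j - c i * M 0 j with hN
  have h0 : c 0 = 0 := if_pos rfl
  have h1 : M.det = N.det := by
    apply Matrix.det_eq_of_forall_row_eq_smul_add_const c 0 h0
    intro i j
    rw [hN, Matrix.of_apply, Matrix.of_apply, h0]
    ring
  rw [h1, Matrix.det_succ_column_zero, Finset.sum_eq_single 0]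
  · have h2 : N 0 0 = a 0 v := by
      rw [hN, Matrix.of_apply, h0, hM, Matrix.of_apply]
      simp
    rw [h2]
    simp only [Fin.val_zero, pow_zero, one_mul]
    congr 2
  · intro i _ hi
    have h2 : N i 0 = 0 := by
      rw [hN, Matrix.of_apply, hM, Matrix.of_apply, Matrix.of_apply, hc]
      simp only [hi, if_false, Fin.cons_zero, Fin.val_zero]
      field_simp
      ring
    rw [h2]
    ring
  · simp

theorem good_of_minors (d : ℕ) : ∀ (U : Finset V) (a : ℕ → V → K),
    (∀ k ≤ d, ∀ e : Fin k → V, Function.Injective e → (∀ j, e j ∈ U) →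
      (Matrix.of fun (i j : Fin k) => a i (e j)).det ≠ 0) → Good d U a := by
  induction d with
  | zero => intro U a _; trivial
  | succ d ih =>
    intro U a h v hv
    have h0 : a 0 v ≠ 0 := by
      have := h 1 (by omega) (fun _ => v) (Function.injective_of_subsingleton _) (fun _ => hv)
      rw [Matrix.det_fin_one, Matrix.of_apply] at this
      exact this
    refine ⟨h0, ?_⟩
    apply ih
    intro k hk e he heU
    have h1 := h (k + 1) (by omega) (Fin.cons v e) (by
      rw [Fin.cons_injective_iff]
      refine ⟨?_, he⟩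
      rintro ⟨j, hj⟩
      have := heU j
      rw [hj] at this
      simp at this) (by
      intro j
      refine Fin.cases ?_ ?_ j
      · exact hv
      · intro i
        exact Finset.mem_of_mem_erase (heU i))
    rw [det_proj a v h0 e] at h1
    exact right_ne_zero_of_mul h1

end Minors

variable {V : Type*} [DecidableEq V]

theorem Dco_comm (k l : ℕ) (o p : Option V) (x : RF (Ix V)) :
    Dco k o (Dco l p x) = Dco l p (Dco k o x) := dv_comm _ _ _

/-- the generic coordinates. -/
noncomputable def ga (V : Type*) : ℕ → V → RF (Ix V) := fun k v => co k (some v)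

theorem good_ga (d : ℕ) (U : Finset V) : Good d U (ga V) := by
  apply good_of_minors
  intro k _ e he _
  exact det_mg_ne_zero (g := fun j => some (e j)) ((Option.some_injective V).comp he)

/-- the contribution of a facet. -/
noncomputable def tF (δ : RF (Ix V)) (Y : V → RF (Ix V)) (F : Finset V) (J : Multiset V) :
    RF (Ix V) :=
  if J.toFinset ⊆ F then δ * ∏ v ∈ F, Y v ^ ((J.count v : ℤ) - 1) else 0

theorem exists_lam (d : ℕ) (σ : Finset V) (hσ : σ.card + 1 ≤ d) (v : V) (hv : v ∈ σ) :
    ∃ lam : ℕ → RF (Ix V), ∑ k ∈ Finset.range d, lam k * co k none = 0 ∧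
      (∀ w ∈ σ, w ≠ v → ∑ k ∈ Finset.range d, lam k * co k (some w) = 0) ∧
      ∑ k ∈ Finset.range d, lam k * co k (some v) = 1 := by
  classical
  let n := σ.card
  let e : Fin n → V := fun j => ((σ.equivFinOfCardEq rfl).symm j).1
  have he : Function.Injective e :=
    Subtype.val_injective.comp (σ.equivFinOfCardEq rfl).symm.injective
  have hσe : ∀ v ∈ σ, ∃ j, e j = v := by
    intro v hv
    refine ⟨σ.equivFinOfCardEq rfl ⟨v, hv⟩, ?_⟩
    simp [e]
  let g : Fin (n + 1) → Option V := Fin.cons none (fun j => some (e j))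
  have hg : Function.Injective g := by
    rw [Fin.cons_injective_iff]
    refine ⟨?_, (Option.some_injective V).comp he⟩
    rintro ⟨j, hj⟩
    simp at hj
  have hdet := det_mg_ne_zero hg
  have hu : IsUnit (mg g).det := isUnit_iff_ne_zero.mpr hdet
  obtain ⟨j, hj⟩ := hσe v hv
  set lam : ℕ → RF (Ix V) := fun k => if h : k < n + 1 then (mg g)⁻¹ j.succ ⟨k, h⟩ else 0 with hlam
  have hkey : ∀ l : Fin (n + 1), ∑ k ∈ Finset.range d, lam k * co k (g l) =
      if j.succ = l then 1 else 0 := by
    intro l
    have h1 : ∑ k ∈ Finset.range d, lam k * co k (g l) =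
        ∑ k ∈ Finset.range (n + 1), lam k * co k (g l) := by
      symm
      apply Finset.sum_subset
      · intro x hx
        rw [Finset.mem_range] at hx ⊢
        omega
      · intro x _ hx
        rw [Finset.mem_range] at hx
        rw [hlam]
        simp only [hx, dif_neg, not_false_eq_true, zero_mul]
    rw [h1, Finset.sum_range]
    have h2 : ∑ k : Fin (n + 1), lam k * co k (g l) = ((mg g)⁻¹ * mg g) j.succ l := by
      rw [Matrix.mul_apply]
      refine Finset.sum_congr rfl fun k _ => ?_
      rw [hlam]
      simp only [k.isLt, dif_pos]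
      rfl
    rw [h2, Matrix.nonsing_inv_mul _ hu, Matrix.one_apply]
  refine ⟨lam, ?_, ?_, ?_⟩
  · have := hkey 0
    rw [if_neg (Fin.succ_ne_zero j)] at this
    exact this
  · intro w hw hwv
    obtain ⟨i, hi⟩ := hσe w hw
    have := hkey i.succ
    rw [if_neg (by
      intro h
      rw [Fin.succ_inj] at h
      apply hwv
      rw [← hi, ← hj, h])] at this
    have h2 : g i.succ = some w := by
      simp only [g, Fin.cons_succ, hi]
    rw [h2] at this
    exact this
  · have := hkey j.succ
    rw [if_pos rfl] at this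
    have h2 : g j.succ = some v := by
      simp only [g, Fin.cons_succ, hj]
    rw [h2] at this
    exact this

theorem tF_deriv (d : ℕ) (F : Finset V) (δ : RF (Ix V)) (Y : V → RF (Ix V))
    (hδ : δ ≠ 0) (hY : ∀ v ∈ F, Y v ≠ 0)
    (h1 : ∀ k < d, ∀ u ∈ F, ∀ v ∈ F, Dco k (some u) (Y v) = Y u * Dco k none (Y v))
    (h2 : ∀ k < d, ∀ u ∈ F, Dco k (some u) δ = δ * Dco k none (Y u))
    (h3 : ∀ k, ∀ u ∉ F, Dco k (some u) δ = 0 ∧ ∀ v ∈ F, Dco k (some u) (Y v) = 0)
    (h4 : ∀ k, Dco k none δ = 0)
    (h5 : appD d (fun k : Fin d => Dco (k : ℕ) none) (∏ v ∈ F, Y v) = δ)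
    (I : Fin d → V) (J N : Multiset V) (hIJ : J + Multiset.map I Finset.univ.val = N + N) :
    appD d (fun k : Fin d => Dco (k : ℕ) (some (I k))) (tF δ Y F J) = (tF δ Y F N) ^ 2 := by
  have hcount : ∀ v, J.count v + (Multiset.map I Finset.univ.val).count v =
      N.count v + N.count v := by
    intro v
    rw [← Multiset.count_add, ← Multiset.count_add, hIJ]
  have hN0 : ∀ v, v ∉ F → 0 < J.count v + (Multiset.map I Finset.univ.val).count v →
      tF δ Y F N = 0 := by
    intro v hv hpos
    unfold tF
    rw [if_neg]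
    intro hsub
    apply hv
    apply hsub
    rw [Multiset.mem_toFinset, ← Multiset.count_pos]
    have := hcount v
    omega
  by_cases hJ : J.toFinset ⊆ F
  · by_cases hI : ∀ k, I k ∈ F
    · have hNF : N.toFinset ⊆ F := by
        intro v hv
        by_contra hvF
        rw [Multiset.mem_toFinset, ← Multiset.count_pos] at hv
        have h6 := hcount v
        have h7 : J.count v = 0 := by
          rw [Multiset.count_eq_zero]
          intro h
          exact hvF (hJ (Multiset.mem_toFinset.mpr h))
        have h8 : (Multiset.map I Finset.univ.val).count v = 0 := by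
          rw [Multiset.count_eq_zero]
          intro h
          obtain ⟨k, _, hk⟩ := Multiset.mem_map.mp h
          exact hvF (hk ▸ hI k)
        omega
      unfold tF
      rw [if_pos hJ, if_pos hNF]
      rw [iter_formula d (fun k : Fin d => Dco (k : ℕ) (some (I k)))
        (fun k : Fin d => Dco (k : ℕ) none) (fun k => Y (I k)) δ
        (∏ v ∈ F, Y v ^ ((J.count v : ℤ) - 1)) (fun k => h2 k k.isLt _ (hI k))
        (fun k => h4 k) (fun k l => h1 k k.isLt _ (hI k) _ (hI l))
        (fun k => good_prod _ _ (fun v hv => good_zpow (h1 k k.isLt _ (hI k) v hv) _))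
        (fun k l x => Dco_comm _ _ _ _ _) (fun k l x => Dco_comm _ _ _ _ _)]
      have h6 : ∏ k, Y (I k) =
          ∏ v ∈ F, Y v ^ ((Multiset.map I Finset.univ.val).count v) := by
        have h7 := Finset.prod_multiset_map_count (Multiset.map I Finset.univ.val) Y
        rw [Multiset.map_map] at h7
        have h8 : ∏ k, Y (I k) = (Multiset.map (Y ∘ I) Finset.univ.val).prod := rfl
        rw [h8, h7]
        apply Finset.prod_subset
        · intro v hv
          rw [Multiset.mem_toFinset] at hv
          obtain ⟨k, _, hk⟩ := Multiset.mem_map.mp hv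
          exact hk ▸ hI k
        · intro v _ hv
          rw [Multiset.mem_toFinset] at hv
          rw [Multiset.count_eq_zero_of_notMem hv, pow_zero]
      have h9 : (∏ k, Y (I k)) * ∏ v ∈ F, Y v ^ ((J.count v : ℤ) - 1) =
          (∏ v ∈ F, Y v ^ ((N.count v : ℤ) - 1)) ^ 2 * ∏ v ∈ F, Y v := by
        rw [h6, ← Finset.prod_mul_distrib, ← Finset.prod_pow, ← Finset.prod_mul_distrib]
        refine Finset.prod_congr rfl fun v hv => ?_
        have hYv := hY v hv
        rw [← zpow_natCast, ← zpow_natCast, ← zpow_mul, ← zpow_add₀ hYv, ← zpow_add_one₀ hYv]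
        congr 1
        have := hcount v
        push_cast
        omega
      rw [h9, appD_const_mul _ _ _ _ (fun k => h4 k),
        appD_const_mul _ _ _ _ (fun k => der_sq _ _), h5]
      ring
    · push Not at hI
      obtain ⟨k, hk⟩ := hI
      rw [hN0 (I k) hk (by
        have : 0 < (Multiset.map I Finset.univ.val).count (I k) := by
          rw [Multiset.count_pos]
          exact Multiset.mem_map_of_mem _ (Finset.mem_univ_val k)
        omega), zero_pow two_ne_zero]
      apply appD_eq_zero _ _ _ (fun k l y => Dco_comm _ _ _ _ _) k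
      unfold tF
      rw [if_pos hJ]
      have h6 := h3 k (I k) hk
      rw [Derivation.leibniz, h6.1, smul_zero, add_zero, der_prod, Finset.sum_eq_zero, smul_zero]
      intro v hv
      rw [Derivation.leibniz_zpow, h6.2 v hv, smul_zero, smul_zero, zero_mul]
  · have : ∃ v ∈ J.toFinset, v ∉ F := by
      by_contra h
      push Not at h
      exact hJ h
    obtain ⟨v, hv, hvF⟩ := this
    rw [hN0 v hvF (by
      rw [Multiset.mem_toFinset, ← Multiset.count_pos] at hv
      omega), zero_pow two_ne_zero]
    have : tF δ Y F J = 0 := by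
      unfold tF
      rw [if_neg hJ]
    rw [this, appD_zero_arg]

section Main

variable {d : ℕ} {Δ : Finset (Finset V)} {U : Finset V}

/-- the sum of the contributions of all facets. -/
noncomputable def tT (d : ℕ) (Δ : Finset (Finset V)) (δ : Finset V → RF (Ix V))
    (Y : Finset V → V → RF (Ix V)) (J : Multiset V) : RF (Ix V) :=
  ∑ F ∈ Δ.filter (fun F => F.card = d), tF (δ F) (Y F) F J

theorem tT_cons (hU : ∀ τ ∈ Δ, τ ⊆ U) (δ : Finset V → RF (Ix V))
    (Y : Finset V → V → RF (Ix V))
    (hY : ∀ F : Finset V, F.card = d → ∀ v ∈ F, Y F v ≠ 0)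
    (hsum : ∀ F : Finset V, F.card = d → ∀ k < d,
      ∑ v ∈ F, co k (some v) * Y F v = co k none) (k : ℕ) (hk : k < d) (M : Multiset V) :
    ∑ v ∈ U, co k (some v) * tT d Δ δ Y (v ::ₘ M) = co k none * tT d Δ δ Y M := by
  unfold tT
  simp only [Finset.mul_sum]
  rw [Finset.sum_comm]
  refine Finset.sum_congr rfl fun F hF => ?_
  rw [Finset.mem_filter] at hF
  have hFU := hU F hF.1
  rw [← Finset.sum_subset hFU]
  · unfold tF
    by_cases hM : M.toFinset ⊆ F
    · rw [if_pos hM, ← hsum F hF.2 k hk, Finset.sum_mul]
      refine Finset.sum_congr rfl fun v hv => ?_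
      rw [if_pos (by
        rw [Multiset.toFinset_cons]
        exact Finset.insert_subset hv hM)]
      have h1 : ∏ w ∈ F, Y F w ^ (((v ::ₘ M).count w : ℤ) - 1) =
          Y F v * ∏ w ∈ F, Y F w ^ ((M.count w : ℤ) - 1) := by
        rw [← Finset.mul_prod_erase F _ hv, ← Finset.mul_prod_erase F _ hv, ← mul_assoc]
        congr 1
        · rw [Multiset.count_cons_self, ← zpow_one_add₀ (hY F hF.2 v hv)]
          congr 1
          push_cast
          ring
        · refine Finset.prod_congr rfl fun w hw => ?_
          rw [Multiset.count_cons_of_ne (Finset.ne_of_mem_erase hw)]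
      rw [h1]
      ring
    · rw [if_neg hM, mul_zero]
      apply Finset.sum_eq_zero
      intro v _
      rw [if_neg, mul_zero]
      intro h
      apply hM
      rw [Multiset.toFinset_cons] at h
      exact (Finset.subset_insert _ _).trans h
  · intro v _ hv
    unfold tF
    rw [if_neg, mul_zero]
    intro h
    apply hv
    apply h
    rw [Multiset.toFinset_cons]
    exact Finset.mem_insert_self _ _

theorem tT_zero (hΔ : IsCx Δ) (hU : ∀ τ ∈ Δ, τ ⊆ U)
    (hridge : ∀ σ ∈ Δ, σ.card + 1 = d → ∃ v w, v ≠ w ∧ v ∉ σ ∧ w ∉ σ ∧ insert v σ ∈ Δ ∧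
      insert w σ ∈ Δ ∧ ∀ x, x ∉ σ → insert x σ ∈ Δ → x = v ∨ x = w)
    (δ : Finset V → RF (Ix V)) (Y : Finset V → V → RF (Ix V))
    (hδ : ∀ F : Finset V, F.card = d → δ F ≠ 0)
    (hY : ∀ F : Finset V, F.card = d → ∀ v ∈ F, Y F v ≠ 0)
    (hsum : ∀ F : Finset V, F.card = d → ∀ k < d,
      ∑ v ∈ F, co k (some v) * Y F v = co k none)
    (hR : ∀ F : Finset V, F.card = d → ∀ v ∈ F, Rr d (F.erase v) = Y F v * (δ F)⁻¹) (n : ℕ) :
    ∀ J : Multiset V, Multiset.card J + 1 = d → J.toFinset.card + n + 1 = d →
      tT d Δ δ Y J = 0 := by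
  induction n with
  | zero =>
    intro J hJ hJ'
    have hnd : J.Nodup := Multiset.toFinset_card_eq_card_iff_nodup.mp (by omega)
    obtain ⟨σ, rfl⟩ : ∃ σ : Finset V, J = σ.val := ⟨⟨J, hnd⟩, rfl⟩
    rw [Finset.val_toFinset] at hJ'
    by_cases hσ : σ ∈ Δ
    · obtain ⟨v, w, hvw, hv, hw, hvσ, hwσ, hall⟩ := hridge σ hσ (by omega)
      have hcv : (insert v σ).card = d := by
        rw [Finset.card_insert_of_notMem hv]
        omega
      have hcw : (insert w σ).card = d := by
        rw [Finset.card_insert_of_notMem hw]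
        omega
      have hval : ∀ u, u ∉ σ → (insert u σ).card = d →
          tF (δ (insert u σ)) (Y (insert u σ)) (insert u σ) σ.val = (Rr d σ)⁻¹ := by
        intro u hu hcu
        unfold tF
        rw [if_pos (by
          rw [Finset.val_toFinset]
          exact Finset.subset_insert _ _), Finset.prod_insert hu]
        have h1 : ∏ x ∈ σ, Y (insert u σ) x ^ ((σ.val.count x : ℤ) - 1) = 1 := by
          apply Finset.prod_eq_one
          intro x hx
          have : σ.val.count x = 1 := Multiset.count_eq_one_of_mem σ.nodup hx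
          rw [this]
          simp
        have h2 : σ.val.count u = 0 := Multiset.count_eq_zero_of_notMem hu
        have h3 := hR _ hcu u (Finset.mem_insert_self _ _)
        rw [Finset.erase_insert hu] at h3
        rw [h1, h2, h3]
        simp only [Nat.cast_zero, zero_sub, mul_one, mul_inv, inv_inv, zpow_neg, zpow_one]
        ring
      have hne : insert v σ ≠ insert w σ := by
        intro h
        have : v ∈ insert w σ := h ▸ Finset.mem_insert_self _ _
        rw [Finset.mem_insert] at this
        rcases this with h' | h'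
        · exact hvw h'
        · exact hv h'
      unfold tT
      have h4 : ∑ F ∈ Δ.filter (fun F => F.card = d), tF (δ F) (Y F) F σ.val =
          ∑ F ∈ {insert v σ, insert w σ}, tF (δ F) (Y F) F σ.val := by
        symm
        apply Finset.sum_subset
        · intro F hF
          rw [Finset.mem_insert, Finset.mem_singleton] at hF
          rw [Finset.mem_filter]
          rcases hF with rfl | rfl
          · exact ⟨hvσ, hcv⟩
          · exact ⟨hwσ, hcw⟩
        · intro F hF hF'
          rw [Finset.mem_filter] at hF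
          unfold tF
          rw [if_neg]
          intro hsub
          rw [Finset.val_toFinset] at hsub
          have h5 : (F \ σ).card = 1 := by
            rw [Finset.card_sdiff_of_subset hsub]
            omega
          obtain ⟨x, hx⟩ := Finset.card_eq_one.mp h5
          have hxm : x ∈ F \ σ := by
            rw [hx]
            exact Finset.mem_singleton_self x
          rw [Finset.mem_sdiff] at hxm
          have h6 : F = insert x σ := by
            rw [Finset.insert_eq, ← hx, Finset.sdiff_union_of_subset hsub]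
          rw [h6] at hF hF'
          rcases hall x hxm.2 hF.1 with rfl | rfl
          · simp at hF'
          · simp at hF'
      rw [h4, Finset.sum_pair hne, hval v hv hcv, hval w hw hcw]
      exact CharTwo.add_self_eq_zero _
    · unfold tT
      apply Finset.sum_eq_zero
      intro F hF
      rw [Finset.mem_filter] at hF
      unfold tF
      rw [if_neg]
      intro h
      rw [Finset.val_toFinset] at h
      exact hσ (hΔ.down F hF.1 σ h)
  | succ n ih =>
    intro J hJ hJ'
    have hnd : ¬ J.Nodup := by
      intro h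
      have := Multiset.toFinset_card_eq_card_iff_nodup.mpr h
      omega
    obtain ⟨v, hv⟩ : ∃ v, 2 ≤ J.count v := by
      by_contra h
      push Not at h
      apply hnd
      rw [Multiset.nodup_iff_count_le_one]
      intro a
      have := h a
      omega
    have hvJ : v ∈ J := Multiset.count_pos.mp (by omega)
    obtain ⟨M, rfl⟩ := Multiset.exists_cons_of_mem hvJ
    rw [Multiset.count_cons_self] at hv
    have hvM : v ∈ M := Multiset.count_pos.mp (by omega)
    rw [Multiset.card_cons] at hJ
    have hsupp : (v ::ₘ M).toFinset = M.toFinset := by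
      rw [Multiset.toFinset_cons, Finset.insert_eq_of_mem (Multiset.mem_toFinset.mpr hvM)]
    rw [hsupp] at hJ'
    by_cases hvU : v ∈ U
    · obtain ⟨lam, hl1, hl2, hl3⟩ := exists_lam d M.toFinset (by omega) v
        (Multiset.mem_toFinset.mpr hvM)
      have h1 : ∑ k ∈ Finset.range d, lam k * (co k none * tT d Δ δ Y M) = 0 := by
        simp only [← mul_assoc]
        rw [← Finset.sum_mul, hl1, zero_mul]
      have h2 : ∑ k ∈ Finset.range d, lam k * (co k none * tT d Δ δ Y M) =
          ∑ u ∈ U, (∑ k ∈ Finset.range d, lam k * co k (some u)) *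
            tT d Δ δ Y (u ::ₘ M) := by
        simp only [Finset.sum_mul]
        rw [Finset.sum_comm]
        refine Finset.sum_congr rfl fun k hk => ?_
        rw [← tT_cons hU δ Y hY hsum k (Finset.mem_range.mp hk) M, Finset.mul_sum]
        refine Finset.sum_congr rfl fun u _ => ?_
        ring
      rw [h2, Finset.sum_eq_single v] at h1
      · rw [hl3, one_mul] at h1
        exact h1
      · intro u _ huv
        by_cases huM : u ∈ M.toFinset
        · rw [hl2 u huM huv, zero_mul]
        · rw [ih (u ::ₘ M), mul_zero]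
          · rw [Multiset.card_cons]
            exact hJ
          · rw [Multiset.toFinset_cons, Finset.card_insert_of_notMem huM]
            omega
      · intro h
        exact absurd hvU h
    · unfold tT
      apply Finset.sum_eq_zero
      intro F hF
      rw [Finset.mem_filter] at hF
      unfold tF
      rw [if_neg]
      intro h
      exact hvU (hU F hF.1 (h (by simp)))

theorem exists_omega (hΔ : IsCx Δ) (hU : ∀ τ ∈ Δ, τ ⊆ U)
    (hridge : ∀ σ ∈ Δ, σ.card + 1 = d → ∃ v w, v ≠ w ∧ v ∉ σ ∧ w ∉ σ ∧ insert v σ ∈ Δ ∧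
      insert w σ ∈ Δ ∧ ∀ x, x ∉ σ → insert x σ ∈ Δ → x = v ∨ x = w) :
    ∃ ω : Multiset V → RF (Ix V), ω ∈ WS (RF (Ix V)) Δ d ∧
      (∀ i < d, th U (ga V i) ω = 0) ∧
      (∀ F ∈ Δ, F.card = d → ω F.val ≠ 0) ∧
      (∀ u J, Dtv u (ω J) = 0) ∧
      (∀ (I : Fin d → V) (J N : Multiset V), Multiset.card J = d → Multiset.card N = d →
        J + Multiset.map I Finset.univ.val = N + N →
        appD d (fun k : Fin d => Dco (k : ℕ) (some (I k))) (ω J) = (ω N) ^ 2) := by
  classical
  choose! δ Y h1 h2 h3 h4 h5 h6 h7 h8 h9 h10 using fun (F : Finset V) => facet_data d F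
  refine ⟨fun J => if Multiset.card J = d then tT d Δ δ Y J else 0, ?_, ?_, ?_, ?_, ?_⟩
  · intro J hJ
    simp only at hJ
    by_cases hc : Multiset.card J = d
    · rw [if_pos hc] at hJ
      unfold tT at hJ
      obtain ⟨F, hF, hne⟩ := Finset.exists_ne_zero_of_sum_ne_zero hJ
      rw [Finset.mem_filter] at hF
      unfold tF at hne
      split_ifs at hne with hsub
      · exact ⟨hΔ.down F hF.1 _ hsub, hc⟩
      · exact absurd rfl hne
    · rw [if_neg hc] at hJ
      exact absurd rfl hJ
  · intro i hi
    funext M
    rw [th_apply]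
    by_cases hM : Multiset.card M + 1 = d
    · have h11 : ∑ v ∈ U, ga V i v * (if Multiset.card (v ::ₘ M) = d then
          tT d Δ δ Y (v ::ₘ M) else 0) = ∑ v ∈ U, co i (some v) * tT d Δ δ Y (v ::ₘ M) := by
        refine Finset.sum_congr rfl fun v _ => ?_
        rw [if_pos (by rw [Multiset.card_cons]; exact hM)]
        rfl
      rw [h11, tT_cons hU δ Y h2 h3 i hi M]
      obtain ⟨n, hn⟩ : ∃ n, M.toFinset.card + n + 1 = d := by
        have := Multiset.toFinset_card_le M
        exact ⟨d - 1 - M.toFinset.card, by omega⟩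
      rw [tT_zero hΔ hU hridge δ Y h1 h2 h3 h10 n M hM hn, mul_zero]
      rfl
    · apply Finset.sum_eq_zero
      intro v _
      rw [if_neg (by rw [Multiset.card_cons]; exact hM), mul_zero]
  · intro F hF hFd
    have hc : Multiset.card F.val = d := hFd
    simp only [hc, if_true]
    unfold tT
    rw [Finset.sum_eq_single F]
    · unfold tF
      rw [if_pos (by rw [Finset.val_toFinset])]
      apply mul_ne_zero (h1 F hFd)
      rw [Finset.prod_ne_zero_iff]
      intro v hv
      exact zpow_ne_zero _ (h2 F hFd v hv)
    · intro F' hF' hne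
      rw [Finset.mem_filter] at hF'
      unfold tF
      rw [if_neg]
      intro h
      rw [Finset.val_toFinset] at h
      exact hne (Finset.eq_of_subset_of_card_le h (by omega)).symm
    · intro h
      exact absurd (Finset.mem_filter.mpr ⟨hF, hFd⟩) h
  · intro u J
    simp only
    split_ifs with hc
    · unfold tT
      rw [map_sum]
      apply Finset.sum_eq_zero
      intro F hF
      rw [Finset.mem_filter] at hF
      unfold tF
      split_ifs with hsub
      · have h11 := h8 F hF.2 u
        rw [Derivation.leibniz, h11.1, smul_zero, add_zero, der_prod, Finset.sum_eq_zero,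
          smul_zero]
        intro v hv
        rw [Derivation.leibniz_zpow, h11.2 v hv, smul_zero, smul_zero, zero_mul]
      · exact map_zero _
    · exact map_zero _
  · intro I J N hJ hN hIJ
    simp only [hJ, hN, if_true]
    unfold tT
    rw [appD_sum, CharTwo.sum_sq]
    refine Finset.sum_congr rfl fun F hF => ?_
    rw [Finset.mem_filter] at hF
    exact tF_deriv d F (δ F) (Y F) (h1 F hF.2) (h2 F hF.2) (h4 F hF.2) (h5 F hF.2) (h6 F hF.2)
      (h7 F hF.2) (h9 F hF.2) I J N hIJ

end Main

end Pool.Agent.MPfdde87
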