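import Pool.Agent.Lib.MP_fdde87_co.RegMain

/-!
All stresses are contractions of the fundamental stress (dual form of Poincare duality).
-/

namespace Pool.Agent.MPfdde87

variable {K V : Type*} [Field K] [DecidableEq V]

/-- independence of the coordinate columns. -/
theorem good_indep (d : ℕ) : ∀ (U : Finset V) (a : ℕ → V → K), Good d U a → ∀ F ⊆ U,
    F.card ≤ d → ∀ x : V → K, (∀ i < d, ∑ v ∈ F, a i v * x v = 0) → ∀ v ∈ F, x v = 0 := by
  induction d with
  | zero =>
    intro U a _ F _ hF x _ v hv
    have : F = ∅ := Finset.card_eq_zero.mp (by omega)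
    simp [this] at hv
  | succ d ih =>
    intro U a hg F hFU hF x hx v hv
    have main : ∀ v ∈ F, ∀ w ∈ F.erase v, x w = 0 := by
      intro v hv
      obtain ⟨h0, hg'⟩ := hg v (hFU hv)
      apply ih (U.erase v) (proj a v) hg' (F.erase v) (Finset.erase_subset_erase v hFU)
      · rw [Finset.card_erase_of_mem hv]
        omega
      · intro i hi
        have h1 := hx (i + 1) (by omega)
        have h2 := hx 0 (by omega)
        rw [← Finset.add_sum_erase _ _ hv] at h1 h2
        have h3 : ∑ w ∈ F.erase v, proj a v i w * x w =
            ∑ w ∈ F.erase v, a (i + 1) w * x w -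
              a (i + 1) v / a 0 v * ∑ w ∈ F.erase v, a 0 w * x w := by
          rw [Finset.mul_sum, ← Finset.sum_sub_distrib]
          refine Finset.sum_congr rfl fun w _ => ?_
          unfold proj
          ring
        rw [h3]
        have h4 : ∑ w ∈ F.erase v, a 0 w * x w = - (a 0 v * x v) := by
          linear_combination h2
        have h5 : ∑ w ∈ F.erase v, a (i + 1) w * x w = - (a (i + 1) v * x v) := by
          linear_combination h1
        rw [h4, h5]
        field_simp
        ring
    by_cases hcard : ∃ w ∈ F, w ≠ v
    · obtain ⟨w, hw, hwv⟩ := hcard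
      exact main w hw v (Finset.mem_erase.mpr ⟨hwv.symm, hv⟩)
    · push Not at hcard
      have h1 := hx 0 (by omega)
      have h2 : F = {v} := by
        ext y
        rw [Finset.mem_singleton]
        exact ⟨fun h => hcard y h, fun h => h ▸ hv⟩
      rw [h2, Finset.sum_singleton] at h1
      exact (mul_eq_zero.mp h1).resolve_left (hg v (hFU hv)).1

/-- contraction by a monomial. -/
def ctr (K : Type*) [Field K] (L : Multiset V) : (Multiset V → K) →ₗ[K] (Multiset V → K) where
  toFun g := fun M => g (L + M)
  map_add' _ _ := rfl
  map_smul' _ _ := rfl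

theorem ctr_apply (L : Multiset V) (g : Multiset V → K) (M : Multiset V) :
    ctr K L g M = g (L + M) := rfl

theorem th_ctr (U : Finset V) (α : V → K) (L : Multiset V) (g : Multiset V → K) :
    th U α (ctr K L g) = ctr K L (th U α g) := by
  funext M
  rw [ctr_apply, th_apply, th_apply]
  refine Finset.sum_congr rfl fun v _ => ?_
  rw [ctr_apply, Multiset.add_cons]

variable {U : Finset V} {Δ : Finset (Finset V)} {d : ℕ}

theorem exists_ext (hac : CMAc K U Δ d) {σ : Finset V} (hσ : σ ∈ Δ)
    (hcard : σ.card < d) : ∃ v ∉ σ, insert v σ ∈ Δ := by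
  obtain ⟨c', h1, h2⟩ := hac σ hσ 0 (by omega) (fun ρ => if ρ = ∅ then 1 else 0) (by
    intro ρ h
    by_cases hρ : ρ = ∅
    · subst hρ
      refine ⟨⟨Finset.disjoint_empty_left _, ?_⟩, Finset.card_empty⟩
      rw [Finset.empty_union]
      exact hσ
    · simp [hρ] at h) (by
    intro ρ
    apply Finset.sum_eq_zero
    intro v _
    rw [if_neg (Finset.insert_ne_empty _ _)])
  have h3 := h2 ∅
  rw [if_pos rfl] at h3
  obtain ⟨v, hv, hne⟩ := Finset.exists_ne_zero_of_sum_ne_zero (by rw [h3]; exact one_ne_zero)
  obtain ⟨⟨h4, h5⟩, -⟩ := h1 _ hne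
  rw [Finset.disjoint_insert_left] at h4
  refine ⟨v, h4.1, ?_⟩
  rw [Finset.insert_union, Finset.empty_union] at h5
  exact h5

theorem exists_facet (hac : CMAc K U Δ d) (n : ℕ) : ∀ σ ∈ Δ, σ.card + n = d →
    ∃ F ∈ Δ, σ ⊆ F ∧ F.card = d := by
  induction n with
  | zero =>
    intro σ hσ h
    exact ⟨σ, hσ, Finset.Subset.refl _, by omega⟩
  | succ n ih =>
    intro σ hσ h
    obtain ⟨v, hv, hvσ⟩ := exists_ext hac hσ (by omega)
    obtain ⟨F, hF, hsub, hcard⟩ := ih (insert v σ) hvσ (by
      rw [Finset.card_insert_of_notMem hv]
      omega)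
    exact ⟨F, hF, (Finset.subset_insert _ _).trans hsub, hcard⟩

/-- connectivity of links. -/
theorem link_connected [CharP K 2] (hU : ∀ τ ∈ Δ, τ ⊆ U) {σ : Finset V}
    (hac1 : AcycAt K U (LinkP Δ σ) 1) (lam : V → K)
    (hedge : ∀ x y, x ≠ y → x ∉ σ → y ∉ σ → insert x (insert y σ) ∈ Δ → lam x = lam y)
    {v w : V} (hv : v ∉ σ) (hw : w ∉ σ) (hvσ : insert v σ ∈ Δ) (hwσ : insert w σ ∈ Δ) :
    lam v = lam w := by
  by_cases hvw : v = w
  · rw [hvw]
  have hvU : v ∈ U := hU _ hvσ (Finset.mem_insert_self _ _)
  have hwU : w ∈ U := hU _ hwσ (Finset.mem_insert_self _ _)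
  have hsing : ∀ (x : V) (ρ : Finset V), insert x ρ = ({v} : Finset V) → x ∉ ρ → x = v ∧ ρ = ∅ := by
    intro x ρ h hx
    have h1 : x ∈ ({v} : Finset V) := h ▸ Finset.mem_insert_self _ _
    rw [Finset.mem_singleton] at h1
    refine ⟨h1, ?_⟩
    rw [Finset.eq_empty_iff_forall_notMem]
    intro y hy
    have h2 : y ∈ ({v} : Finset V) := h ▸ Finset.mem_insert_of_mem hy
    rw [Finset.mem_singleton] at h2
    apply hx
    rw [h1, ← h2]
    exact hy
  have hsing' : ∀ (x : V) (ρ : Finset V), insert x ρ = ({w} : Finset V) → x ∉ ρ → x = w ∧ ρ = ∅ := by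
    intro x ρ h hx
    have h1 : x ∈ ({w} : Finset V) := h ▸ Finset.mem_insert_self _ _
    rw [Finset.mem_singleton] at h1
    refine ⟨h1, ?_⟩
    rw [Finset.eq_empty_iff_forall_notMem]
    intro y hy
    have h2 : y ∈ ({w} : Finset V) := h ▸ Finset.mem_insert_of_mem hy
    rw [Finset.mem_singleton] at h2
    apply hx
    rw [h1, ← h2]
    exact hy
  set c : Finset V → K := fun ρ => (if ρ = {v} then 1 else 0) + (if ρ = {w} then 1 else 0) with hc
  obtain ⟨c', h1, h2⟩ := hac1 c (by
    intro ρ h
    by_cases hρv : ρ = {v}
    · subst hρv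
      refine ⟨⟨Finset.disjoint_singleton_left.mpr hv, ?_⟩, Finset.card_singleton _⟩
      rw [← Finset.insert_eq]
      exact hvσ
    · by_cases hρw : ρ = {w}
      · subst hρw
        refine ⟨⟨Finset.disjoint_singleton_left.mpr hw, ?_⟩, Finset.card_singleton _⟩
        rw [← Finset.insert_eq]
        exact hwσ
      · exfalso
        apply h
        simp [hc, hρv, hρw]) (by
    intro ρ
    simp only [hc]
    rw [Finset.sum_add_distrib]
    by_cases hρ : ρ = ∅
    · subst hρ
      simp only [insert_empty_eq, Finset.sdiff_empty, Finset.singleton_inj]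
      rw [Finset.sum_ite_eq' , Finset.sum_ite_eq', if_pos hvU, if_pos hwU]
      exact CharTwo.add_self_eq_zero _
    · rw [Finset.sum_eq_zero, Finset.sum_eq_zero, add_zero]
      · intro x hx
        rw [if_neg]
        intro h
        exact hρ (hsing' x ρ h (Finset.mem_sdiff.mp hx).2).2
      · intro x hx
        rw [if_neg]
        intro h
        exact hρ (hsing x ρ h (Finset.mem_sdiff.mp hx).2).2)
  -- pair with lam
  have h3 : ∑ x ∈ U, lam x * c {x} = lam v + lam w := by
    simp only [hc, Finset.singleton_inj, mul_add, mul_ite, mul_one, mul_zero]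
    rw [Finset.sum_add_distrib, Finset.sum_ite_eq', Finset.sum_ite_eq', if_pos hvU, if_pos hwU]
  have h4 : ∑ x ∈ U, lam x * c {x} = 0 := by
    have h5 : ∑ x ∈ U, lam x * c {x} =
        ∑ p ∈ (U ×ˢ U).filter (fun p => p.1 ≠ p.2), lam p.1 * c' {p.2, p.1} := by
      rw [Finset.sum_filter, Finset.sum_product]
      refine Finset.sum_congr rfl fun x hx => ?_
      rw [← h2 {x}, Finset.mul_sum, ← Finset.sum_filter]
      refine Finset.sum_congr ?_ fun y _ => rfl
      ext y
      simp only [Finset.mem_sdiff, Finset.mem_singleton, Finset.mem_filter, ne_eq]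
      tauto
    rw [h5]
    refine Finset.sum_involution (fun p _ => (p.2, p.1)) ?_ ?_ ?_ ?_
    · intro p hp
      simp only
      rw [Finset.mem_filter] at hp
      rw [Finset.pair_comm p.1 p.2, ← add_mul]
      by_cases hz : c' {p.2, p.1} = 0
      · rw [hz, mul_zero]
      · obtain ⟨⟨h6, h7⟩, -⟩ := h1 _ hz
        rw [Finset.disjoint_insert_left, Finset.disjoint_singleton_left] at h6
        rw [Finset.insert_union, ← Finset.insert_eq] at h7
        have := hedge p.2 p.1 (fun h => hp.2 h.symm) h6.1 h6.2 h7
        rw [this, CharTwo.add_self_eq_zero, zero_mul]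
    · intro p hp _ h
      rw [Finset.mem_filter] at hp
      exact hp.2 (congrArg Prod.fst h).symm
    · intro p hp
      simp only [Finset.mem_filter, Finset.mem_product, ne_eq] at hp ⊢
      exact ⟨⟨hp.1.2, hp.1.1⟩, fun h => hp.2 h.symm⟩
    · intro p hp
      rfl
  rw [h3] at h4
  have h5 : lam w + lam w = 0 := CharTwo.add_self_eq_zero _
  linear_combination h4 - h5

theorem stress_span [CharP K 2] (hΔ : IsCx Δ) (hU : ∀ τ ∈ Δ, τ ⊆ U) (a : ℕ → V → K)
    (hgood : Good d U a) (hac : CMAc K U Δ d) (hcard : ∀ τ ∈ Δ, τ.card ≤ d)
    (hridge : ∀ σ ∈ Δ, σ.card + 1 = d → ∃ v w, v ≠ w ∧ v ∉ σ ∧ w ∉ σ ∧ insert v σ ∈ Δ ∧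
      insert w σ ∈ Δ ∧ ∀ x, x ∉ σ → insert x σ ∈ Δ → x = v ∨ x = w)
    (ω : Multiset V → K) (hω1 : ω ∈ WS K Δ d) (hω2 : ∀ i < d, th U (a i) ω = 0)
    (hω3 : ∀ F ∈ Δ, F.card = d → ω F.val ≠ 0) (n : ℕ) :
    ∀ σ ∈ Δ, σ.card + n = d → ∀ m ≤ n, ∀ g ∈ WS K (star Δ σ) m,
      (∀ i < d, th U (a i) g = 0) →
      g ∈ Submodule.span K {h | ∃ L : Multiset V, Multiset.card L + m = n ∧
        h = ctr K (σ.val + L) ω} := by
  induction n with
  | zero =>
    intro σ hσ hσd m hm g hg hg0
    have hm0 : m = 0 := by omega
    subst hm0
    have h1 : ω σ.val ≠ 0 := hω3 σ hσ (by omega)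
    have h2 : g = (g 0 / ω σ.val) • ctr K (σ.val + 0) ω := by
      funext M
      rw [Pi.smul_apply, ctr_apply, smul_eq_mul, add_zero]
      by_cases hM : M = 0
      · subst hM
        rw [add_zero]
        field_simp
      · have h3 : g M = 0 := by
          by_contra h
          exact hM (Multiset.card_eq_zero.mp (hg M h).2)
        have h4 : ω (σ.val + M) = 0 := by
          by_contra h
          have := (hω1 _ h).2
          rw [Multiset.card_add] at this
          have h5 : Multiset.card σ.val = σ.card := rfl
          rw [h5] at this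
          exact hM (Multiset.card_eq_zero.mp (by omega))
        rw [h3, h4, mul_zero]
    rw [h2]
    apply Submodule.smul_mem
    apply Submodule.subset_span
    exact ⟨0, by simp, rfl⟩
  | succ n ih =>
    intro σ hσ hσd m hm g hg hg0
    -- the induction hypothesis, rephrased for `insert v σ`
    have ih' : ∀ v, v ∉ σ → insert v σ ∈ Δ → ∀ m ≤ n, ∀ g ∈ WS K (star Δ (insert v σ)) m,
        (∀ i < d, th U (a i) g = 0) →
        g ∈ Submodule.span K {h | ∃ L : Multiset V, Multiset.card L + m = n ∧
          h = ctr K (v ::ₘ (σ.val + L)) ω} := by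
      intro v hv hvσ m hm g hg hg0
      have := ih (insert v σ) hvσ (by
        rw [Finset.card_insert_of_notMem hv]
        omega) m hm g hg hg0
      rw [Finset.insert_val_of_notMem hv] at this
      simpa only [Multiset.cons_add] using this
    by_cases hmn : m < n + 1
    · -- lower degrees: lift along the star complex
      obtain ⟨G', hG', hG'0, hG'b⟩ := stress_lift (σ := σ) hΔ hU a (n + 1) d (by omega)
        (fun s hs => hac σ hσ s (by omega))
        (fun ρ hρ _ hρσ i hi m => star_reg hΔ hU hgood hac hρσ
          (hρ.mono Finset.subset_union_left) i hi m)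
        m hmn (fun ρ => if ρ = ∅ then g else 0) (by
          rw [mem_BS]
          constructor
          · intro ρ M hne
            by_cases hρ : ρ = ∅
            · subst hρ
              simp only [if_true] at hne
              obtain ⟨h1, h2⟩ := hg M hne
              rw [mem_star' hΔ, Finset.union_comm] at h1
              refine ⟨Finset.disjoint_empty_left _, Finset.card_empty, ?_, h2⟩
              rw [Finset.empty_union]
              exact h1
            · simp [hρ] at hne
          · funext ρ M
            rw [bd_apply]
            apply Finset.sum_eq_zero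
            intro v hv
            rw [if_neg (Finset.insert_ne_empty _ _)]
            rfl) (by
          intro i hi
          funext ρ
          rw [thC_apply]
          by_cases hρ : ρ = ∅
          · rw [if_pos hρ]
            exact hg0 i hi
          · rw [if_neg hρ, map_zero]
            rfl)
      have h1 : g = ∑ v ∈ U, G' {v} := by
        have h2 := congrFun hG'b ∅
        rw [if_pos rfl] at h2
        rw [← h2]
        funext M
        rw [bd_apply, Finset.sdiff_empty, Finset.sum_apply]
        rfl
      rw [h1]
      apply Submodule.sum_mem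
      intro v hv
      by_cases hz : G' {v} = 0
      · rw [hz]
        exact Submodule.zero_mem _
      · have : ∃ M, G' {v} M ≠ 0 := by
          by_contra h
          push Not at h
          exact hz (funext h)
        obtain ⟨M₀, hM₀⟩ := this
        obtain ⟨h3, h4, h5, h6⟩ := hG' _ _ hM₀
        rw [Finset.disjoint_singleton_left] at h3
        have h7 : insert v σ ∈ Δ := by
          refine hΔ.down _ h5 _ ?_
          rw [Finset.insert_eq]
          exact Finset.subset_union_left
        have h8 := ih' v h3 h7 m (by omega) (G' {v}) (by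
          intro M hM
          obtain ⟨-, -, h9, h10⟩ := hG' _ _ hM
          rw [mem_star' hΔ, Finset.union_comm, Finset.insert_eq]
          exact ⟨h9, h10⟩) (fun i hi => congrFun (hG'0 i hi) {v})
        refine Submodule.span_mono ?_ h8
        rintro h ⟨L, hL, rfl⟩
        refine ⟨v ::ₘ L, ?_, ?_⟩
        · rw [Multiset.card_cons]
          omega
        · rw [Multiset.add_cons]
    · -- top degree
      have hm' : m = n + 1 := by omega
      subst hm'
      have hlam : ∀ v, v ∉ σ → insert v σ ∈ Δ → ∃ lam : K, ∀ M,
          g (v ::ₘ M) = lam * ω (v ::ₘ (σ.val + M)) := by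
        intro v hv hvσ
        have h1 := ih' v hv hvσ n le_rfl (ctr K {v} g) (by
          intro M hM
          rw [ctr_apply, Multiset.singleton_add] at hM
          obtain ⟨h2, h3⟩ := hg _ hM
          rw [Multiset.card_cons] at h3
          rw [mem_star' hΔ, Multiset.toFinset_cons] at h2
          rw [mem_star' hΔ, Finset.union_insert]
          rw [Finset.insert_union] at h2
          exact ⟨h2, by omega⟩) (by
          intro i hi
          rw [th_ctr, hg0 i hi, map_zero])
        have h2 : {h | ∃ L : Multiset V, Multiset.card L + n = n ∧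
            h = ctr K (v ::ₘ (σ.val + L)) ω} = {ctr K (v ::ₘ σ.val) ω} := by
          ext h
          rw [Set.mem_ofPred_eq, Set.mem_singleton_iff]
          constructor
          · rintro ⟨L, hL, rfl⟩
            have : L = 0 := Multiset.card_eq_zero.mp (by omega)
            rw [this, add_zero]
          · rintro rfl
            exact ⟨0, by simp, by rw [add_zero]⟩
        rw [h2, Submodule.mem_span_singleton] at h1
        obtain ⟨lam, hl⟩ := h1
        refine ⟨lam, fun M => ?_⟩
        have h3 := congrFun hl M
        rw [Pi.smul_apply, ctr_apply, ctr_apply, smul_eq_mul, Multiset.singleton_add,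
          Multiset.cons_add] at h3
        exact h3.symm
      have hgoal : (∃ lam : K, g = lam • ctr K σ.val ω) →
          g ∈ Submodule.span K {h | ∃ L : Multiset V, Multiset.card L + (n + 1) = n + 1 ∧
            h = ctr K (σ.val + L) ω} := by
        rintro ⟨lam, h⟩
        rw [h]
        apply Submodule.smul_mem
        apply Submodule.subset_span
        exact ⟨0, by simp, by rw [add_zero]⟩
      apply hgoal
      have hσcard : σ.card ≤ d := hcard σ hσ
      have hctr_mem : ctr K σ.val ω ∈ WS K (star Δ σ) (n + 1) := by
        intro M hM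
        rw [ctr_apply] at hM
        obtain ⟨h1, h2⟩ := hω1 _ hM
        rw [Multiset.card_add] at h2
        have h5 : Multiset.card σ.val = σ.card := rfl
        rw [h5] at h2
        rw [Multiset.toFinset_add, Finset.val_toFinset] at h1
        rw [mem_star' hΔ, Finset.union_comm]
        exact ⟨h1, by omega⟩
      -- a common value
      have hcommon : n ≠ 0 → ∃ lam : K, ∀ v, v ∉ σ → insert v σ ∈ Δ → ∀ M,
          g (v ::ₘ M) = lam * ω (v ::ₘ (σ.val + M)) := by
        intro hn0
        classical
        choose! lam hlam' using hlam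
        obtain ⟨v₀, hv₀, hv₀σ⟩ := exists_ext hac hσ (by omega)
        refine ⟨lam v₀, ?_⟩
        intro v hv hvσ M
        rw [hlam' v hv hvσ]
        congr 1
        apply link_connected (K := K) (σ := σ) hU (hac σ hσ 1 (by omega)) lam ?_ hv hv₀ hvσ hv₀σ
        intro x y hxy hx hy hxyσ
        have hyΔ : insert y σ ∈ Δ := hΔ.down _ hxyσ _ (Finset.subset_insert _ _)
        have hxΔ : insert x σ ∈ Δ := hΔ.down _ hxyσ _
          (Finset.insert_subset_insert _ (Finset.subset_insert _ _))
        have hcard2 : (insert x (insert y σ)).card = σ.card + 2 := by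
          rw [Finset.card_insert_of_notMem, Finset.card_insert_of_notMem hy]
          rw [Finset.mem_insert, not_or]
          exact ⟨hxy, hx⟩
        obtain ⟨F, hF, hsub, hFcard⟩ := exists_facet hac (n - 1) _ hxyσ (by
          rw [hcard2]
          omega)
        obtain ⟨M, hM⟩ : ∃ M, x ::ₘ y ::ₘ (σ.val + M) = F.val := by
          have h1 : (insert x (insert y σ)).val ≤ F.val := Finset.val_le_iff.mpr hsub
          obtain ⟨M, hM⟩ := Multiset.le_iff_exists_add.mp h1
          refine ⟨M, ?_⟩
          rw [hM, Finset.insert_val_of_notMem, Finset.insert_val_of_notMem hy,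
            Multiset.cons_add, Multiset.cons_add]
          rw [Finset.mem_insert, not_or]
          exact ⟨hxy, hx⟩
        have h1 := hlam' x hx hxΔ (y ::ₘ M)
        have h2 := hlam' y hy hyΔ (x ::ₘ M)
        rw [Multiset.cons_swap, h2, Multiset.add_cons, Multiset.add_cons,
          Multiset.cons_swap, hM] at h1
        have h3 := hω3 F hF hFcard
        exact (mul_right_cancel₀ h3 h1).symm
      by_cases hn0 : n = 0
      · -- ridge case
        subst hn0
        obtain ⟨v, w, hvw, hv, hw, hvσ, hwσ, hall⟩ := hridge σ hσ (by omega)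
        obtain ⟨lam, hlam1⟩ := hlam v hv hvσ
        refine ⟨lam, ?_⟩
        set g1 := g - lam • ctr K σ.val ω with hg1
        have hg1mem : g1 ∈ WS K (star Δ σ) 1 :=
          Submodule.sub_mem _ hg (Submodule.smul_mem _ _ hctr_mem)
        have hg1th : ∀ i < d, th U (a i) g1 = 0 := by
          intro i hi
          rw [hg1, map_sub, map_smul, hg0 i hi, th_ctr, hω2 i hi, map_zero, smul_zero, sub_zero]
        have hg1v : g1 {v} = 0 := by
          rw [hg1, Pi.sub_apply, Pi.smul_apply, ctr_apply, smul_eq_mul]
          have := hlam1 0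
          rw [Multiset.cons_zero, add_zero] at this
          rw [this, add_comm σ.val, Multiset.singleton_add, sub_self]
        have hind := good_indep d U a hgood (insert w σ) (hU _ hwσ) (hcard _ hwσ)
          (fun u => g1 {u}) (by
            intro i hi
            have h1 := congrFun (hg1th i hi) 0
            rw [th_apply] at h1
            simp only [Multiset.cons_zero] at h1
            rw [← Finset.sum_subset (hU _ hwσ)] at h1
            · exact h1
            · intro u hu hu'
              have : g1 {u} = 0 := by
                by_contra hne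
                obtain ⟨h2, h3⟩ := hg1mem _ hne
                rw [mem_star' hΔ, Multiset.toFinset_singleton, ← Finset.insert_eq] at h2
                rw [Finset.mem_insert, not_or] at hu'
                rcases hall u hu'.2 h2 with rfl | rfl
                · exact hne hg1v
                · exact hu'.1 rfl
              rw [this, mul_zero])
        have hg1z : g1 = 0 := by
          funext M
          by_contra hne
          obtain ⟨h2, h3⟩ := hg1mem _ hne
          obtain ⟨u, rfl⟩ := Multiset.card_eq_one.mp h3
          by_cases hu : u ∈ insert w σ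
          · exact hne (hind u hu)
          · rw [Finset.mem_insert, not_or] at hu
            rw [mem_star' hΔ, Multiset.toFinset_singleton, ← Finset.insert_eq] at h2
            rcases hall u hu.2 h2 with rfl | rfl
            · exact hne hg1v
            · exact hu.1 rfl
        rw [hg1, sub_eq_zero] at hg1z
        exact hg1z
      · obtain ⟨lam, hlam1⟩ := hcommon hn0
        refine ⟨lam, ?_⟩
        set g1 := g - lam • ctr K σ.val ω with hg1
        have hg1mem : g1 ∈ WS K (star Δ σ) (n + 1) :=
          Submodule.sub_mem _ hg (Submodule.smul_mem _ _ hctr_mem)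
        have hg1th : ∀ i < d, th U (a i) g1 = 0 := by
          intro i hi
          rw [hg1, map_sub, map_smul, hg0 i hi, th_ctr, hω2 i hi, map_zero, smul_zero, sub_zero]
        have hg1v : ∀ v M, v ∉ σ → g1 (v ::ₘ M) = 0 := by
          intro v M hv
          by_contra hne
          obtain ⟨h2, h3⟩ := hg1mem _ hne
          rw [mem_star' hΔ, Multiset.toFinset_cons] at h2
          have hvσ : insert v σ ∈ Δ := by
            refine hΔ.down _ h2 _ ?_
            apply Finset.insert_subset
            · exact Finset.mem_union_left _ (Finset.mem_insert_self _ _)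
            · exact Finset.subset_union_right
          apply hne
          rw [hg1, Pi.sub_apply, Pi.smul_apply, ctr_apply, smul_eq_mul, hlam1 v hv hvσ,
            Multiset.add_cons, sub_self]
        have hg1z : g1 = 0 := by
          funext M
          by_contra hne
          obtain ⟨h2, h3⟩ := hg1mem _ hne
          obtain ⟨u, huM⟩ := Multiset.card_pos_iff_exists_mem.mp
            (show 0 < Multiset.card M by omega)
          obtain ⟨M', rfl⟩ := Multiset.exists_cons_of_mem huM
          have hu : u ∈ σ := by
            by_contra hu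
            exact hne (hg1v u M' hu)
          apply hne
          have hind := good_indep d U a hgood σ (hU _ hσ) (hcard _ hσ)
            (fun u => g1 (u ::ₘ M')) (by
              intro i hi
              have h1 := congrFun (hg1th i hi) M'
              rw [th_apply] at h1
              rw [← Finset.sum_subset (hU _ hσ)] at h1
              · exact h1
              · intro x hx hx'
                rw [hg1v x M' hx', mul_zero])
          exact hind u hu
        rw [hg1, sub_eq_zero] at hg1z
        exact hg1z

end Pool.Agent.MPfdde87
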