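import Mathlib

/-!
Graded modules with lowering operators: the `dual` form of regular sequences.
-/

namespace Pool.Agent.MPfdde87

section Abstract

variable {K X X' : Type*} [Field K] [AddCommGroup X] [Module K X] [AddCommGroup X'] [Module K X']

/-- regularity of the `i`-th lowering operator in degree `m` (dual form). -/
def RegAt (T : ℕ → X →ₗ[K] X) (W : ℕ → Submodule K X) (i m : ℕ) : Prop :=
  ∀ g ∈ W m, (∀ j < i, T j g = 0) → ∃ g' ∈ W (m + 1), (∀ j < i, T j g' = 0) ∧ T i g' = g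

theorem exists_lift {T : ℕ → X →ₗ[K] X} {T' : ℕ → X' →ₗ[K] X'} {W Z : ℕ → Submodule K X}
    {W' : ℕ → Submodule K X'} (π : X →ₗ[K] X')
    (hcomm : ∀ i j g, T i (T j g) = T j (T i g))
    (hπ : ∀ i g, π (T i g) = T' i (π g))
    (hT : ∀ i m, ∀ g ∈ W (m + 1), T i g ∈ W m)
    (hT0 : ∀ i, ∀ g ∈ W 0, T i g = 0)
    (hZ : ∀ m g, g ∈ Z m ↔ g ∈ W m ∧ π g = 0)
    (hsurj : ∀ m, ∀ g' ∈ W' m, ∃ g ∈ W m, π g = g')
    (i m : ℕ) (hreg : ∀ j < i, ∀ m', m = m' + 1 → RegAt T Z j m')
    (g' : X') (hg' : g' ∈ W' m) (hg'0 : ∀ j < i, T' j g' = 0) :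
    ∃ g ∈ W m, (∀ j < i, T j g = 0) ∧ π g = g' := by
  induction i with
  | zero =>
    obtain ⟨g, hg, rfl⟩ := hsurj m g' hg'
    exact ⟨g, hg, by simp, rfl⟩
  | succ i ih =>
    obtain ⟨g, hg, hg0, hgπ⟩ := ih (fun j hj => hreg j (by omega)) (fun j hj => hg'0 j (by omega))
    cases m with
    | zero =>
      refine ⟨g, hg, ?_, hgπ⟩
      intro j hj
      exact hT0 j g hg
    | succ m' =>
      have h1 : T i g ∈ Z m' := by
        rw [hZ]
        refine ⟨hT i m' g hg, ?_⟩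
        rw [hπ, hgπ]
        exact hg'0 i (by omega)
      obtain ⟨h, hhZ, hh0, hhi⟩ := hreg i (by omega) m' rfl (T i g) h1 (by
        intro j hj
        rw [hcomm, hg0 j hj, map_zero])
      rw [hZ] at hhZ
      refine ⟨g - h, Submodule.sub_mem _ hg hhZ.1, ?_, ?_⟩
      · intro j hj
        rcases Nat.lt_succ_iff_lt_or_eq.mp hj with h' | rfl
        · rw [map_sub, hg0 j h', hh0 j h', sub_zero]
        · rw [map_sub, hhi, sub_self]
      · rw [map_sub, hgπ, hhZ.2, sub_zero]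

theorem regAt_of_lift {T : ℕ → X →ₗ[K] X} {T' : ℕ → X' →ₗ[K] X'} {W Z : ℕ → Submodule K X}
    {W' : ℕ → Submodule K X'} (π : X →ₗ[K] X')
    (hcomm : ∀ i j g, T i (T j g) = T j (T i g))
    (hπ : ∀ i g, π (T i g) = T' i (π g))
    (hT : ∀ i m, ∀ g ∈ W (m + 1), T i g ∈ W m)
    (hT0 : ∀ i, ∀ g ∈ W 0, T i g = 0)
    (hZ : ∀ m g, g ∈ Z m ↔ g ∈ W m ∧ π g = 0)
    (hsurj : ∀ m, ∀ g' ∈ W' m, ∃ g ∈ W m, π g = g')
    (hπW : ∀ m, ∀ g ∈ W m, π g ∈ W' m)
    (i m : ℕ) (hregW : RegAt T W i m) (hreg : ∀ j < i, ∀ m', m = m' + 1 → RegAt T Z j m') :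
    RegAt T' W' i m := by
  intro g' hg' hg'0
  obtain ⟨g, hg, hg0, hgπ⟩ := exists_lift π hcomm hπ hT hT0 hZ hsurj i m hreg g' hg' hg'0
  obtain ⟨f, hf, hf0, hfi⟩ := hregW g hg hg0
  refine ⟨π f, hπW _ f hf, ?_, ?_⟩
  · intro j hj
    rw [← hπ, hf0 j hj, map_zero]
  · rw [← hπ, hfi, hgπ]

end Abstract

section Ops

variable {K V : Type*} [Field K] [DecidableEq V]

/-- contraction with the linear form with coefficients `α` (variables in `U`). -/
def th (U : Finset V) (α : V → K) : (Multiset V → K) →ₗ[K] (Multiset V → K) where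
  toFun g := fun M => ∑ v ∈ U, α v * g (v ::ₘ M)
  map_add' g h := by
    funext M
    simp [mul_add, Finset.sum_add_distrib]
  map_smul' c g := by
    funext M
    simp only [Pi.smul_apply, smul_eq_mul, RingHom.id_apply, Finset.mul_sum]
    exact Finset.sum_congr rfl fun v _ => by ring

theorem th_apply (U : Finset V) (α : V → K) (g : Multiset V → K) (M : Multiset V) :
    th U α g M = ∑ v ∈ U, α v * g (v ::ₘ M) := rfl

theorem th_comm (U : Finset V) (α β : V → K) (g : Multiset V → K) :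
    th U α (th U β g) = th U β (th U α g) := by
  funext M
  simp only [th_apply, Finset.mul_sum]
  rw [Finset.sum_comm]
  refine Finset.sum_congr rfl fun v _ => Finset.sum_congr rfl fun w _ => ?_
  rw [Multiset.cons_swap]
  ring

/-- functions on the monomials of degree `m` whose support is a face of `Γ`. -/
def WS (K : Type*) [Field K] (Γ : Finset (Finset V)) (m : ℕ) : Submodule K (Multiset V → K) where
  carrier := {g | ∀ M, g M ≠ 0 → M.toFinset ∈ Γ ∧ Multiset.card M = m}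
  zero_mem' := by
    intro M hM
    simp at hM
  add_mem' := by
    intro f g hf hg M hM
    by_cases h : f M = 0
    · apply hg
      intro h'
      apply hM
      simp [h, h']
    · exact hf M h
  smul_mem' := by
    intro c f hf M hM
    apply hf
    intro h
    apply hM
    simp [h]

theorem mem_WS {Γ : Finset (Finset V)} {m : ℕ} {g : Multiset V → K} :
    g ∈ WS K Γ m ↔ ∀ M, g M ≠ 0 → M.toFinset ∈ Γ ∧ Multiset.card M = m := Iff.rfl

/-- a family of finite sets closed under subsets and containing the empty set. -/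
structure IsCx (Γ : Finset (Finset V)) : Prop where
  empty_mem : ∅ ∈ Γ
  down : ∀ s ∈ Γ, ∀ t, t ⊆ s → t ∈ Γ

theorem th_mem_WS {Γ : Finset (Finset V)} (hΓ : IsCx Γ) (U : Finset V) (α : V → K) {m : ℕ}
    {g : Multiset V → K} (hg : g ∈ WS K Γ (m + 1)) : th U α g ∈ WS K Γ m := by
  intro M hM
  rw [th_apply] at hM
  obtain ⟨v, hv, hne⟩ := Finset.exists_ne_zero_of_sum_ne_zero hM
  have h1 : g (v ::ₘ M) ≠ 0 := right_ne_zero_of_mul hne
  obtain ⟨h2, h3⟩ := hg _ h1
  refine ⟨hΓ.down _ h2 _ ?_, ?_⟩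
  · rw [Multiset.toFinset_cons]
    exact Finset.subset_insert _ _
  · rw [Multiset.card_cons] at h3
    omega

theorem th_WS_zero {Γ : Finset (Finset V)} (U : Finset V) (α : V → K)
    {g : Multiset V → K} (hg : g ∈ WS K Γ 0) : th U α g = 0 := by
  funext M
  rw [th_apply]
  apply Finset.sum_eq_zero
  intro v hv
  have : g (v ::ₘ M) = 0 := by
    by_contra h
    have := (hg _ h).2
    simp at this
  simp [this]

end Ops

end Pool.Agent.MPfdde87
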