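import Pool.Agent.Lib.MP_fdde87_co.Cech

/-!
The regularity theorem (dual form of the Cohen-Macaulay property).
-/

namespace Pool.Agent.MPfdde87

variable {K V : Type*} [Field K] [DecidableEq V]

theorem sum_sdiff_erase {U : Finset V} {v : V} {c : Finset V → K}
    (h : ∀ ρ, c (insert v ρ) = 0) (ρ : Finset V) :
    ∑ w ∈ U.erase v \ ρ, c (insert w ρ) = ∑ w ∈ U \ ρ, c (insert w ρ) := by
  have h1 : U.erase v \ ρ = (U \ ρ).erase v := by
    ext x
    simp only [Finset.mem_sdiff, Finset.mem_erase]
    tauto
  rw [h1]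
  exact Finset.sum_erase _ (h ρ)

theorem acyc_erase {U : Finset V} {v : V} {P : Finset V → Prop} {s : ℕ}
    (hP : ∀ ρ, P ρ → v ∉ ρ) (h : AcycAt K U P s) : AcycAt K (U.erase v) P s := by
  intro c hc hcyc
  have hz : ∀ c : Finset V → K, ∀ t, (∀ ρ, c ρ ≠ 0 → P ρ ∧ ρ.card = t) →
      ∀ ρ, c (insert v ρ) = 0 := by
    intro c t hc ρ
    by_contra hne
    exact hP _ (hc _ hne).1 (Finset.mem_insert_self _ _)
  obtain ⟨c', h1, h2⟩ := h c hc (by
    intro ρ
    rw [← sum_sdiff_erase (hz c s hc)]
    exact hcyc ρ)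
  refine ⟨c', h1, ?_⟩
  intro ρ
  rw [sum_sdiff_erase (hz c' (s + 1) h1)]
  exact h2 ρ

/-- The Cohen-Macaulay hypothesis on a complex. -/
def CMAc (K : Type*) [Field K] (U : Finset V) (Δ : Finset (Finset V)) (d : ℕ) : Prop :=
  ∀ σ ∈ Δ, ∀ s, s + σ.card < d → AcycAt K U (LinkP Δ σ) s

theorem star_reg_of [CharP K 2] (d : ℕ)
    (IH : ∀ (U : Finset V) (Δ : Finset (Finset V)) (a : ℕ → V → K), IsCx Δ → (∀ τ ∈ Δ, τ ⊆ U) →
      Good d U a → CMAc K U Δ d → ∀ i < d, ∀ m, RegAt (fun i => th U (a i)) (WS K Δ) i m)
    {U : Finset V} {Δ : Finset (Finset V)} {a : ℕ → V → K} (hΔ : IsCx Δ) (hU : ∀ τ ∈ Δ, τ ⊆ U)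
    (hgood : Good (d + 1) U a) (hac : CMAc K U Δ (d + 1)) {τ : Finset V} (hτ : τ ∈ Δ)
    (hne : τ.Nonempty) :
    ∀ i < d + 1, ∀ m, RegAt (fun i => th U (a i)) (WS K (star Δ τ)) i m := by
  obtain ⟨v, hv⟩ := hne
  have hvU : v ∈ U := hU τ hτ hv
  have hstar := isCx_star hΔ hτ
  obtain ⟨h0, hgood'⟩ := hgood v hvU
  have hΛcx : IsCx ((star Δ τ).filter (fun μ => v ∉ μ)) := by
    constructor
    · rw [Finset.mem_filter]
      exact ⟨hstar.empty_mem, by simp⟩
    · intro s hs t hts
      rw [Finset.mem_filter] at hs ⊢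
      exact ⟨hstar.down _ hs.1 _ hts, fun h => hs.2 (hts h)⟩
  refine cone_reg (Λ := (star Δ τ).filter (fun μ => v ∉ μ)) hstar hvU a ?_ ?_ h0 d ?_
  · intro μ hμ
    rw [mem_star' hΔ] at hμ ⊢
    rw [Finset.insert_union, Finset.insert_eq_of_mem]
    · exact hμ
    · exact Finset.mem_union_right _ hv
  · intro μ
    rw [Finset.mem_filter]
  · refine IH (U.erase v) _ (proj a v) hΛcx ?_ hgood' ?_
    · intro μ hμ x hx
      rw [Finset.mem_filter, mem_star] at hμ
      rw [Finset.mem_erase]
      refine ⟨?_, hU _ hμ.1.1 hx⟩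
      rintro rfl
      exact hμ.2 hx
    · intro σ' hσ' s hs
      rw [Finset.mem_filter, mem_star' hΔ] at hσ'
      obtain ⟨hσ'1, hσ'2⟩ := hσ'
      by_cases hsub : τ.erase v ⊆ σ'
      · have hτsub : τ ⊆ insert v σ' := by
          intro x hx
          by_cases hxv : x = v
          · simp [hxv]
          · exact Finset.mem_insert_of_mem (hsub (Finset.mem_erase.mpr ⟨hxv, hx⟩))
        have heq : LinkP ((star Δ τ).filter (fun μ => v ∉ μ)) σ' = LinkP Δ (insert v σ') := by
          funext ρ
          apply propext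
          simp only [LinkP, Finset.mem_filter]
          rw [mem_star' hΔ]
          constructor
          · rintro ⟨h1, h2, h3⟩
            rw [Finset.mem_union, not_or] at h3
            refine ⟨?_, ?_⟩
            · rw [Finset.disjoint_insert_right]
              exact ⟨h3.1, h1⟩
            · refine hΔ.down _ h2 _ ?_
              intro x hx
              rw [Finset.mem_union, Finset.mem_insert] at hx
              rcases hx with h | rfl | h
              · exact Finset.mem_union_left _ (Finset.mem_union_left _ h)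
              · exact Finset.mem_union_right _ hv
              · exact Finset.mem_union_left _ (Finset.mem_union_right _ h)
          · rintro ⟨h1, h2⟩
            rw [Finset.disjoint_insert_right] at h1
            refine ⟨h1.2, hΔ.down _ h2 _ ?_, ?_⟩
            · intro x hx
              rw [Finset.mem_union, Finset.mem_union] at hx
              rcases hx with (h | h) | h
              · exact Finset.mem_union_left _ h
              · exact Finset.mem_union_right _ (Finset.mem_insert_of_mem h)
              · exact Finset.mem_union_right _ (hτsub h)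
            · rw [Finset.mem_union, not_or]
              exact ⟨h1.1, hσ'2⟩
        rw [heq]
        apply acyc_erase
        · rintro ρ ⟨h1, h2⟩
          rw [Finset.disjoint_insert_right] at h1
          exact h1.1
        · apply hac
          · refine hΔ.down _ hσ'1 _ ?_
            intro x hx
            rw [Finset.mem_insert] at hx
            rcases hx with rfl | h
            · exact Finset.mem_union_right _ hv
            · exact Finset.mem_union_left _ h
          · rw [Finset.card_insert_of_notMem hσ'2]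
            omega
      · obtain ⟨u, hu, huσ⟩ := Finset.not_subset.mp hsub
        rw [Finset.mem_erase] at hu
        apply coneAcyc (u := u)
        · rw [Finset.mem_erase]
          exact ⟨hu.1, hU τ hτ hu.2⟩
        · rintro ρ ⟨h1, h2⟩
          rw [Finset.mem_filter, mem_star' hΔ] at h2
          refine ⟨?_, ?_⟩
          · rw [Finset.disjoint_insert_left]
            exact ⟨huσ, h1⟩
          · rw [Finset.mem_filter, mem_star' hΔ]
            refine ⟨?_, ?_⟩
            · rw [Finset.insert_union, Finset.insert_union, Finset.insert_eq_of_mem]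
              · exact h2.1
              · exact Finset.mem_union_right _ hu.2
            · rw [Finset.insert_union, Finset.mem_insert, not_or]
              exact ⟨fun h => hu.1 h.symm, h2.2⟩

/-- transfer from the cycles of size `0` to functions on monomials. -/
theorem regAt_WS_of_BS {U : Finset V} {Δ : Finset (Finset V)} {σ : Finset V} (hΔ : IsCx Δ)
    (a : ℕ → V → K) {i m : ℕ}
    (h : RegAt (fun i => thC U (a i)) (BS K U Δ σ 0) i m) :
    RegAt (fun i => th U (a i)) (WS K (star Δ σ)) i m := by
  intro g hg hg0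
  obtain ⟨G', hG', hG'0, hG'i⟩ := h (fun ρ => if ρ = ∅ then g else 0) (by
    rw [mem_BS]
    constructor
    · intro ρ M hne
      by_cases hρ : ρ = ∅
      · subst hρ
        simp only [if_true] at hne
        obtain ⟨h1, h2⟩ := hg M hne
        rw [mem_star' hΔ, Finset.union_comm] at h1
        refine ⟨Finset.disjoint_empty_left _, Finset.card_empty, ?_, h2⟩
        rw [Finset.empty_union]
        exact h1
      · simp [hρ] at hne
    · funext ρ M
      rw [bd_apply]
      apply Finset.sum_eq_zero
      intro v hv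
      rw [if_neg (Finset.insert_ne_empty _ _)]
      rfl) (by
    intro j hj
    funext ρ
    rw [thC_apply]
    by_cases hρ : ρ = ∅
    · rw [if_pos hρ]
      exact hg0 j hj
    · rw [if_neg hρ, map_zero]
      rfl)
  rw [mem_BS] at hG'
  refine ⟨G' ∅, ?_, ?_, ?_⟩
  · intro M hne
    obtain ⟨h1, h2, h3, h4⟩ := hG'.1 _ _ hne
    rw [mem_star' hΔ, Finset.union_comm]
    rw [Finset.empty_union] at h3
    exact ⟨h3, h4⟩
  · intro j hj
    exact congrFun (hG'0 j hj) ∅
  · have := congrFun hG'i ∅
    rw [if_pos rfl] at this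
    exact this

theorem star_empty {Δ : Finset (Finset V)} : star Δ ∅ = Δ := by
  ext μ
  rw [mem_star, Finset.union_empty]
  exact and_self_iff

theorem reg_main [CharP K 2] (d : ℕ) : ∀ (U : Finset V) (Δ : Finset (Finset V)) (a : ℕ → V → K),
    IsCx Δ → (∀ τ ∈ Δ, τ ⊆ U) → Good d U a → CMAc K U Δ d →
    ∀ i < d, ∀ m, RegAt (fun i => th U (a i)) (WS K Δ) i m := by
  induction d with
  | zero =>
    intro U Δ a _ _ _ _ i hi
    omega
  | succ d ih =>
    intro U Δ a hΔ hU hgood hac i hi m
    have h1 : RegAt (fun i => thC U (a i)) (BS K U Δ ∅ 0) i m := by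
      refine regAt_BS (σ := ∅) hΔ hU a (d + 1) (d + 1) ?_ ?_ (d + 1) 0 (by omega) i hi m
        (Or.inl hi)
      · intro s hs
        exact hac ∅ hΔ.empty_mem s (by simpa using hs)
      · intro ρ hρ _ hρΔ i hi m
        rw [Finset.union_empty] at hρΔ ⊢
        exact star_reg_of d ih hΔ hU hgood hac hρΔ hρ i hi m
    have h2 := regAt_WS_of_BS hΔ a h1
    rwa [star_empty] at h2

theorem star_reg [CharP K 2] {d : ℕ} {U : Finset V} {Δ : Finset (Finset V)} {a : ℕ → V → K}
    (hΔ : IsCx Δ) (hU : ∀ τ ∈ Δ, τ ⊆ U)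
    (hgood : Good d U a) (hac : CMAc K U Δ d) {τ : Finset V} (hτ : τ ∈ Δ)
    (hne : τ.Nonempty) :
    ∀ i < d, ∀ m, RegAt (fun i => th U (a i)) (WS K (star Δ τ)) i m := by
  cases d with
  | zero =>
    intro i hi
    omega
  | succ d => exact star_reg_of d (reg_main d) hΔ hU hgood hac hτ hne

end Pool.Agent.MPfdde87
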