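import Pool.Agent.Lib.MP_fdde87_co.Main

/-!
Sanity check: the boundary of the simplex is a homology sphere in the sense of the definition.
-/

namespace Pool.Agent.MPfdde87

theorem mem_simplexBoundary (d : ℕ) (s : Finset (Fin (d + 1))) :
    s ∈ simplexBoundary d ↔ s.card ≤ d := by
  rw [simplexBoundary, Finset.mem_ssubsets]
  constructor
  · intro h
    have := Finset.card_lt_card h
    rw [Finset.card_univ, Fintype.card_fin] at this
    omega
  · intro h
    refine Finset.ssubset_iff_subset_ne.mpr ⟨Finset.subset_univ _, ?_⟩
    rintro rfl
    rw [Finset.card_univ, Fintype.card_fin] at h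
    omega

theorem simplexBoundary_sphere (d : ℕ) : IsHomologySphere d (simplexBoundary d) := by
  refine ⟨simplexBoundary_empty d, simplexBoundary_down d, ?_, ?_, ?_⟩
  · intro σ hσ
    exact (mem_simplexBoundary d σ).mp hσ
  · intro σ hσ s hs z hz hz0
    have hex : ∃ u, u ∉ σ := by
      by_contra h
      push Not at h
      have h2 : σ = Finset.univ := by
        ext x
        simp [h x]
      rw [h2, Finset.card_univ, Fintype.card_fin] at hs
      omega
    obtain ⟨u, hu⟩ := hex
    refine ⟨fun ρ => if u ∈ ρ then z (ρ.erase u) else 0, ?_, ?_⟩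
    · intro ρ hρ
      simp only at hρ
      split_ifs at hρ with h
      · obtain ⟨h1, h2, h3⟩ := hz _ hρ
        have hρe : ρ = insert u (ρ.erase u) := (Finset.insert_erase h).symm
        have hcard : ρ.card = s + 1 := by
          rw [hρe, Finset.card_insert_of_notMem (Finset.notMem_erase _ _), h3]
        refine ⟨?_, ?_, hcard⟩
        · rw [hρe, Finset.disjoint_insert_left]
          exact ⟨hu, h1⟩
        · rw [mem_simplexBoundary]
          have := Finset.card_union_le ρ σ
          omega
      · exact absurd rfl hρ
    · funext ρ
      unfold bdry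
      by_cases h : u ∈ ρ
      · have h1 := congrFun hz0 (ρ.erase u)
        unfold bdry at h1
        have h2 : (ρ.erase u)ᶜ = insert u ρᶜ := by
          ext x
          simp only [Finset.mem_compl, Finset.mem_erase, Finset.mem_insert]
          tauto
        rw [h2, Finset.sum_insert (by simp [h]), Finset.insert_erase h] at h1
        have h3 : ∑ v ∈ ρᶜ, (if u ∈ insert v ρ then z ((insert v ρ).erase u) else 0) =
            ∑ v ∈ ρᶜ, z (insert v (ρ.erase u)) := by
          refine Finset.sum_congr rfl fun v hv => ?_
          rw [Finset.mem_compl] at hv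
          rw [if_pos (Finset.mem_insert_of_mem h), Finset.erase_insert_of_ne]
          rintro rfl
          exact hv h
        rw [h3]
        have h4 : z ρ + z ρ = 0 := CharTwo.add_self_eq_zero _
        simp only [Pi.zero_apply] at h1
        linear_combination h1 - h4
      · rw [Finset.sum_eq_single u]
        · simp only
          rw [if_pos (Finset.mem_insert_self _ _), Finset.erase_insert h]
        · intro v _ hvu
          simp only
          rw [if_neg]
          rw [Finset.mem_insert, not_or]
          exact ⟨fun h' => hvu h'.symm, h⟩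
        · intro h'
          exact absurd (Finset.mem_compl.mpr h) h'
  · intro σ hσ
    rw [mem_simplexBoundary] at hσ
    have hcompl : σᶜ.card = d - σ.card + 1 := by
      rw [Finset.card_compl, Fintype.card_fin]
      omega
    -- link chains of top size
    have hchar : ∀ ρ : Finset (Fin (d + 1)), (Disjoint ρ σ ∧ ρ ∪ σ ∈ simplexBoundary d ∧
        ρ.card = d - σ.card) ↔ (Disjoint ρ σ ∧ ρ.card = d - σ.card) := by
      intro ρ
      constructor
      · exact fun h => ⟨h.1, h.2.2⟩
      · rintro ⟨h1, h2⟩
        refine ⟨h1, ?_, h2⟩
        rw [mem_simplexBoundary, Finset.card_union_of_disjoint h1]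
        omega
    refine ⟨fun ρ => if Disjoint ρ σ ∧ ρ.card = d - σ.card then 1 else 0, ⟨?_, ?_, ?_⟩, ?_⟩
    · intro ρ hρ
      simp only at hρ
      split_ifs at hρ with h
      · exact (hchar ρ).mpr h
      · exact absurd rfl hρ
    · funext ρ
      unfold bdry
      simp only [Pi.zero_apply]
      by_cases h : Disjoint ρ σ ∧ ρ.card + 1 = d - σ.card
      · have h1 : ∀ v ∈ ρᶜ, (if Disjoint (insert v ρ) σ ∧ (insert v ρ).card = d - σ.card
            then (1 : ZMod 2) else 0) = if v ∉ σ then 1 else 0 := by
          intro v hv
          rw [Finset.mem_compl] at hv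
          congr 1
          rw [Finset.disjoint_insert_left, Finset.card_insert_of_notMem hv]
          simp only [eq_iff_iff]
          constructor
          · exact fun h => h.1.1
          · exact fun h' => ⟨⟨h', h.1⟩, h.2⟩
        rw [Finset.sum_congr rfl h1, Finset.sum_ite, Finset.sum_const_zero, add_zero,
          Finset.sum_const, nsmul_eq_mul, mul_one]
        have h2 : (ρᶜ.filter (fun v => v ∉ σ)).card = 2 := by
          have h3 : ρᶜ.filter (fun v => v ∉ σ) = (ρ ∪ σ)ᶜ := by
            ext x
            simp only [Finset.mem_filter, Finset.mem_compl, Finset.mem_union]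
            tauto
          rw [h3, Finset.card_compl, Fintype.card_fin, Finset.card_union_of_disjoint h.1]
          omega
        rw [h2]
        decide
      · apply Finset.sum_eq_zero
        intro v hv
        rw [Finset.mem_compl] at hv
        rw [if_neg]
        rw [Finset.disjoint_insert_left, Finset.card_insert_of_notMem hv]
        exact fun h' => h ⟨h'.1.2, h'.2⟩
    · intro h
      obtain ⟨u, hu⟩ : σᶜ.Nonempty := by
        rw [← Finset.card_pos]
        omega
      have h1 := congrFun h (σᶜ.erase u)
      simp only [Pi.zero_apply] at h1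
      rw [if_pos] at h1
      · exact one_ne_zero h1
      · refine ⟨?_, ?_⟩
        · exact disjoint_compl_left.mono_left (Finset.erase_subset _ _)
        · rw [Finset.card_erase_of_mem hu, hcompl]
          omega
    · rintro z ⟨hz1, hz2, hz3⟩
      -- all values on facets agree
      have hfacet : ∀ ρ : Finset (Fin (d + 1)), Disjoint ρ σ → ρ.card = d - σ.card →
          ∃ t ∈ σᶜ, ρ = σᶜ.erase t := by
        intro ρ h1 h2
        have hsub : ρ ⊆ σᶜ := by
          intro x hx
          rw [Finset.mem_compl]
          exact fun h => Finset.disjoint_left.mp h1 hx h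
        have h3 : (σᶜ \ ρ).card = 1 := by
          rw [Finset.card_sdiff_of_subset hsub]
          omega
        obtain ⟨t, ht⟩ := Finset.card_eq_one.mp h3
        have htm : t ∈ σᶜ \ ρ := by
          rw [ht]
          exact Finset.mem_singleton_self _
        rw [Finset.mem_sdiff] at htm
        refine ⟨t, htm.1, ?_⟩
        rw [Finset.erase_eq, ← ht, Finset.sdiff_sdiff_eq_self hsub]
      have hagree : ∀ t ∈ σᶜ, ∀ t' ∈ σᶜ, z (σᶜ.erase t) = z (σᶜ.erase t') := by
        intro t ht t' ht'
        by_cases htt : t = t'
        · rw [htt]
        have h1 := congrFun hz2 ((σᶜ.erase t).erase t')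
        unfold bdry at h1
        simp only [Pi.zero_apply] at h1
        have h2 : ((σᶜ.erase t).erase t')ᶜ = insert t (insert t' σ) := by
          ext x
          simp only [Finset.mem_compl, Finset.mem_erase, Finset.mem_insert]
          tauto
        rw [Finset.mem_compl] at ht ht'
        rw [h2, Finset.sum_insert (by
          rw [Finset.mem_insert, not_or]
          exact ⟨htt, ht⟩), Finset.sum_insert ht'] at h1
        have h3 : ∑ x ∈ σ, z (insert x ((σᶜ.erase t).erase t')) = 0 := by
          apply Finset.sum_eq_zero
          intro x hx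
          by_contra hne
          have := (hz1 _ hne).1
          rw [Finset.disjoint_insert_left] at this
          exact this.1 hx
        have h4 : insert t ((σᶜ.erase t).erase t') = σᶜ.erase t' := by
          rw [Finset.erase_right_comm, Finset.insert_erase]
          rw [Finset.mem_erase, Finset.mem_compl]
          exact ⟨htt, ht⟩
        have h5 : insert t' ((σᶜ.erase t).erase t') = σᶜ.erase t := by
          rw [Finset.insert_erase]
          rw [Finset.mem_erase, Finset.mem_compl]
          exact ⟨fun h => htt h.symm, ht'⟩
        rw [h3, h4, h5, add_zero] at h1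
        have h6 : z (σᶜ.erase t) + z (σᶜ.erase t) = 0 := CharTwo.add_self_eq_zero _
        linear_combination h6 - h1
      have hone : ∀ t ∈ σᶜ, z (σᶜ.erase t) = 1 := by
        obtain ⟨ρ, hρ⟩ : ∃ ρ, z ρ ≠ 0 := by
          by_contra h
          push Not at h
          exact hz3 (funext h)
        obtain ⟨h1, _, h2⟩ := hz1 ρ hρ
        obtain ⟨t₀, ht₀, rfl⟩ := hfacet ρ h1 h2
        have h01 : ∀ x : ZMod 2, x ≠ 0 → x = 1 := by decide
        intro t ht
        rw [hagree t ht t₀ ht₀]
        exact h01 _ hρ
      funext ρ
      split_ifs with h
      · obtain ⟨t, ht, rfl⟩ := hfacet ρ h.1 h.2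
        exact hone t ht
      · by_contra hne
        obtain ⟨h1, _, h2⟩ := hz1 ρ hne
        exact h ⟨h1, h2⟩

end Pool.Agent.MPfdde87
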