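import Pool.Agent.Lib.MP_fdde87_co.Omega

/-!
Symmetry and unimodality of the `h`-vector of a homology sphere.
-/

namespace Pool.Agent.MPfdde87

theorem sum_sym_char_two {K ι : Type*} [Field K] [CharP K 2] [DecidableEq ι] (S : Finset ι)
    (f : ι → ι → K) (hf : ∀ x y, f x y = f y x) :
    ∑ x ∈ S, ∑ y ∈ S, f x y = ∑ x ∈ S, f x x := by
  induction S using Finset.induction_on with
  | empty => simp
  | insert a S ha ih =>
    rw [Finset.sum_insert ha, Finset.sum_insert ha, Finset.sum_insert ha]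
    have h1 : ∑ x ∈ S, ∑ y ∈ insert a S, f x y = ∑ x ∈ S, f a x + ∑ x ∈ S, f x x := by
      rw [← ih, ← Finset.sum_add_distrib]
      refine Finset.sum_congr rfl fun x _ => ?_
      rw [Finset.sum_insert ha, hf x a]
    rw [h1]
    have h2 := CharTwo.add_self_eq_zero (∑ x ∈ S, f a x)
    linear_combination h2

theorem exists_fin_map {V : Type*} {d : ℕ} (I : Multiset V) (hI : Multiset.card I = d) :
    ∃ I' : Fin d → V, Multiset.map I' Finset.univ.val = I := by
  subst hI
  refine ⟨fun k => I.toList.get (k.cast (Multiset.length_toList I).symm), ?_⟩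
  rw [Fin.univ_val_map]
  have : List.ofFn (fun k : Fin (Multiset.card I) =>
      I.toList.get (k.cast (Multiset.length_toList I).symm)) = I.toList := by
    apply List.ext_get
    · simp
    · intro n h1 h2
      simp
  rw [this, Multiset.coe_toList]

theorem exists_le_card {V : Type*} (s : Multiset V) (n : ℕ) (hn : n ≤ Multiset.card s) :
    ∃ J ≤ s, Multiset.card J = n := by
  refine ⟨(s.toList.take n : List V), ?_, ?_⟩
  · conv_rhs => rw [← Multiset.coe_toList s]
    rw [Multiset.coe_le]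
    exact (List.take_sublist n s.toList).subperm
  · rw [Multiset.coe_card, List.length_take, Multiset.length_toList]
    omega

variable {V : Type*} [DecidableEq V] {Δ : Finset (Finset V)} {U : Finset V} {d : ℕ}

/-- the span of the contractions of `ω` of degree `m`. -/
def Bm {K : Type*} [Field K] (ω : Multiset V → K) (d m : ℕ) : Submodule K (Multiset V → K) :=
  Submodule.span K {h | ∃ L : Multiset V, Multiset.card L + m = d ∧ h = ctr K L ω}

theorem Bm_le_WS {K : Type*} [Field K] {ω : Multiset V → K} (hΔ : IsCx Δ) (hω : ω ∈ WS K Δ d)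
    (m : ℕ) : Bm ω d m ≤ WS K Δ m := by
  unfold Bm
  rw [Submodule.span_le]
  rintro g ⟨L, hL, rfl⟩
  intro M hM
  rw [ctr_apply] at hM
  obtain ⟨h1, h2⟩ := hω _ hM
  rw [Multiset.card_add] at h2
  rw [Multiset.toFinset_add] at h1
  exact ⟨hΔ.down _ h1 _ Finset.subset_union_right, by omega⟩

theorem dual_rep {K : Type*} [Field K] (hU : ∀ τ ∈ Δ, τ ⊆ U) (m : ℕ)
    (f : (Multiset V → K) →ₗ[K] K) (g : Multiset V → K) (hg : g ∈ WS K Δ m) :
    f g = ∑ M ∈ msets U m, f (Pi.single M 1) * g M := by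
  have h1 : g = ∑ M ∈ msets U m, g M • (Pi.single M (1 : K) : Multiset V → K) := by
    funext N
    rw [Finset.sum_apply]
    simp only [Pi.smul_apply, smul_eq_mul, Pi.single_apply, mul_ite, mul_one, mul_zero]
    rw [Finset.sum_ite_eq]
    split_ifs with hN
    · rfl
    · by_contra hne
      apply hN
      obtain ⟨h2, h3⟩ := hg N hne
      rw [mem_msets]
      exact ⟨hU _ h2, h3⟩
  conv_lhs => rw [h1]
  rw [map_sum]
  refine Finset.sum_congr rfl fun M _ => ?_
  rw [map_smul, smul_eq_mul, mul_comm]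

section Main

variable {ω : Multiset V → RF (Ix V)}

theorem functional_zero (hU : ∀ τ ∈ Δ, τ ⊆ U)
    (hω : ω ∈ WS (RF (Ix V)) Δ d)
    (hD : ∀ u J, Dtv u (ω J) = 0)
    (hI : ∀ (I : Fin d → V) (J N : Multiset V), Multiset.card J = d → Multiset.card N = d →
        J + Multiset.map I Finset.univ.val = N + N →
        appD d (fun k : Fin d => Dco (k : ℕ) (some (I k))) (ω J) = (ω N) ^ 2)
    (m : ℕ) (hm : 2 * m + 1 ≤ d) (c : Multiset V → RF (Ix V))
    (hc : ∀ L : Multiset V, Multiset.card L + (m + 1) = d →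
      ∑ M ∈ msets U m, c M * ∑ v ∈ U, tv v * ω (L + v ::ₘ M) = 0)
    (L : Multiset V) (hL : Multiset.card L + m = d) :
    ∑ M ∈ msets U m, c M * ω (L + M) = 0 := by
  -- first: squares
  have h1 : ∀ J : Multiset V, Multiset.card J + 2 * m + 1 = d →
      ∑ M ∈ msets U m, c M ^ 2 * ∑ v ∈ U, tv v * ω (M + J + v ::ₘ M) = 0 := by
    intro J hJ
    have h2 : ∑ M' ∈ msets U m, ∑ M ∈ msets U m,
        c M' * c M * ∑ v ∈ U, tv v * ω (M' + J + v ::ₘ M) = 0 := by
      apply Finset.sum_eq_zero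
      intro M' hM'
      rw [mem_msets] at hM'
      have h3 := hc (M' + J) (by
        rw [Multiset.card_add]
        omega)
      simp only [mul_assoc]
      rw [← Finset.mul_sum, h3, mul_zero]
    rw [sum_sym_char_two] at h2
    · rw [← h2]
      refine Finset.sum_congr rfl fun M _ => ?_
      rw [sq]
    · intro x y
      rw [mul_comm (c x)]
      congr 1
      refine Finset.sum_congr rfl fun v _ => ?_
      congr 2
      rw [Multiset.add_cons, Multiset.add_cons]
      congr 1
      abel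
  -- second: remove the linear form
  have h2 : ∀ J : Multiset V, Multiset.card J + 2 * m = d →
      ∑ M ∈ msets U m, c M ^ 2 * ω (M + M + J) = 0 := by
    intro J hJ
    obtain ⟨u, hu⟩ := Multiset.card_pos_iff_exists_mem.mp (show 0 < Multiset.card J by omega)
    obtain ⟨J', rfl⟩ := Multiset.exists_cons_of_mem hu
    rw [Multiset.card_cons] at hJ
    by_cases huU : u ∈ U
    · have h3 := congrArg (Dtv u) (h1 J' (by omega))
      rw [map_sum, map_zero] at h3
      rw [← h3]
      refine Finset.sum_congr rfl fun M _ => ?_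
      rw [Derivation.leibniz, der_sq, smul_zero, add_zero, map_sum, Finset.sum_eq_single u]
      · rw [Derivation.leibniz, hD, smul_zero, zero_add, Dtv_tv, if_pos rfl, smul_eq_mul,
          smul_eq_mul, mul_one]
        congr 2
        rw [Multiset.add_cons, Multiset.add_cons]
        congr 1
        abel
      · intro v _ hvu
        rw [Derivation.leibniz, hD, smul_zero, zero_add, Dtv_tv, if_neg hvu, smul_zero]
      · intro h
        exact absurd huU h
    · apply Finset.sum_eq_zero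
      intro M _
      have h3 : ω (M + M + u ::ₘ J') = 0 := by
        by_contra hne
        obtain ⟨h4, -⟩ := hω _ hne
        apply huU
        apply hU _ h4
        simp
      rw [h3, mul_zero]
  -- third: differentiate
  have h3 : ∃ J ≤ L + L, Multiset.card J + 2 * m = d := by
    obtain ⟨J, hJ1, hJ2⟩ := exists_le_card (L + L) (d - 2 * m) (by
      rw [Multiset.card_add]
      omega)
    exact ⟨J, hJ1, by omega⟩
  obtain ⟨J, hJL, hJ⟩ := h3
  obtain ⟨I, hIJ⟩ := Multiset.le_iff_exists_add.mp hJL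
  have hIcard : Multiset.card I = d := by
    have := congrArg Multiset.card hIJ
    rw [Multiset.card_add, Multiset.card_add] at this
    omega
  obtain ⟨I', hI'⟩ := exists_fin_map I hIcard
  have h4 : (∑ M ∈ msets U m, c M * ω (L + M)) ^ 2 = 0 := by
    rw [CharTwo.sum_sq]
    have h5 := congrArg (appD d (fun k : Fin d => Dco (k : ℕ) (some (I' k)))) (h2 J hJ)
    rw [appD_sum, appD_zero_arg] at h5
    rw [← h5]
    refine Finset.sum_congr rfl fun M hM => ?_
    rw [mem_msets] at hM
    rw [appD_const_mul _ _ _ _ (fun k => der_sq _ _), hI I' (M + M + J) (L + M), mul_pow]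
    · rw [Multiset.card_add, Multiset.card_add]
      omega
    · rw [Multiset.card_add]
      omega
    · rw [hI']
      calc M + M + J + I = M + M + (J + I) := by abel
        _ = L + M + (L + M) := by
          rw [← hIJ]
          abel
  exact pow_eq_zero_iff two_ne_zero |>.mp h4

theorem Bm_le_map (hΔ : IsCx Δ) (hU : ∀ τ ∈ Δ, τ ⊆ U)
    (hω : ω ∈ WS (RF (Ix V)) Δ d)
    (hD : ∀ u J, Dtv u (ω J) = 0)
    (hI : ∀ (I : Fin d → V) (J N : Multiset V), Multiset.card J = d → Multiset.card N = d →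
        J + Multiset.map I Finset.univ.val = N + N →
        appD d (fun k : Fin d => Dco (k : ℕ) (some (I k))) (ω J) = (ω N) ^ 2)
    (m : ℕ) (hm : 2 * m + 1 ≤ d) :
    Bm ω d m ≤ (Bm ω d (m + 1)).map (th U tv) := by
  unfold Bm
  rw [Submodule.span_le]
  rintro g ⟨L, hL, rfl⟩
  by_contra hne
  obtain ⟨f, hf1, hf2⟩ := Submodule.exists_le_ker_of_notMem hne
  apply hf1
  have hmem : ∀ L : Multiset V, Multiset.card L + m = d → ctr (RF (Ix V)) L ω ∈
      WS (RF (Ix V)) Δ m := by
    intro L hL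
    exact Bm_le_WS hΔ hω m (Submodule.subset_span ⟨L, hL, rfl⟩)
  have hmem' : ∀ L : Multiset V, Multiset.card L + (m + 1) = d → ctr (RF (Ix V)) L ω ∈
      WS (RF (Ix V)) Δ (m + 1) := by
    intro L hL
    exact Bm_le_WS hΔ hω (m + 1) (Submodule.subset_span ⟨L, hL, rfl⟩)
  rw [dual_rep hU m f _ (hmem L hL)]
  apply functional_zero hU hω hD hI m hm (fun M => f (Pi.single M 1)) ?_ L hL
  intro L' hL'
  have h1 : f (th U tv (ctr (RF (Ix V)) L' ω)) = 0 := by
    have : th U tv (ctr (RF (Ix V)) L' ω) ∈ LinearMap.ker f := by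
      apply hf2
      apply Submodule.mem_map_of_mem
      exact Submodule.subset_span ⟨L', hL', rfl⟩
    exact this
  rw [dual_rep hU m f _ (th_mem_WS hΔ U tv (hmem' L' hL'))] at h1
  exact h1

end Main

section Rank

variable {K : Type*} [Field K] {ω : Multiset V → K}

theorem finrank_Bm_eq_rank (hΔ : IsCx Δ) (hU : ∀ τ ∈ Δ, τ ⊆ U) (hω : ω ∈ WS K Δ d)
    (m n : ℕ) (hmn : n + m = d) :
    Module.finrank K (Bm ω d m) =
      (Matrix.of (fun (M : msets U m) (L : msets U n) => ω (L.1 + M.1))).rank := by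
  classical
  let ρ : (Multiset V → K) →ₗ[K] (msets U m → K) :=
    { toFun := fun g M => g M.1
      map_add' := fun _ _ => rfl
      map_smul' := fun _ _ => rfl }
  have hinj : Function.Injective (ρ.domRestrict (Bm ω d m)) := by
    rw [injective_iff_map_eq_zero]
    intro g hg
    ext M
    by_contra hne
    obtain ⟨h1, h2⟩ := Bm_le_WS hΔ hω m g.2 M hne
    exact hne (congrFun hg ⟨M, mem_msets.mpr ⟨hU _ h1, h2⟩⟩)
  rw [← LinearMap.finrank_range_of_inj hinj, LinearMap.range_domRestrict,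
    Matrix.rank_eq_finrank_span_cols]
  have h3 : (Bm ω d m).map ρ = Submodule.span K (Set.range
      (Matrix.of (fun (M : msets U m) (L : msets U n) => ω (L.1 + M.1))).col) := by
    unfold Bm
    rw [Submodule.map_span]
    apply le_antisymm
    · rw [Submodule.span_le]
      rintro g ⟨h, ⟨L, hL, rfl⟩, rfl⟩
      by_cases hLU : L ∈ msets U n
      · apply Submodule.subset_span
        exact ⟨⟨L, hLU⟩, rfl⟩
      · have : ρ (ctr K L ω) = 0 := by
          funext M
          change ω (L + M.1) = 0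
          by_contra hne
          obtain ⟨h1, -⟩ := hω _ hne
          apply hLU
          rw [mem_msets]
          refine ⟨?_, by omega⟩
          have h4 := hU _ h1
          rw [Multiset.toFinset_add] at h4
          exact Finset.union_subset_left h4
        rw [this]
        exact Submodule.zero_mem _
    · rw [Submodule.span_le]
      rintro g ⟨L, rfl⟩
      apply Submodule.subset_span
      refine ⟨ctr K L.1 ω, ⟨L.1, ?_, rfl⟩, rfl⟩
      have := (mem_msets.mp L.2).2
      omega
  rw [h3]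

theorem finrank_Bm_symm (hΔ : IsCx Δ) (hU : ∀ τ ∈ Δ, τ ⊆ U) (hω : ω ∈ WS K Δ d)
    (m n : ℕ) (hmn : n + m = d) :
    Module.finrank K (Bm ω d m) = Module.finrank K (Bm ω d n) := by
  rw [finrank_Bm_eq_rank hΔ hU hω m n hmn, finrank_Bm_eq_rank hΔ hU hω n m (by omega),
    ← Matrix.rank_transpose]
  congr 1
  ext L M
  rw [Matrix.transpose_apply, Matrix.of_apply, Matrix.of_apply, add_comm]

end Rank

theorem Bm_eq_KerS {K : Type*} [Field K] [CharP K 2] {ω : Multiset V → K} (hΔ : IsCx Δ)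
    (hU : ∀ τ ∈ Δ, τ ⊆ U) (a : ℕ → V → K)
    (hgood : Good d U a) (hac : CMAc K U Δ d) (hcard : ∀ τ ∈ Δ, τ.card ≤ d)
    (hridge : ∀ σ ∈ Δ, σ.card + 1 = d → ∃ v w, v ≠ w ∧ v ∉ σ ∧ w ∉ σ ∧ insert v σ ∈ Δ ∧
      insert w σ ∈ Δ ∧ ∀ x, x ∉ σ → insert x σ ∈ Δ → x = v ∨ x = w)
    (hω1 : ω ∈ WS K Δ d) (hω2 : ∀ i < d, th U (a i) ω = 0)
    (hω3 : ∀ F ∈ Δ, F.card = d → ω F.val ≠ 0) (m : ℕ) (hm : m ≤ d) :
    Bm ω d m = KerS U Δ a d m := by
  apply le_antisymm
  · unfold Bm
    rw [Submodule.span_le]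
    rintro g ⟨L, hL, rfl⟩
    refine ⟨Bm_le_WS hΔ hω1 m (Submodule.subset_span ⟨L, hL, rfl⟩), ?_⟩
    intro j hj
    rw [th_ctr, hω2 j hj, map_zero]
  · intro g hg
    obtain ⟨h1, h2⟩ := hg
    have h3 := stress_span hΔ hU a hgood hac hcard hridge ω hω1 hω2 hω3 d ∅ hΔ.empty_mem
      (by simp) m hm g (by
        intro M hM
        obtain ⟨h4, h5⟩ := h1 M hM
        refine ⟨?_, h5⟩
        rw [mem_star' hΔ, Finset.union_empty]
        exact h4) h2
    unfold Bm
    refine Submodule.span_mono ?_ h3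
    rintro h ⟨L, hL, rfl⟩
    exact ⟨L, hL, by simp⟩

/-- symmetry and unimodality of the `h`-vector. -/
theorem gthm (hΔ : IsCx Δ) (hU : ∀ τ ∈ Δ, τ ⊆ U) (hac : CMAc (RF (Ix V)) U Δ d)
    (hcard : ∀ τ ∈ Δ, τ.card ≤ d)
    (hridge : ∀ σ ∈ Δ, σ.card + 1 = d → ∃ v w, v ≠ w ∧ v ∉ σ ∧ w ∉ σ ∧ insert v σ ∈ Δ ∧
      insert w σ ∈ Δ ∧ ∀ x, x ∉ σ → insert x σ ∈ Δ → x = v ∨ x = w) :
    (∀ m n, n + m = d → hvec d (fnum Δ) m = hvec d (fnum Δ) n) ∧
    (∀ m, 2 * m + 1 ≤ d → hvec d (fnum Δ) m ≤ hvec d (fnum Δ) (m + 1)) := by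
  obtain ⟨ω, h1, h2, h3, h4, h5⟩ := exists_omega hΔ hU hridge
  have hgood := good_ga d U
  have hreg := reg_main d U Δ (ga V) hΔ hU hgood hac
  have hB : ∀ m ≤ d, (Module.finrank (RF (Ix V)) (Bm ω d m) : ℤ) = hvec d (fnum Δ) m := by
    intro m hm
    rw [Bm_eq_KerS hΔ hU (ga V) hgood hac hcard hridge h1 h2 h3 m hm]
    exact finrank_stress hΔ hU (ga V) d hcard hreg m hm
  constructor
  · intro m n hmn
    rw [← hB m (by omega), ← hB n (by omega), finrank_Bm_symm hΔ hU h1 m n hmn]
  · intro m hm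
    rw [← hB m (by omega), ← hB (m + 1) (by omega)]
    have hfin : Module.Finite (RF (Ix V)) (Bm ω d (m + 1)) := by
      rw [Bm_eq_KerS hΔ hU (ga V) hgood hac hcard hridge h1 h2 h3 (m + 1) (by omega)]
      exact finite_KerS hU _ _ _
    have h6 := Submodule.finrank_mono (Bm_le_map hΔ hU h1 h4 h5 m hm)
    have h7 := Submodule.finrank_map_le (th U tv) (Bm ω d (m + 1))
    exact_mod_cast h6.trans h7

end Pool.Agent.MPfdde87
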