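import Pool.Agent.Lib.MP_fdde87_co.AB
import Pool.Agent.Lib.MP_fdde87_co.Defs

/-!
Words: the coefficient vectors, their comparison, and uniqueness of the cd-index.
-/

namespace Pool.Agent.MPfdde87

/-- the coefficient vectors of words, written backwards. -/
def pw : List Letter → ℕ → ℤ
  | [] => fun i => if i = 0 then 1 else 0
  | .c :: w => opC (degW w) (pw w)
  | .d :: w => opD (degW w) (pw w)

theorem degW_nil : degW [] = 0 := rfl

theorem degW_cons (x : Letter) (w : List Letter) : degW (x :: w) = x.deg + degW w := by
  simp [degW]

theorem degW_append (u v : List Letter) : degW (u ++ v) = degW u + degW v := by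
  simp [degW]

theorem degW_reverse (u : List Letter) : degW u.reverse = degW u := by
  simp [degW, List.sum_reverse]

theorem pw_good (u : List Letter) : Nn (degW u) (pw u) ∧
    (An (degW u) (pw u) ∨ SU (degW u) (pw u)) := by
  induction u with
  | nil =>
    constructor
    · intro i _
      simp only [pw]
      split_ifs <;> omega
    · left
      intro i j hij hj
      rw [degW_nil] at hj
      have h1 : i = j := by omega
      rw [h1]
  | cons x u ih =>
    cases x with
    | c =>
      rw [degW_cons]
      simp only [Letter.deg, pw]
      rw [Nat.add_comm]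
      exact ⟨Nn_opC ih.1, Or.inl (An_opC ih.1)⟩
    | d =>
      rw [degW_cons]
      simp only [Letter.deg, pw]
      rw [Nat.add_comm]
      exact ⟨Nn_opD ih.1, Or.inr (SU_opD ih.1)⟩

theorem pw_compare (u : List Letter) (v : List Letter) : ∀ (n : ℕ) (W : ℕ → ℤ),
    n = degW v + degW u + 2 → Nn n W → (Mo n W ∨ SU n W) →
    pr n W (pw (v ++ .c :: .c :: u)) ≤ pr n W (pw (v ++ .d :: u)) := by
  induction v with
  | nil =>
    intro n W hn hW0 hW
    rw [degW_nil, Nat.zero_add] at hn
    subst hn
    simp only [List.nil_append, pw]
    rw [degW_cons]
    simp only [Letter.deg]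
    rw [Nat.add_comm 1]
    exact base (degW u) W hW0 hW (pw u) (pw_good u).1 (pw_good u).2
  | cons x v ih =>
    intro n W hn hW0 hW
    have h1 : degW (v ++ .c :: .c :: u) = degW v + degW u + 2 := by
      rw [degW_append, degW_cons, degW_cons]
      simp only [Letter.deg]
      omega
    have h2 : degW (v ++ .d :: u) = degW v + degW u + 2 := by
      rw [degW_append, degW_cons]
      simp only [Letter.deg]
      omega
    cases x with
    | c =>
      rw [degW_cons] at hn
      simp only [Letter.deg] at hn
      obtain rfl : n = (degW v + degW u + 2) + 1 := by omega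
      simp only [List.cons_append, pw]
      rw [h1, h2, pr_opC, pr_opC]
      exact ih _ _ rfl (Nn_tC hW0) (Or.inl (Mo_tC hW0))
    | d =>
      rw [degW_cons] at hn
      simp only [Letter.deg] at hn
      obtain rfl : n = (degW v + degW u + 2) + 2 := by omega
      simp only [List.cons_append, pw]
      rw [h1, h2, pr_opD, pr_opD]
      exact ih _ _ rfl (Nn_tD hW0) (Or.inr (SU_tD hW0))

/-- the words of degree `n`. -/
def cdWords : ℕ → Finset (List Letter)
  | 0 => {[]}
  | 1 => {[.c]}
  | n + 2 => (cdWords (n + 1)).image (fun w => w ++ [.c]) ∪ (cdWords n).image (fun w => w ++ [.d])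

theorem mem_cdWords (n : ℕ) : ∀ w, w ∈ cdWords n ↔ degW w = n := by
  induction n using Nat.strong_induction_on with
  | _ n ih =>
    intro w
    have hcases : w = [] ∨ ∃ w' x, w = w' ++ [x] := by
      rcases List.eq_nil_or_concat w with h | ⟨w', x, h⟩
      · exact Or.inl h
      · exact Or.inr ⟨w', x, by rw [h, List.concat_eq_append]⟩
    match n, ih with
    | 0, _ =>
      rw [cdWords, Finset.mem_singleton]
      constructor
      · rintro rfl
        rfl
      · intro h
        rcases hcases with h' | ⟨w', x, rfl⟩
        · exact h'
        · rw [degW_append, degW_cons] at h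
          cases x <;> simp [Letter.deg] at h
    | 1, ih =>
      rw [cdWords, Finset.mem_singleton]
      constructor
      · rintro rfl
        rfl
      · intro h
        rcases hcases with rfl | ⟨w', x, rfl⟩
        · simp [degW] at h
        · rw [degW_append, degW_cons, degW_nil] at h
          cases x with
          | c =>
            simp only [Letter.deg] at h
            have h1 := (ih 0 (by omega) w').mpr (by omega)
            rw [cdWords, Finset.mem_singleton] at h1
            rw [h1]
            rfl
          | d =>
            simp only [Letter.deg] at h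
            omega
    | n + 2, ih =>
      rw [cdWords, Finset.mem_union, Finset.mem_image, Finset.mem_image]
      constructor
      · rintro (⟨w', hw', rfl⟩ | ⟨w', hw', rfl⟩)
        · rw [ih (n + 1) (by omega)] at hw'
          rw [degW_append, hw']
          rfl
        · rw [ih n (by omega)] at hw'
          rw [degW_append, hw']
          rfl
      · intro h
        rcases hcases with rfl | ⟨w', x, rfl⟩
        · simp [degW] at h
        · rw [degW_append, degW_cons, degW_nil] at h
          cases x with
          | c =>
            simp only [Letter.deg] at h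
            left
            exact ⟨w', (ih (n + 1) (by omega) w').mpr (by omega), rfl⟩
          | d =>
            simp only [Letter.deg] at h
            right
            exact ⟨w', (ih n (by omega) w').mpr (by omega), rfl⟩

theorem sum_cdWords_right {M : Type*} [AddCommMonoid M] (n : ℕ) (g : List Letter → M) :
    ∑ w ∈ cdWords (n + 2), g w = ∑ w ∈ cdWords (n + 1), g (w ++ [.c]) +
      ∑ w ∈ cdWords n, g (w ++ [.d]) := by
  rw [cdWords, Finset.sum_union, Finset.sum_image, Finset.sum_image]
  · intro x _ y _ h
    exact List.append_cancel_right h
  · intro x _ y _ h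
    exact List.append_cancel_right h
  · rw [Finset.disjoint_left]
    intro w hw hw'
    rw [Finset.mem_image] at hw hw'
    obtain ⟨x, _, hx⟩ := hw
    obtain ⟨y, _, hy⟩ := hw'
    have h := hx.trans hy.symm
    have h2 := congrArg List.getLast? h
    simp at h2

theorem sum_cdWords_left {M : Type*} [AddCommMonoid M] (n : ℕ) (g : List Letter → M) :
    ∑ w ∈ cdWords (n + 2), g w = ∑ w ∈ cdWords (n + 1), g (.c :: w) +
      ∑ w ∈ cdWords n, g (.d :: w) := by
  have h1 : cdWords (n + 2) = (cdWords (n + 1)).image (fun w => .c :: w) ∪
      (cdWords n).image (fun w => .d :: w) := by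
    ext w
    rw [mem_cdWords, Finset.mem_union, Finset.mem_image, Finset.mem_image]
    constructor
    · intro h
      cases w with
      | nil => simp [degW] at h
      | cons x w =>
        rw [degW_cons] at h
        cases x with
        | c =>
          simp only [Letter.deg] at h
          exact Or.inl ⟨w, (mem_cdWords _ _).mpr (by omega), rfl⟩
        | d =>
          simp only [Letter.deg] at h
          exact Or.inr ⟨w, (mem_cdWords _ _).mpr (by omega), rfl⟩
    · rintro (⟨w', hw', rfl⟩ | ⟨w', hw', rfl⟩)
      · rw [mem_cdWords] at hw'
        rw [degW_cons, hw']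
        simp only [Letter.deg]
        omega
      · rw [mem_cdWords] at hw'
        rw [degW_cons, hw']
        simp only [Letter.deg]
        omega
  rw [h1, Finset.sum_union, Finset.sum_image, Finset.sum_image]
  · intro x _ y _ h
    exact (List.cons_injective h)
  · intro x _ y _ h
    exact (List.cons_injective h)
  · rw [Finset.disjoint_left]
    intro w hw hw'
    rw [Finset.mem_image] at hw hw'
    obtain ⟨x, _, hx⟩ := hw
    obtain ⟨y, _, hy⟩ := hw'
    have h := hx.trans hy.symm
    simp at h

theorem polyW_nil : polyW [] = 1 := rfl

theorem polyW_append (u v : List Letter) : polyW (u ++ v) = polyW u * polyW v := by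
  simp [polyW]

theorem polyW_cons (x : Letter) (w : List Letter) : polyW (x :: w) = x.poly * polyW w := by
  simp [polyW]

theorem opC_sum {ι : Type*} (s : Finset ι) (e : ℕ) (f : ι → ℕ → ℤ) (z : ι → NC) (i : ℕ) :
    opC e (fun i => ∑ w ∈ s, f w i • z w) i = ∑ w ∈ s, opC e (f w) i • z w := by
  unfold opC pre
  rw [Finset.sum_comm, Finset.sum_comm (s := Finset.range i), ← Finset.sum_sub_distrib]
  refine Finset.sum_congr rfl fun w _ => ?_
  rw [← Finset.sum_smul, ← Finset.sum_smul, ← sub_smul]

theorem opD_sum {ι : Type*} (s : Finset ι) (e : ℕ) (f : ι → ℕ → ℤ) (z : ι → NC) (i : ℕ) :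
    opD e (fun i => ∑ w ∈ s, f w i • z w) i = ∑ w ∈ s, opD e (f w) i • z w := by
  unfold opD
  have h1 : ∀ j, pre (fun i => ∑ w ∈ s, f w i • z w) j = ∑ w ∈ s, pre (f w) j • z w := by
    intro j
    unfold pre
    rw [Finset.sum_comm]
    refine Finset.sum_congr rfl fun w _ => ?_
    rw [← Finset.sum_smul]
  have h2 : ∀ j, ∑ l ∈ Finset.range j, (∑ w ∈ s, f w l • z w + ∑ w ∈ s, f w (e - l) • z w) =
      ∑ w ∈ s, (∑ l ∈ Finset.range j, (f w l + f w (e - l))) • z w := by
    intro j
    simp only [Finset.sum_smul, add_smul]
    rw [Finset.sum_comm]
    refine Finset.sum_congr rfl fun l _ => ?_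
    rw [Finset.sum_add_distrib]
  simp only [h1, h2, Finset.sum_smul, sub_smul]
  rw [Finset.sum_comm]
  refine Finset.sum_congr rfl fun j _ => ?_
  rw [Finset.sum_sub_distrib]

/-- expansion of the cd-polynomials in words. -/
theorem Phi_eq_sum (n : ℕ) : ∀ i, Phi va vb n i =
    ∑ w ∈ cdWords n, pw w.reverse i • polyW w := by
  induction n using Nat.strong_induction_on with
  | _ n ih =>
    match n, ih with
    | 0, _ =>
      intro i
      rw [Phi, cdWords, Finset.sum_singleton, List.reverse_nil, pw, polyW_nil]
      by_cases hi : i = 0 <;> simp [hi]
    | 1, _ =>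
      intro i
      rw [Phi, cdWords, Finset.sum_singleton]
      have h1 : polyW [.c] = va + vb := by
        rw [polyW_cons, polyW_nil, mul_one]
        rfl
      have h2 : opC 0 (Phi va vb 0) i = ((opC 0 (pw []) i : ℤ) : NC) := by
        have key : ∀ j, Phi va vb 0 j = ((pw [] j : ℤ) : NC) := by
          intro j
          rw [Phi, pw]
          by_cases hj : j = 0 <;> simp [hj]
        unfold opC pre
        rw [Int.cast_sub, Int.cast_sum, Int.cast_sum]
        simp only [key]
      have h3 : pw (List.reverse [.c]) i = opC 0 (pw []) i := rfl
      rw [h1, h2, h3, zsmul_eq_mul]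
    | n + 2, ih =>
      intro i
      rw [Phi, sum_cdWords_right]
      congr 1
      · have h1 : opC (n + 1) (Phi va vb (n + 1)) i =
            ∑ w ∈ cdWords (n + 1), opC (n + 1) (pw w.reverse) i • polyW w := by
          rw [← opC_sum]
          congr 1
          funext j
          exact ih (n + 1) (by omega) j
        rw [h1, Finset.sum_mul]
        refine Finset.sum_congr rfl fun w hw => ?_
        rw [mem_cdWords] at hw
        rw [List.reverse_append, polyW_append, List.reverse_singleton, List.singleton_append, pw,
          degW_reverse, hw, smul_mul_assoc, polyW_cons, polyW_nil, mul_one]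
        rfl
      · have h1 : opD n (Phi va vb n) i =
            ∑ w ∈ cdWords n, opD n (pw w.reverse) i • polyW w := by
          rw [← opD_sum]
          congr 1
          funext j
          exact ih n (by omega) j
        rw [h1, Finset.sum_mul]
        refine Finset.sum_congr rfl fun w hw => ?_
        rw [mem_cdWords] at hw
        rw [List.reverse_append, polyW_append, List.reverse_singleton, List.singleton_append, pw,
          degW_reverse, hw, smul_mul_assoc, polyW_cons, polyW_nil, mul_one]
        rfl

/-- left multiplication by a variable, on coefficient functions. -/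
def shiftL (x : Bool) : (List Bool → ℤ) →ₗ[ℤ] (List Bool → ℤ) where
  toFun f := fun m => match m with
    | [] => 0
    | y :: m' => if y = x then f m' else 0
  map_add' f g := by
    funext m
    cases m with
    | nil => simp
    | cons y m' =>
      simp only [Pi.add_apply]
      split_ifs <;> simp
  map_smul' r f := by
    funext m
    cases m with
    | nil => simp
    | cons y m' =>
      simp only [Pi.smul_apply, RingHom.id_apply]
      split_ifs <;> simp

/-- coefficient extraction. -/
noncomputable def coef : NC →ₗ[ℤ] (List Bool → ℤ) where
  toFun F := (FreeAlgebra.lift ℤ (fun x : Bool => (shiftL x : Module.End ℤ (List Bool → ℤ)))) F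
    (fun m => if m = [] then 1 else 0)
  map_add' F G := by
    rw [map_add]
    rfl
  map_smul' r F := by
    rw [map_smul]
    rfl

theorem coef_one : coef 1 = fun m => if m = [] then 1 else 0 := by
  change (FreeAlgebra.lift ℤ (fun x : Bool => (shiftL x : Module.End ℤ (List Bool → ℤ)))) 1
    (fun m => if m = [] then 1 else 0) = _
  rw [map_one]
  rfl

theorem coef_mul (x : Bool) (F : NC) : coef (FreeAlgebra.ι ℤ x * F) = shiftL x (coef F) := by
  change (FreeAlgebra.lift ℤ (fun x : Bool => (shiftL x : Module.End ℤ (List Bool → ℤ))))
    (FreeAlgebra.ι ℤ x * F) (fun m => if m = [] then 1 else 0) = _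
  rw [map_mul, FreeAlgebra.lift_ι_apply]
  rfl

theorem coef_va (F : NC) : coef (va * F) = shiftL false (coef F) := coef_mul false F

theorem coef_vb (F : NC) : coef (vb * F) = shiftL true (coef F) := coef_mul true F

theorem cd_unique (n : ℕ) : ∀ ψ : List Letter → ℤ,
    coef (∑ w ∈ cdWords n, ψ w • polyW w) = 0 → ∀ w ∈ cdWords n, ψ w = 0 := by
  induction n using Nat.strong_induction_on with
  | _ n ih =>
    match n, ih with
    | 0, _ =>
      intro ψ h w hw
      rw [cdWords, Finset.mem_singleton] at hw
      subst hw
      rw [cdWords, Finset.sum_singleton, polyW_nil, map_smul, coef_one] at h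
      have := congrFun h []
      simpa using this
    | 1, _ =>
      intro ψ h w hw
      rw [cdWords, Finset.mem_singleton] at hw
      subst hw
      rw [cdWords, Finset.sum_singleton, polyW_cons, polyW_nil, map_smul, Letter.poly, add_mul,
        map_add, coef_va, coef_vb, coef_one] at h
      have := congrFun h [false]
      simpa [shiftL] using this
    | n + 2, ih =>
      intro ψ h
      rw [sum_cdWords_left] at h
      set G : NC := ∑ w ∈ cdWords (n + 1), ψ (.c :: w) • polyW w with hG
      set H : NC := ∑ w ∈ cdWords n, ψ (.d :: w) • polyW w with hH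
      have h1 : ∑ w ∈ cdWords (n + 1), ψ (.c :: w) • polyW (.c :: w) = va * G + vb * G := by
        rw [← add_mul, hG, Finset.mul_sum]
        refine Finset.sum_congr rfl fun w _ => ?_
        rw [polyW_cons, mul_smul_comm]
        rfl
      have h2 : ∑ w ∈ cdWords n, ψ (.d :: w) • polyW (.d :: w) =
          va * (vb * H) + vb * (va * H) := by
        rw [← mul_assoc, ← mul_assoc, ← add_mul, hH, Finset.mul_sum]
        refine Finset.sum_congr rfl fun w _ => ?_
        rw [polyW_cons, mul_smul_comm]
        rfl
      rw [h1, h2] at h
      simp only [map_add, coef_va, coef_vb] at h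
      have h3 : ∀ m, coef G m + shiftL true (coef H) m = 0 := by
        intro m
        have := congrFun h (false :: m)
        simpa [shiftL] using this
      have h4 : ∀ m, coef G m + shiftL false (coef H) m = 0 := by
        intro m
        have := congrFun h (true :: m)
        simpa [shiftL] using this
      have h5 : coef H = 0 := by
        funext m
        have h6 := h3 (false :: m)
        have h7 := h4 (false :: m)
        simp [shiftL] at h6 h7
        simp only [Pi.zero_apply]
        omega
      have h6 : coef G = 0 := by
        funext m
        have h7 := h3 m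
        rw [h5, map_zero] at h7
        simpa using h7
      intro w hw
      rw [mem_cdWords] at hw
      cases w with
      | nil => simp [degW] at hw
      | cons x w =>
        rw [degW_cons] at hw
        cases x with
        | c =>
          simp only [Letter.deg] at hw
          exact ih (n + 1) (by omega) (fun w => ψ (.c :: w)) h6 w ((mem_cdWords _ _).mpr (by omega))
        | d =>
          simp only [Letter.deg] at hw
          exact ih n (by omega) (fun w => ψ (.d :: w)) h5 w ((mem_cdWords _ _).mpr (by omega))

theorem NC_two (x y : NC) (h : x + x = y + y) : x = y := by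
  have h2 : (2 : ℤ) • x = (2 : ℤ) • y := by
    rw [two_smul, two_smul]
    exact h
  exact smul_right_injective _ two_ne_zero h2

end Pool.Agent.MPfdde87
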